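import Pool.Agent.Helper70.CPW.Mx

/-! THE ROW ZOOM OF A SYSTEM WITH COPIES ON EVERY EVENT OF EVERY EXTENSION: it is a zoom in the same rows, with the windows
of the system, and its type-labels have full volume if the copy of the row zoom is stable. -/

set_option autoImplicit false

namespace Pool.Agent.Helper70.CPW

open Finset Filter Topology Matrix Pool.Agent.Helper69.RK Pool.Agent.Helper31.EC Pool.Agent.Helper31.EC.Sp
open Pool.Agent.Helper40.EL Pool.Agent.Helper84.MT Pool.Agent.Helper89.LX Pool.Agent.Helper3.LF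
open Pool.Agent.Helper87.NSL (cndR)
open Pool.Agent.Helper81.CPY Pool.Agent.Helper7.RD
open Pool.Agent.Helper29.MX

noncomputable section

variable {S T : Sp} {M : ℕ} {E E' : ℕ → ℕ} {ι κ : Type} {s : MSys S M E ι} {R : Rsl S}

/-- stability is a property of the pair (space, system) -/
theorem Stb_sig {S₁ S₂ : Sp} {t₁ : MSys S₁ M E ι} {t₂ : MSys S₂ M E ι} {ε : ℝ}
    (he : (⟨S₁, t₁⟩ : Σ S : Sp, MSys S M E ι) = ⟨S₂, t₂⟩) (h : Stb ε t₂ (rbot S₂)) : Stb ε t₁ (rbot S₁) := by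
  cases he
  exact h

/-- windows relations between a system and a zoom -/
def WinR (s : MSys S M E ι) (W : Rsl S) (c : ℝ) {e : ℝ} (he : 0 < e) (t : MSys ((Lab.ofZ W).ovr e he) M E' ι) : Prop :=
  ∀ (b : ℝ) (i : ι), 0 ≤ b → b ≤ 1 →
    PLe ((t.lf i).win b) ((Lab.ofZ W).up e he ((s.lf i).win (c + e * b))) ∧
    PLe ((Lab.ofZ W).up e he ((s.lf i).win (c + e * b))) ((t.lf i).win b)

/-- the conditions of the zoom -/
theorem WinR.cnd {W : Rsl S} {c e : ℝ} {he : 0 < e} {t : MSys ((Lab.ofZ W).ovr e he) M E' ι} (h : WinR s W c he t)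
    {b : ℝ} (h0 : 0 ≤ b) (h1 : b ≤ 1) (i : Option ι) :
    PLe (cndR t (rbot _) b i) ((Lab.ofZ W).up e he (cndR s (rbot S) (c + e * b) i)) := by
  rcases i with _ | i
  · refine PLe_of_le fun k => ?_
    show fc ⊥ ≤ (frb (S.F k) (W k) e he).map ((FLab.triv (S.F k)).p.map (fc ⊥))
    exact fc_mono fun a b h => h
  · exact (h b i h0 h1).1

/-- THE ROW ZOOM OF THE SYSTEM WITH COPIES on an event of an extension -/
theorem exists_ev (hC : Dtm s.Q (rsC R)) (l : κ → Leaf S s.Q E) {W : Rsl S} (hW : LitC (rsC R) W) {c u : ℝ}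
    {h0 : 0 ≤ c} {hu : 0 < u} {h1 : c + u ≤ 1} (z : PZ (zuz W c u h0 hu h1) s.Q M)
    {t : MSys ((Lab.ofZ W).ovr u hu) M E' ι} (ht : t.Q = z.X) (hw : WinR s W c hu t)
    (hC' : Dtm (S := S.chg W u hu) t.Q (rsC R)) (lt : κ → Leaf ((Lab.ofZ W).ovr u hu) t.Q E')
    (hl : ∀ (b : ℝ) (j : κ), 0 ≤ b → b ≤ 1 →
      PLe ((lt j).win b) ((Lab.ofZ W).up u hu ((l j).win (c + u * b))) ∧
      PLe ((Lab.ofZ W).up u hu ((l j).win (c + u * b))) ((lt j).win b))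
    (hst : Stb 0 (MSys.cpy (S := S.chg W u hu) t (rsC R) hC' lt) (rbot _))
    (p : Pj T (cpd (rsC R)).sp) (A : ∀ k, (T.F k).Ω → Prop) (hA : 0 < ul (T.pr A)) :
    ∃ t' : MSys ((Lab.ofZ (S := Sp.im p A) ((cpd (rsC R)).p1.pb W)).ovr u hu) M E' (ι ⊕ κ),
      t'.Q = (pzI p A hA (pzP (cpd (rsC R)).p1 (pbZ (rsC R)) z)).X ∧
      WinR ((s.cpy (rsC R) hC l).im p A hA) ((cpd (rsC R)).p1.pb W : Rsl (Sp.im p A)) c hu t' ∧
      (M : ℝ) ≤ volKO t' (rbot _) 0 := by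
  obtain ⟨t', e1, e2, e3⟩ := exists_rcp (rsC R) hC l hW hu hw hC' lt hl
  refine ⟨zim p A hA t', ?_, ?_, ?_⟩
  · show xI p A t'.Q = xI p A _
    rw [e2, ht]
    rfl
  · intro b i hb0 hb1
    exact winI p A hA (e3 b i hb0 hb1)
  · have h2 : Stb 0 t' (rbot _) := Stb_sig e1 hst
    have h3 := h2 _ (pjb p ((cpd (rsC R)).p1.pb W) u hu) A hA
    rw [sub_zero] at h3
    exact h3

end

end Pool.Agent.Helper70.CPW
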