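import Pool.Agent.Helper70.CPW.Grm
import Pool.Agent.Helper7.RD.Pf
import Pool.Agent.Helper4.FFR.Use

/-! GRAM DETERMINANTS of flag rows with optimal exponents. -/

set_option autoImplicit false

namespace Pool.Agent.Helper70.CPW

open Finset Filter Topology Matrix Pool.Agent.Helper69.RK Pool.Agent.Helper31.EC Pool.Agent.Helper31.EC.Sp
open Pool.Agent.Helper40.EL Pool.Agent.Helper84.MT Pool.Agent.Helper89.LX Pool.Agent.Helper3.LF
open Pool.Agent.Helper87.NSL (cndR)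
open Pool.Agent.Helper7.GZ Pool.Agent.Helper7.RD
open Pool.Agent.Helper29.MX

noncomputable section

variable {S : Sp} {M : ℕ} {E : ℕ → ℕ} {ι : Type} {s : MSys S M E ι} {z : RW s M} {lam : Fin M → ℝ}

/-- the Jacobian of flag rows -/
theorem flg_low (hf : Flg z lam) (e : ℝ) (he : 0 < e) :
    Typ (S := z.Z.l.sp) (fun k (ω : (z.Z.l k).T.Ω) => 2 ^ (2 * (∑ j, lam j - e) * (S.F k).n) ≤
      (jac (z.R.p k ω) (s.Q.v k ((z.Z.l k).p.π ω))).det ^ 2) := by
  have hM : (0 : ℝ) < M + 1 := by positivity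
  refine (hf.ex (e / (M + 1)) (div_pos he hM)).mono (Eventually.of_forall fun k ω _ h => ?_)
  have hn := (S.F k).pos
  have h1 : (2 : ℝ) ^ ((∑ j, lam j - e) * (S.F k).n) ≤ |(jac (z.R.p k ω) (s.Q.v k ((z.Z.l k).p.π ω))).det| := by
    rw [Pool.Agent.Helper4.FFR.jac_tri (hf.tri k ω), Finset.abs_prod]
    have h2 : ∏ j, (2 : ℝ) ^ ((lam j - e / (M + 1)) * (S.F k).n) ≤ ∏ j, |MvPolynomial.eval
        (s.Q.v k ((z.Z.l k).p.π ω)) (MvPolynomial.pderiv j (z.R.p k ω j))| :=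
      Finset.prod_le_prod (fun j _ => by positivity) fun j _ => (h j).1
    refine le_trans ?_ h2
    rw [← Real.rpow_sum_of_pos (by norm_num), ← Finset.sum_mul, Finset.sum_sub_distrib, Finset.sum_const,
      Finset.card_univ, Fintype.card_fin, nsmul_eq_mul]
    apply Real.rpow_le_rpow_of_exponent_le (by norm_num)
    apply mul_le_mul_of_nonneg_right _ hn.le
    have h3 : (M : ℝ) * (e / (M + 1)) ≤ e := by
      rw [mul_div_assoc', div_le_iff₀ hM]
      nlinarith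
    linarith
  have h2 : (2 : ℝ) ^ (2 * (∑ j, lam j - e) * (S.F k).n) = (2 ^ ((∑ j, lam j - e) * (S.F k).n)) ^ 2 := by
    rw [← Real.rpow_natCast, ← Real.rpow_mul (by norm_num)]
    congr 1
    push_cast
    ring
  rw [h2, ← sq_abs (jac (z.R.p k ω) (s.Q.v k ((z.Z.l k).p.π ω))).det]
  exact pow_le_pow_left₀ (by positivity) h1 2

/-- THE GRAM DETERMINANT of flag rows over a K-label, optimal total -/
theorem flg_gram [Finite ι] {R : Rsl S} (hf : Flg z lam) (hZ : KLb s R z.Z.c z.Z.l)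
    (ho : (M : ℝ) - ∑ j, lam j ≤ volKO s R z.Z.c) (e : ℝ) (he : 0 < e) :
    Typ (S := z.Z.l.sp) (fun k (ω : (z.Z.l k).T.Ω) => (1 + (jac (z.R.p k ω) (s.Q.v k ((z.Z.l k).p.π ω))).transpose *
        jac (z.R.p k ω) (s.Q.v k ((z.Z.l k).p.π ω))).det ≤ 2 ^ (2 * (∑ j, lam j + e) * (S.F k).n)) := by
  rw [Pool.Agent.Helper29.MX.volKO_eq] at ho
  exact gram_typ_det z.pz hZ.1 hZ.2 (∑ j, lam j) ho (fun d hd => flg_low hf d hd) e he

/-- optimal flags have optimal total -/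
theorem opt_total {R : Rsl S} (ho : ∀ j : Fin M, lam j = 1 - (volP s R z.Z.c (Nat.succ_le_of_lt j.2) -
    volP s R z.Z.c j.2.le)) : (M : ℝ) - ∑ j, lam j = volKO s R z.Z.c := by
  have h1 := optLam_sum ho M le_rfl
  rw [volP_self] at h1
  have h2 : ∑ i : Fin M, lam (Fin.castLE le_rfl i) = ∑ j, lam j := rfl
  rw [h2] at h1
  linarith

end

end Pool.Agent.Helper70.CPW
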