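import Pool.Agent.Helper70.CPW.Unz
import Pool.Agent.Helper70.CPW.Flr
import Pool.Agent.Helper49.KL.Rig

/-! NUMBERS OF A ROW ZOOM over a literal K-label, on all events of all extensions. -/

set_option autoImplicit false

namespace Pool.Agent.Helper70.CPW

open Finset Filter Topology Matrix Pool.Agent.Helper69.RK Pool.Agent.Helper31.EC Pool.Agent.Helper31.EC.Sp
open Pool.Agent.Helper40.EL Pool.Agent.Helper84.MT Pool.Agent.Helper89.LX Pool.Agent.Helper3.LF
open Pool.Agent.Helper87.NSL (cndR)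
open Pool.Agent.Helper81.CPY
open Pool.Agent.Helper7.GZ (ZU jac Rows)
open Pool.Agent.Helper7.RD (RW PZ volCO upz KLb_mono)
open Pool.Agent.Helper29.MX

noncomputable section

variable {S T : Sp} {M : ℕ} {E E' : ℕ → ℕ} {ι κ : Type} {s : MSys S M E ι} {R W : Rsl S}

/-- literal K-labels on events of extensions -/
theorem klb_im {c : ℝ} (h : KLb s R c (Lab.ofZ W)) (p : Pj T S) (A : ∀ k, (T.F k).Ω → Prop) (hA : 0 < ul (T.pr A)) :
    KLb (s.im p A hA) (R : Rsl (Sp.im p A)) c (Lab.ofZ (S := Sp.im p A) W) := by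
  refine ⟨?_, Pool.Agent.Helper49.KL.kz_im h.2⟩
  rw [Lab.ofZ_DMf]
  intro i
  have h1 := ple_im p A hA ((Lab.ofZ_DMf W).1 h.1 i)
  have h2 : (cndR s R c i).im p A = cndR (s.im p A hA) (R : Rsl (Sp.im p A)) c i := congrFun (cndR_im s R c p A hA) i
  rw [h2] at h1
  exact h1

/-- THE TOTAL NUMBER OF A ROW ZOOM, one law -/
theorem zoom_tot [Finite ι] {c u : ℝ} {h0 : 0 ≤ c} {hu : 0 < u} {h1 : c + u ≤ 1}
    (z : PZ (zuz W c u h0 hu h1) s.Q M) {t : MSys ((Lab.ofZ W).ovr u hu) M E' ι} (ht : t.Q = z.X)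
    (hw : WinR s W c hu t) (hK : KLb s R c (Lab.ofZ W)) {lam : ℝ}
    (hdet : ∀ e : ℝ, 0 < e → Typ (S := S) (fun k ω => 2 ^ (2 * (lam - e) * (S.F k).n) ≤
      (jac (z.R.p k ω) (s.Q.v k ω)).det ^ 2)) {b : ℝ} (hb0 : 0 ≤ b) (hb1 : b ≤ 1) :
    volKO s R (c + u * b) ≤ M - lam - u * (M - volKO t (rover (Lab.ofZ W) u hu R) b) := by
  refine le_of_forall_pos_le_add fun e he => ?_
  have hcb : c ≤ c + u * b := by
    have := mul_nonneg hu.le hb0
    linarith
  have hK' : KLb s R (c + u * b) (Lab.ofZ W) := KLb_mono (Eventually.of_forall fun _ => le_rfl) hcb hK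
  have hAB : ∀ i, ∃ j, PLe (cndR t (rover (Lab.ofZ W) u hu R) b j)
      (upz (zuz W c u h0 hu h1) (cndR s R (c + u * b) i)) := by
    intro i
    refine ⟨i, ?_⟩
    rcases i with _ | i
    · exact PLe.refl _
    · exact (hw b i hb0 hb1).1
  have h2 := z.volCO_le (A := cndR s R (c + u * b)) (B := cndR t (rover (Lab.ofZ W) u hu R) b) hK'.1 hAB
    (C := fun k => fc (R k)) hK'.2 (fun _ _ => lam - e) |lam - e| (Eventually.of_forall fun _ _ _ => le_rfl)
    (fun _ => 1) (S.Sub_const zero_le_one) (by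
      refine Typ.mono (S := S) (hdet e he) (Eventually.of_forall fun k ω _ h => ?_)
      rw [one_mul]
      exact h)
  have h5 : ul (fun k => ∑ ω, ((zuz W c u h0 hu h1).l k).T.μ ω * (lam - e)) = lam - e := by
    have h6 : (fun k => ∑ ω, ((zuz W c u h0 hu h1).l k).T.μ ω * (lam - e)) = fun _ => lam - e := by
      funext k
      rw [← Finset.sum_mul]
      have h7 : ∑ ω, ((zuz W c u h0 hu h1).l k).T.μ ω = 1 := ((zuz W c u h0 hu h1).l k).T.ms
      rw [h7, one_mul]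
    rw [h6, ul_const]
  rw [h5] at h2
  have h8 : volKO s R (c + u * b) ≤ M - (lam - e) - u * (M - volKO t (rover (Lab.ofZ W) u hu R) b) := by
    rw [volKO_eq, volKO_eq, ht]
    exact h2
  linarith

/-- THE TOTAL NUMBERS OF A ROW ZOOM on all events of all extensions -/
theorem zoom_num [Finite ι] {c u : ℝ} {h0 : 0 ≤ c} {hu : 0 < u} {h1 : c + u ≤ 1}
    (z : PZ (zuz W c u h0 hu h1) s.Q M) {t : MSys ((Lab.ofZ W).ovr u hu) M E' ι} (ht : t.Q = z.X)
    (hw : WinR s W c hu t) (hK : KLb s R c (Lab.ofZ W)) {lam : ℝ}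
    (hdet : ∀ e : ℝ, 0 < e → Typ (S := S) (fun k ω => 2 ^ (2 * (lam - e) * (S.F k).n) ≤
      (jac (z.R.p k ω) (s.Q.v k ω)).det ^ 2)) {b w : ℝ} (hb0 : 0 ≤ b) (hb1 : b ≤ 1)
    (hn : AllE (fun _ x R' => M - lam - u * w ≤ volKO x R' (c + u * b)) S s R) :
    AllE (fun _ x R' => M - w ≤ volKO x R' b) _ t (rover (Lab.ofZ W) u hu R) := by
  intro T p A hA
  have h2 := zoom_tot (s := s.im (puz p) (A : ∀ k, ((unz p).F k).Ω → Prop) hA) (R := R) (W := W)
    (pzI (puz p) (A : ∀ k, ((unz p).F k).Ω → Prop) hA z) (t := zim (puz p) (A : ∀ k, ((unz p).F k).Ω → Prop) hA t)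
    (by
      show xI (puz p) A t.Q = xI (puz p) A z.X
      rw [ht]) (fun b i hb0 hb1 => winI (puz p) A hA (hw b i hb0 hb1)) (klb_im hK (puz p) A hA) (lam := lam)
    (fun e he => typ_im (puz p) A hA (hdet e he)) hb0 hb1
  have h3 : M - lam - u * w ≤ volKO (s.im (puz p) (A : ∀ k, ((unz p).F k).Ω → Prop) hA) (R : Rsl (Sp.im (puz p) A))
    (c + u * b) := hn _ (puz p) A hA
  have h4 : u * (M - w) ≤ u * volKO (zim (puz p) (A : ∀ k, ((unz p).F k).Ω → Prop) hA t)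
      (rover (Lab.ofZ (S := Sp.im (puz p) A) W) u hu R) b := by
    linarith
  exact le_of_mul_le_mul_left h4 hu

end

end Pool.Agent.Helper70.CPW
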