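import Pool.Agent.Helper70.CPW.Evz
import Pool.Agent.Helper49.KL.Inv

/-! COPY AT THE WINDOWS `c`: the type-labels of the system with copies have the same volumes as the K-labels of the old
system, on all events of all extensions, if the copy of the row zoom over a literal K-label is stable. -/

set_option autoImplicit false

namespace Pool.Agent.Helper70.CPW

open Finset Filter Topology Matrix Pool.Agent.Helper69.RK Pool.Agent.Helper31.EC Pool.Agent.Helper31.EC.Sp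
open Pool.Agent.Helper40.EL Pool.Agent.Helper84.MT Pool.Agent.Helper89.LX Pool.Agent.Helper3.LF
open Pool.Agent.Helper87.NSL (cndR)
open Pool.Agent.Helper49.KL (LitP fR Rz ng_of_volCO volCO_ge_of_ng)
open Pool.Agent.Helper7.GZ (ZU Rows jac)
open Pool.Agent.Helper81.CPY Pool.Agent.Helper7.RD
open Pool.Agent.Helper29.MX

noncomputable section

variable {S T : Sp} {M : ℕ} {E E' : ℕ → ℕ} {ι κ : Type} {s : MSys S M E ι} {R : Rsl S}

/-- the conditions of the zoom are finer than the conditions of the system -/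
theorem WinR.cnd' {W : Rsl S} {c e : ℝ} {he : 0 < e} {t : MSys ((Lab.ofZ W).ovr e he) M E' ι} (h : WinR s W c he t)
    {b : ℝ} (h0 : 0 ≤ b) (h1 : b ≤ 1) (i : Option ι) :
    PLe ((Lab.ofZ W).up e he (cndR s (rbot S) (c + e * b) i)) (cndR t (rbot _) b i) := by
  rcases i with _ | i
  · refine PLe_of_le fun k => ?_
    show (frb (S.F k) (W k) e he).map ((FLab.triv (S.F k)).p.map (fc ⊥)) ≤ fc ⊥
    exact fc_mono bot_le
  · exact (h b i h0 h1).2

/-- INNER DIRECTION for a row zoom over a literal label, type-labels -/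
theorem low_of_zoom [Finite ι] {W : Rsl S} {c u : ℝ} {h0 : 0 ≤ c} {hu : 0 < u} {h1 : c + u ≤ 1}
    (z : PZ (zuz W c u h0 hu h1) s.Q M) {t : MSys ((Lab.ofZ W).ovr u hu) M E' ι} (ht : t.Q = z.X)
    (hw : WinR s W c hu t) (hst : (M : ℝ) ≤ volKO t (rbot _) 0) (lam : ℝ)
    (hdet : ∀ e : ℝ, 0 < e → Typ (S := S) (fun k ω => (1 + (jac (z.R.p k ω) (s.Q.v k ω)).transpose *
      jac (z.R.p k ω) (s.Q.v k ω)).det ≤ 2 ^ (2 * (lam + e) * (S.F k).n))) :
    M - lam ≤ volKO s (rbot S) c := by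
  refine le_of_forall_pos_le_add fun e he => ?_
  rw [volKO_eq] at hst ⊢
  have hBA : ∀ j, ∃ i, PLe (upz (zuz W c u h0 hu h1) (cndR s (rbot S) c i)) (cndR t (rbot _) 0 j) := by
    intro j
    have h2 := hw.cnd' le_rfl zero_le_one j
    rw [mul_zero, add_zero] at h2
    exact ⟨j, h2⟩
  have hLX : LitP (Rz (zuz W c u h0 hu h1) (rbot S)) z.X := by
    refine Eventually.of_forall fun k ω ω' _ _ _ h => ?_
    have h3 : ω = ω' := h
    rw [h3]
  have hNG := ng_of_volCO (C := LC.kz (upz (zuz W c u h0 hu h1) (fR (rbot S)))) (A := cndR t (rbot _) 0) (X := z.X) (by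
    rw [← ht]
    exact hst.trans (volCO_mono (fun i => ⟨i, PLe.refl _⟩) fun l _ => Pool.Agent.Helper29.MX.kz_bot l))
  have h4 := volCO_ge_of_ng z (R := rbot S) hLX hBA hNG (fun _ _ => lam + e) |lam + e|
    (Eventually.of_forall fun _ _ _ => le_rfl) (K := fun _ => 1) (S.Sub_const zero_le_one) (by
      refine Typ.mono (S := S) (hdet e he) (Eventually.of_forall fun k ω _ h => ?_)
      rw [one_mul]
      exact h)
  have h5 : ul (fun k => ∑ ω, ((zuz W c u h0 hu h1).l k).T.μ ω * (lam + e)) = lam + e := by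
    have h6 : (fun k => ∑ ω, ((zuz W c u h0 hu h1).l k).T.μ ω * (lam + e)) = fun _ => lam + e := by
      funext k
      rw [← Finset.sum_mul]
      have h7 : ∑ ω, ((zuz W c u h0 hu h1).l k).T.μ ω = 1 := ((zuz W c u h0 hu h1).l k).T.ms
      rw [h7, one_mul]
    rw [h6, ul_const]
  rw [h5] at h4
  have h8 : M - (lam + e) ≤ volCO (KZ (rbot S)) (cndR s (rbot S) c) s.Q := h4
  linarith

/-- COPY AT THE WINDOW `c`, lower bound on all events -/
theorem cpy_low [Finite ι] [Finite κ] (hC : Dtm s.Q (rsC R)) (l : κ → Leaf S s.Q E) {W : Rsl S}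
    (hW : LitC (rsC R) W) {c u : ℝ} {h0 : 0 ≤ c} {hu : 0 < u} {h1 : c + u ≤ 1} (z : PZ (zuz W c u h0 hu h1) s.Q M)
    {t : MSys ((Lab.ofZ W).ovr u hu) M E' ι} (ht : t.Q = z.X) (hw : WinR s W c hu t)
    (hC' : Dtm (S := S.chg W u hu) t.Q (rsC R)) (lt : κ → Leaf ((Lab.ofZ W).ovr u hu) t.Q E')
    (hl : ∀ (b : ℝ) (j : κ), 0 ≤ b → b ≤ 1 →
      PLe ((lt j).win b) ((Lab.ofZ W).up u hu ((l j).win (c + u * b))) ∧
      PLe ((Lab.ofZ W).up u hu ((l j).win (c + u * b))) ((lt j).win b))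
    (hst : Stb 0 (MSys.cpy (S := S.chg W u hu) t (rsC R) hC' lt) (rbot _)) (lam : ℝ)
    (hdet : ∀ e : ℝ, 0 < e → Typ (S := S) (fun k ω => (1 + (jac (z.R.p k ω) (s.Q.v k ω)).transpose *
      jac (z.R.p k ω) (s.Q.v k ω)).det ≤ 2 ^ (2 * (lam + e) * (S.F k).n))) :
    AllE (fun _ x R' => M - lam ≤ volKO x R' c) _ (s.cpy (rsC R) hC l) (rbot _) := by
  intro T p A hA
  obtain ⟨t', e1, e2, e3⟩ := exists_ev hC l hW z ht hw hC' lt hl hst p A hA
  refine low_of_zoom (s := (s.cpy (rsC R) hC l).im p A hA) (pzI p A hA (pzP (cpd (rsC R)).p1 (pbZ (rsC R)) z)) e1 e2 e3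
    lam fun e he => ?_
  exact typ_im p A hA (typ_pull (cpd (rsC R)).p1 (hdet e he))

/-- COPY AT THE WINDOW `c`: the type-labels of the system with copies have the volume of the K-labels of the old system,
on all events of all extensions -/
theorem cpy_eq [Finite ι] [Finite κ] (hC : Dtm s.Q (rsC R)) (l : κ → Leaf S s.Q E) {W : Rsl S}
    (hW : LitC (rsC R) W) {c u : ℝ} {h0 : 0 ≤ c} {hu : 0 < u} {h1 : c + u ≤ 1} (z : PZ (zuz W c u h0 hu h1) s.Q M)
    {t : MSys ((Lab.ofZ W).ovr u hu) M E' ι} (ht : t.Q = z.X) (hw : WinR s W c hu t)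
    (hC' : Dtm (S := S.chg W u hu) t.Q (rsC R)) (lt : κ → Leaf ((Lab.ofZ W).ovr u hu) t.Q E')
    (hl : ∀ (b : ℝ) (j : κ), 0 ≤ b → b ≤ 1 →
      PLe ((lt j).win b) ((Lab.ofZ W).up u hu ((l j).win (c + u * b))) ∧
      PLe ((Lab.ofZ W).up u hu ((l j).win (c + u * b))) ((lt j).win b))
    (hst : Stb 0 (MSys.cpy (S := S.chg W u hu) t (rsC R) hC' lt) (rbot _)) (lam : ℝ)
    (hdet : ∀ e : ℝ, 0 < e → Typ (S := S) (fun k ω => (1 + (jac (z.R.p k ω) (s.Q.v k ω)).transpose *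
      jac (z.R.p k ω) (s.Q.v k ω)).det ≤ 2 ^ (2 * (lam + e) * (S.F k).n)))
    (hlc : ∀ j, ∃ i, PLe ((s.lf i).win c) ((l j).win c)) (hup : volKO s R c ≤ M - lam) :
    AllE (fun _ x R' => volKO x R' c = M - lam) _ (s.cpy (rsC R) hC l) (rbot _) :=
  volKO_rig ((volKO_cpy_le hC l hlc).trans hup) (cpy_low hC l hW z ht hw hC' lt hl hst lam hdet)

end

end Pool.Agent.Helper70.CPW
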