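import Pool.Agent.Helper84.MT.Evt
import Pool.Agent.Helper3.KL.Near
import Pool.Agent.Helper7.RD.Kv

/-! FORMS ON EVENTS OF EXTENSIONS. A form of a space gives a form of every event `E` of every extension, over a label with
no more leaks; the exponents are additive over `E` and its complement. RIGIDITY: if the volumes of the optimal forms are
at least `w` on all events of all extensions, and at most `w` on the space, they are equal to `w` on all events. -/

set_option autoImplicit false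

namespace Pool.Agent.Helper70.CPW

open Finset Filter Topology Matrix Pool.Agent.Helper69.RK Pool.Agent.Helper31.EC Pool.Agent.Helper31.EC.Sp
open Pool.Agent.Helper40.EL Pool.Agent.Helper84.MT Pool.Agent.Helper89.LX Pool.Agent.Helper3.LF
open Pool.Agent.Helper59.EV
open Pool.Agent.Helper14.MC (gx vx vol_eq vx_UB adf_cap gexq gexq_bd gexq_nonneg oQ osp_n)
open Pool.Agent.Helper42.NS (osp_dl)
open Pool.Agent.Helper7.RD

noncomputable section

variable {ι κ : Type} {S T : Sp} {M D : ℕ}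

/-- restriction of a label with forms to an event of the space -/
def rsFD {F : FSp} (x : FD F ι) (E : F.Ω → Prop) : FD (F.rest E) ι where
  l := x.l.rst E
  g := x.g
  g' := x.g'
  meas := fun ω ω' a b c d => x.meas ω ω' (x.l.T.rest_supp _ ω a).1 (x.l.T.rest_supp _ ω' b).1 c d

/-- a label with forms, on an event of an extension -/
def evFD {F G : FSp} (p : FPj G F) (hn : G.n = F.n) (E : G.Ω → Prop) (x : FD F ι) : FD (FSp.im p E) ι :=
  dnFD (FSp.imp p E) hn (rsFD (upFD p hn x) E)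

theorem evFD_leak {F G : FSp} (p : FPj G F) (hn : G.n = F.n) (E : G.Ω → Prop) (x : FD F ι) (a : FL F) :
    G.pb E * (evFD p hn E x).l.leak (FSp.imap p E a) ≤ x.l.leak a + 1 := by
  have h1 : (evFD p hn E x).l.leak (FSp.imap p E a) ≤
      (rsFD (upFD p hn x) E).l.leak ((FSp.imp p E).map (FSp.imap p E a)) :=
    FLab.down_leak (FSp.imp p E) hn (rsFD (upFD p hn x) E).l (FSp.imap p E a)
  rw [FSp.imp_imap] at h1
  have h2 : G.pb E * (rsFD (upFD p hn x) E).l.leak (G.rmap E (p.map a)) ≤ (upFD p hn x).l.leak (p.map a) + 1 :=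
    FLab.rst_leak_le (upFD p hn x).l E (p.map a)
  have h3 : (upFD p hn x).l.leak (p.map a) ≤ x.l.leak a := FLab.up'_leak x.l p hn a
  have h4 := mul_le_mul_of_nonneg_left h1 (G.pb_nonneg E)
  linarith

/-- a sequence of labels with forms, on an event of an extension -/
def evS (p : Pj T S) (E : ∀ k, (T.F k).Ω → Prop) (x : ∀ k, FD (S.F k) ι) : ∀ k, FD ((Sp.im p E).F k) ι :=
  fun k => evFD (p.fp k) (p.hn k) (E k) (x k)

/-- leaks -/
theorem evS_nul (p : Pj T S) (E : ∀ k, (T.F k).Ω → Prop) (hE : 0 < ul (T.pr E)) {x : ∀ k, FD (S.F k) ι} {A : Part S}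
    (h : Nul S fun k => (x k).l.leak (A k)) : Nul (Sp.im p E) fun k => (evS p E x k).l.leak (A.im p E k) := by
  have h1 : Nul T fun k => (x k).l.leak (A k) := (Lab.nul_pj p).2 h
  have h2 : Nul T fun k => (evS p E x k).l.leak (A.im p E k) :=
    Nul.div_pr hE h1 (fun k => FLab.leak_nonneg _ _) fun k => evFD_leak (p.fp k) (p.hn k) (E k) (x k) (A k)
  exact (Lab.nul_pj p).1 h2

theorem evS_dmf (p : Pj T S) (E : ∀ k, (T.F k).Ω → Prop) (hE : 0 < ul (T.pr E)) {x : ∀ k, FD (S.F k) ι}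
    {A : κ → Part S} (h : Lab.DMf (fun k => (x k).l) A) :
    Lab.DMf (fun k => (evS p E x k).l) (fun i => (A i).im p E) := fun i => evS_nul p E hE (h i)

/-- probabilities of events of the label space of the restriction -/
theorem evFD_pb {F G : FSp} (p : FPj G F) (hn : G.n = F.n) (E : G.Ω → Prop) (x : FD F ι) :
    (upFD p hn x).l.T.pb (fun w => E ((upFD p hn x).l.p.π w)) = G.pb E := (push_restμ (upFD p hn x).l.p E).2

variable [Fintype ι] [DecidableEq ι] {Φ : Gau S ι}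

/-- the conditions on the forms -/
theorem evS_fm {x : ∀ k, FD (S.F k) ι} (h : Φ.Fm x) (p : Pj T S) (E : ∀ k, (T.F k).Ω → Prop)
    (hE : 0 < ul (T.pr E)) : (Φ.im p E).Fm (evS p E x) := by
  have h0 := Gau.Fm.up h p
  intro η hη
  set r := ul (T.pr E) with hr
  have hr1 : r ≤ 1 := ul_pr_le_one E
  have hη' : 0 < η * r / 2 := by positivity
  have hle : η * r / 2 ≤ η := by nlinarith
  filter_upwards [h0 _ hη', pr_half' hE] with k hk hp
  have hn0 := (T.F k).pos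
  have hn1 : (T.F k).n = (S.F k).n := p.hn k
  set y := upS p x k with hy
  have hpb : r / 2 ≤ y.l.T.pb (fun w => E k (y.l.p.π w)) := by
    rw [hy]
    exact hp.trans_eq (evFD_pb (p.fp k) (p.hn k) (E k) (x k)).symm
  have hthr : (2 : ℝ) ^ (η * r / 2 * (T.F k).n) ≤ 2 ^ (η * (S.F k).n) := by
    rw [hn1]
    exact Real.rpow_le_rpow_of_exponent_le (by norm_num) (mul_le_mul_of_nonneg_right hle (S.F k).pos.le)
  have key : ∀ X Y : y.l.T.Ω → Prop, (∀ ω, Y ω → X ω) → y.l.T.pb X ≤ η * r / 2 →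
      (y.l.T.rest (fun w => E k (y.l.p.π w))).pb Y ≤ η := by
    intro X Y hXY hX
    have h1 := pb_rest_le y.l.T (fun w => E k (y.l.p.π w)) Y (r / 2) (by positivity) hpb
    have h2 : y.l.T.pb Y ≤ y.l.T.pb X := y.l.T.pb_mono fun ω _ hω => hXY ω hω
    refine h1.trans ?_
    rw [div_le_iff₀ (by positivity)]
    nlinarith
  refine ⟨fun ω hω => ?_, ?_, ?_⟩
  · have h3 := hk.1 ω (y.l.T.rest_supp _ ω hω).1
    rw [Gau.pull_cp] at h3
    exact h3
  · exact key (fun ω => ¬ (Φ.pull p).φ k (y.l.p.π ω) (y.g ω) ≤ 2 ^ (η * r / 2 * (T.F k).n))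
      (fun ω => ¬ (Φ.pull p).φ k (y.l.p.π ω) (y.g ω) ≤ 2 ^ (η * (S.F k).n))
      (fun ω h1 h2 => h1 (le_trans h2 hthr)) hk.2.1
  · exact key (fun ω => ¬ (Φ.pull p).φ k (y.l.p.π ω) (y.g' ω) ≤ 2 ^ (η * r / 2 * (T.F k).n))
      (fun ω => ¬ (Φ.pull p).φ k (y.l.p.π ω) (y.g' ω) ≤ 2 ^ (η * (S.F k).n))
      (fun ω h1 h2 => h1 (le_trans h2 hthr)) hk.2.2

/-- ADMISSIBLE FORMS ON EVENTS OF EXTENSIONS -/
theorem evS_adf [Finite κ] {A : κ → Part S} {x : ∀ k, FD (S.F k) ι} (hx : Φ.Adf A x) (p : Pj T S)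
    (E : ∀ k, (T.F k).Ω → Prop) (hE : 0 < ul (T.pr E)) : (Φ.im p E).Adf (fun i => (A i).im p E) (evS p E x) :=
  Gau.Adf_iff.2 ⟨evS_dmf p E hE (Gau.Adf.dm Φ hx), evS_fm hx.fm p E hE⟩

/-! ### exponents -/

variable {Q : S.VV M} {x : ∀ k, FD (S.F k) (Mon M D)}

/-- the average exponent on an event, on the space of the pulled label -/
theorem evS_vx1 (Q : S.VV M) (x : ∀ k, FD (S.F k) (Mon M D)) (p : Pj T S) (E : ∀ k, (T.F k).Ω → Prop) (k : ℕ) :
    vx (Q.im p E) (evS p E x) k = ∑ w, ((upFD (p.fp k) (p.hn k) (x k)).l.T.rest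
      (fun w => E k ((upFD (p.fp k) (p.hn k) (x k)).l.p.π w))).μ w *
      gx Q k ((p.fp k).π ((upFD (p.fp k) (p.hn k) (x k)).l.p.π w)) ((upFD (p.fp k) (p.hn k) (x k)).g w) := rfl

theorem up_vx1 (Q : S.VV M) (x : ∀ k, FD (S.F k) (Mon M D)) (p : Pj T S) (k : ℕ) :
    ∑ w, (upFD (p.fp k) (p.hn k) (x k)).l.T.μ w *
      gx Q k ((p.fp k).π ((upFD (p.fp k) (p.hn k) (x k)).l.p.π w)) ((upFD (p.fp k) (p.hn k) (x k)).g w) = vx Q x k :=
  up_sum (p.fp k) (p.hn k) (x k) (fun _ ω A _ => gx Q k ω A) (fun ω A _ => gx Q k ω A) fun _ _ _ => rfl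

/-- the average exponent is additive over events of extensions -/
theorem evS_vx (Q : S.VV M) (x : ∀ k, FD (S.F k) (Mon M D)) (p : Pj T S) (E : ∀ k, (T.F k).Ω → Prop) (k : ℕ) :
    vx Q x k = (T.F k).pb (E k) * vx (Q.im p E) (evS p E x) k +
      (1 - (T.F k).pb (E k)) * vx (Q.im p fun k ω => ¬ E k ω) (evS p (fun k ω => ¬ E k ω) x) k := by
  rw [← up_vx1 Q x p k, evS_vx1, evS_vx1, ← evFD_pb (p.fp k) (p.hn k) (E k) (x k)]
  exact sum_rest (upFD (p.fp k) (p.hn k) (x k)).l.T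
    (fun w => E k ((upFD (p.fp k) (p.hn k) (x k)).l.p.π w))
    (fun w => gx Q k ((p.fp k).π ((upFD (p.fp k) (p.hn k) (x k)).l.p.π w)) ((upFD (p.fp k) (p.hn k) (x k)).g w))

/-- bounds of the exponents -/
theorem gx_bd {A : κ → Part S} (hx : (gaq Q D).Adf A x) : ∃ C : ℝ, ∀ᶠ k in UF, ∀ w, (x k).l.T.μ w ≠ 0 →
    0 ≤ gx Q k ((x k).l.p.π w) ((x k).g w) ∧ gx Q k ((x k).l.p.π w) ((x k).g w) ≤ C := by
  have hC0 : 0 ≤ (gaq Q D).C + 1 := by linarith [(gaq Q D).C0]
  have e1 : ∀ k (w : (x k).l.T.Ω), gexq (oQ (lb x) Q) (fun k (ω : (x k).l.T.Ω) => (x k).g ω) k w =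
      gx Q k ((x k).l.p.π w) ((x k).g w) := by
    intro k w
    unfold gexq gx
    rw [osp_dl, osp_n]
    rfl
  refine ⟨((gaq Q D).C + 1 + 3) * M, ?_⟩
  filter_upwards [gexq_nonneg (oQ (lb x) Q) _ _ (adf_cap hx), gexq_bd (oQ (lb x) Q) _ _ hC0 (adf_cap hx)]
    with k a b w hw
  have a1 := a w hw
  have b1 := b w hw
  rw [e1] at a1 b1
  exact ⟨a1, b1⟩

theorem sum_mul_bd {F : FSp} (f : F.Ω → ℝ) {C : ℝ} (h : ∀ w, F.μ w ≠ 0 → 0 ≤ f w ∧ f w ≤ C) :
    0 ≤ ∑ w, F.μ w * f w ∧ ∑ w, F.μ w * f w ≤ C := by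
  constructor
  · apply Finset.sum_nonneg
    intro w _
    by_cases h0 : F.μ w = 0
    · rw [h0, zero_mul]
    · exact mul_nonneg (F.nn w) (h w h0).1
  · have h1 : ∑ w, F.μ w * f w ≤ ∑ w, F.μ w * C := by
      apply Finset.sum_le_sum
      intro w _
      by_cases h0 : F.μ w = 0
      · rw [h0, zero_mul, zero_mul]
      · exact mul_le_mul_of_nonneg_left (h w h0).2 (F.nn w)
    rw [← Finset.sum_mul] at h1
    have h2 : ∑ w, F.μ w = 1 := F.ms
    rw [h2, one_mul] at h1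
    exact h1

/-- bounds of the exponents on events (of any probability) -/
theorem evS_bd {A : κ → Part S} (hx : (gaq Q D).Adf A x) (p : Pj T S) : ∃ C : ℝ, ∀ E : ∀ k, (T.F k).Ω → Prop,
    ∀ᶠ k in UF, 0 ≤ vx (Q.im p E) (evS p E x) k ∧ vx (Q.im p E) (evS p E x) k ≤ C := by
  obtain ⟨C, hC⟩ := gx_bd hx
  refine ⟨C, fun E => ?_⟩
  filter_upwards [hC] with k hk
  rw [evS_vx1]
  apply sum_mul_bd
  intro w hw
  have h1 := (upFD (p.fp k) (p.hn k) (x k)).l.T.rest_supp _ w hw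
  have h2 : ((x k).l.amx (p.fp k)).sp.μ w ≠ 0 := h1.1
  have h3 := ((x k).l.amx (p.fp k)).supp w h2
  have h4 : (x k).l.p.π w.1 = (p.fp k).π w.2 := h3.1
  have h5 := hk w.1 h3.2.1
  have h6 : ((p.fp k).π ((upFD (p.fp k) (p.hn k) (x k)).l.p.π w)) = (x k).l.p.π w.1 := h4.symm
  rw [h6]
  exact h5

/-- the average exponents on an event of positive probability -/
theorem evS_UB {A : κ → Part S} (hx : (gaq Q D).Adf A x) (p : Pj T S) (E : ∀ k, (T.F k).Ω → Prop) :
    UB (vx (Q.im p E) (evS p E x)) := by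
  obtain ⟨C, hC⟩ := evS_bd hx p
  exact UB_of_nonneg_le (C := C) ((hC E).mono fun _ h => h.1) ((hC E).mono fun _ h => h.2)

/-- THE VOLUME IS ADDITIVE over events of extensions -/
theorem evS_vol {A : κ → Part S} (hx : (gaq Q D).Adf A x) (p : Pj T S) (E : ∀ k, (T.F k).Ω → Prop) :
    vol Q D x = ul (T.pr E) * vol (Q.im p E) D (evS p E x) +
      (1 - ul (T.pr E)) * vol (Q.im p fun k ω => ¬ E k ω) D (evS p (fun k ω => ¬ E k ω) x) := by
  have tE : Tendsto (T.pr E) UF (𝓝 (ul (T.pr E))) := ul_tendsto (UB_pr E)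
  have u1 := ul_tendsto (evS_UB hx p E)
  have u2 := ul_tendsto (evS_UB hx p fun k ω => ¬ E k ω)
  have t := (tE.mul u1).add ((tE.const_sub 1).mul u2)
  rw [vol_eq, vol_eq, vol_eq]
  have e1 : vx Q x = fun k => T.pr E k * vx (Q.im p E) (evS p E x) k +
      (1 - T.pr E k) * vx (Q.im p fun k ω => ¬ E k ω) (evS p (fun k ω => ¬ E k ω) x) k :=
    funext fun k => evS_vx Q x p E k
  rw [e1, ul_eq t]
  ring

/-! ### rigidity -/

/-- RIGIDITY of volumes: a lower bound on all events and an upper bound on the space give an upper bound on every event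
of every extension -/
theorem evS_le [Finite κ] {A : κ → Part S} {w δ : ℝ} (hx : (gaq Q D).Adf A x) (hw : vol Q D x ≤ w + δ)
    (hlow : ∀ (T : Sp) (p : Pj T S) (E : ∀ k, (T.F k).Ω → Prop), 0 < ul (T.pr E) →
      ∀ y : ∀ k, FD ((Sp.im p E).F k) (Mon M D), (gaq (Q.im p E) D).Adf (fun i => (A i).im p E) y →
        w ≤ vol (Q.im p E) D y) (p : Pj T S) (E : ∀ k, (T.F k).Ω → Prop) (hE : 0 < ul (T.pr E)) :
    (gaq (Q.im p E) D).Adf (fun i => (A i).im p E) (evS p E x) ∧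
      vol (Q.im p E) D (evS p E x) ≤ w + δ / ul (T.pr E) := by
  have h0 := evS_adf hx p E hE
  rw [← gaq_im] at h0
  refine ⟨h0, ?_⟩
  have h1 := evS_vol hx p E
  have h2 : ul (T.pr E) ≤ 1 := ul_pr_le_one E
  have key : ul (T.pr E) * (vol (Q.im p E) D (evS p E x) - w) ≤ δ := by
    rcases h2.eq_or_lt with h3 | h3
    · rw [h3] at h1 ⊢
      rw [one_mul, sub_self, zero_mul, add_zero] at h1
      rw [← h1]
      linarith
    · have h4 : 0 < ul (T.pr fun k ω => ¬ E k ω) := by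
        rw [ul_not]
        linarith
      have h5 := evS_adf hx p (fun k ω => ¬ E k ω) h4
      rw [← gaq_im] at h5
      have h6 := hlow T p (fun k ω => ¬ E k ω) h4 _ h5
      have h7 := mul_le_mul_of_nonneg_left h6 (show 0 ≤ 1 - ul (T.pr E) by linarith)
      rw [mul_sub]
      nlinarith
  have h3 : vol (Q.im p E) D (evS p E x) - w ≤ δ / ul (T.pr E) := by
    rw [le_div_iff₀ hE, mul_comm]
    exact key
  linarith

/-- no label has a leak at the finest partition -/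
theorem leak_fbot {F : FSp} (l : FLab F) : l.leak (fc ⊥) = 0 := by
  have h1 : l.p.map (fc ⊥) = l.p.top := by
    rw [FPj.map_fc]
    unfold FPj.top
    congr 1
  unfold FLab.leak
  rw [h1, I_eq, sup_idem, sub_self]

/-- every label is an exact kernel from the finest partition -/
theorem kz_bot (l : Lab S) : (LC.kz fun k => (fc ⊥ : FL (S.F k))).ev l :=
  Eventually.of_forall fun k => leak_fbot (l k)

/-- RIGIDITY of the volumes in all degrees, all labels -/
theorem volCO_rig [Finite κ] {A : κ → Part S} {w : ℝ} (hup : volCO (LC.kz fun k => (fc ⊥ : FL (S.F k))) A Q ≤ w)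
    (hlow : ∀ (T : Sp) (p : Pj T S) (E : ∀ k, (T.F k).Ω → Prop), 0 < ul (T.pr E) →
      w ≤ volCO (S := Sp.im p E) (LC.kz fun k => (fc ⊥ : FL ((Sp.im p E).F k))) (fun i => (A i).im p E) (Q.im p E))
    (p : Pj T S) (E : ∀ k, (T.F k).Ω → Prop) (hE : 0 < ul (T.pr E)) :
    volCO (S := Sp.im p E) (LC.kz fun k => (fc ⊥ : FL ((Sp.im p E).F k))) (fun i => (A i).im p E) (Q.im p E) = w := by
  refine le_antisymm ?_ (hlow T p E hE)
  refine le_of_forall_pos_le_add fun δ hδ => ?_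
  have h1 : volCO (LC.kz fun k => (fc ⊥ : FL (S.F k))) A Q < w + δ * ul (T.pr E) := by
    have := mul_pos hδ hE
    linarith
  obtain ⟨D, hD⟩ := exists_lt_of_ciInf_lt h1
  obtain ⟨x, hx⟩ := (gaq Q D).exists_optfK (LC.kz fun k => (fc ⊥ : FL (S.F k))) A
  rw [volC_eq hx] at hD
  obtain ⟨a, b⟩ := evS_le hx.1.1 hD.le (fun T p E hE y hy =>
    ((hlow T p E hE).trans (volCO_le D)).trans (volC_le_of (S := Sp.im p E) ⟨hy, kz_bot _⟩)) p E hE
  have h2 := (volCO_le (S := Sp.im p E) D).trans (volC_le_of (S := Sp.im p E)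
    (C := LC.kz fun k => (fc ⊥ : FL ((Sp.im p E).F k))) ⟨a, kz_bot _⟩)
  refine h2.trans (b.trans (le_of_eq ?_))
  rw [mul_div_cancel_right₀ _ hE.ne']

end

end Pool.Agent.Helper70.CPW
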