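import Pool.Agent.Helper70.CPW.Dgt
import Pool.Agent.Helper7.RD.Wp
import Pool.Agent.Helper29.MX.St2

/-! THE DEFICIT OF A ROW ZOOM over a literal K-label, from the deficit of the box of the least carrier. -/

set_option autoImplicit false

namespace Pool.Agent.Helper70.CPW

open Finset Filter Topology Matrix MvPolynomial Pool.Agent.Helper69.RK Pool.Agent.Helper31.EC Pool.Agent.Helper31.EC.Sp
open Pool.Agent.Helper40.EL Pool.Agent.Helper84.MT Pool.Agent.Helper89.LX Pool.Agent.Helper3.LF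
open Pool.Agent.Helper95.LF Pool.Agent.Helper36.AM Pool.Agent.Helper7.GZ Pool.Agent.Helper26.BXD
open Pool.Agent.Helper7.RD (RW PZ volCO upz FD0 fdW)
open Pool.Agent.Helper87.NSL (cndR)
open Pool.Agent.Helper3.KL (Cls)
open Pool.Agent.Helper29.MX

noncomputable section

variable {S : Sp} {M M' : ℕ} {E : ℕ → ℕ} {ι : Type}

/-- the point of the zoom in a frame and the point of the box -/
theorem fd_cls {Q : S.VV M} {l : Lab S} {La : Fin M → ℝ} (F : FD0 Q l La) :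
    Cls (S := l.ovr F.e F.he) F.XV (F.f.X.chg l.V F.e F.he) := by
  obtain ⟨K, hK, h1⟩ := F.near
  refine ⟨K, ?_, ?_⟩
  · have h2 : l.sp.Sub K := (sp_Sub l).mpr hK
    exact chg_sub l.V F.e F.he h2
  · filter_upwards [h1] with k hk ω hω j
    have h2 : (l.ovr F.e F.he).dl 1 k = S.dl F.e k := by
      unfold Sp.dl
      rw [l.n_over F.e F.he k]
      congr 1
      ring
    have h3 := hk ω hω j
    rw [h2, abs_sub_comm]
    exact h3

variable {s : MSys S M E ι} {R X W : Rsl S}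

/-- NO GAIN over the box of a K-label with the exact volume -/
theorem ng_box [Finite ι] {l : Lab S} {La : Fin M → ℝ} (F : FD0 s.Q l La) (hl : KLb s R F.c l)
    (hn : M - ∑ j, La j ≤ volKO s R F.c) :
    NG (LC.kz (l.up F.e F.he fun k => fc (R k))) (F.f.X.chg l.V F.e F.he) (fun i => l.up F.e F.he (cndR s R F.c i)) := by
  have h1 := F.volCO_le (A := cndR s R F.c) (B := fun i => l.up F.e F.he (cndR s R F.c i)) hl.1
    (fun i => ⟨i, PLe.refl _⟩) (C := fun k => fc (R k)) hl.2 F.isX_XV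
  rw [← volKO_eq] at h1
  have h4 : (M : ℝ) ≤ volCO (LC.kz (l.up F.e F.he fun k => fc (R k))) (fun i => l.up F.e F.he (cndR s R F.c i))
      F.XV := by
    have h5 : F.e * (M - volCO (LC.kz (l.up F.e F.he fun k => fc (R k)))
        (fun i => l.up F.e F.he (cndR s R F.c i)) F.XV) ≤ 0 := by
      have h6 : volKO s R F.c ≤ M - ∑ j, La j - F.e * (M - volCO (LC.kz (l.up F.e F.he fun k => fc (R k)))
        (fun i => l.up F.e F.he (cndR s R F.c i)) F.XV) := h1
      linarith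
    have h7 := F.he
    by_contra h8
    push Not at h8
    have := mul_pos h7 (sub_pos.2 h8)
    linarith
  exact (NG.of_volCO h4).near (fd_cls F)

/-- THE CELLS of the point of a row zoom over a literal K-label are known to the cells of the box of the least carrier -/
theorem row_known [Finite ι] {c u : ℝ} {h0 : 0 ≤ c} {hu : 0 < u} {h1 : c + u ≤ 1}
    (z : PZ (zuz W c u h0 hu h1) s.Q M') (hWK : KLb s R c (Lab.ofZ W)) (hXK : KLb s R c (Lab.ofZ X))
    {w : Fin M → ℝ} (f : Frm s.Q (Lab.ofZ X) fun j => w j * c) (hw : ∀ j, 1 ≤ w j) {g : ℕ} (hwg : ∀ j, w j ≤ g)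
    (hwe : ∀ j, w j * c + u ≤ 1) (hn : M - (∑ j, w j) * c ≤ volKO s R c) {b : ℝ} (hb0 : 0 ≤ b) (hb1 : b ≤ 1) :
    PLe (S := (Lab.ofZ W).ovr u hu) (fun k => fc (Setoid.ker (z.X.cellv b k)))
      (fun k => fc (X k ⊓ Setoid.ker (f.X.cellv (u * b) k) : Setoid (S.F k).Ω)) := by
  have hκ := Pool.Agent.Helper7.RD.frm_degW f h0 hw hwg
  have hN := ng_box (s := s) (R := R) (fdW f h0 hu h1 hwe hw hwg) hXK (by
    rw [← Finset.sum_mul]
    exact hn)
  refine cells_known f z hκ ?_ hb0 hb1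
  exact rows_tameZ f z.R hκ hu.le (A := cndR s R c) (fun i => ⟨i, PLe.refl _⟩) hWK.1
    (kz_ovl (l := Lab.ofZ X) (e := u) (he := hu) hWK.2) hN

/-- entropies over a literal label -/
theorem H_ofZ {u : ℝ} (hu : 0 < u) (A : ∀ k, Setoid (S.F k).Ω) (k : ℕ) :
    H (fc (A k) : FL (((Lab.ofZ W).ovr u hu).F k)) = h (fc (A k) : FL (S.F k)) (fc (W k)) := by
  have h1 := (frb (S.F k) (W k) u hu).h_map (fc (A k)) ⊥
  rw [bot_sup_eq] at h1
  refine (h_bot _).symm.trans ?_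
  exact h1

/-- DEFICIT of a row zoom over a literal K-label -/
theorem row_dfc [Finite ι] {c u : ℝ} {h0 : 0 ≤ c} {hu : 0 < u} {h1 : c + u ≤ 1}
    (z : PZ (zuz W c u h0 hu h1) s.Q M') (hWK : KLb s R c (Lab.ofZ W)) (hXK : KLb s R c (Lab.ofZ X))
    {w : Fin M → ℝ} (f : Frm s.Q (Lab.ofZ X) fun j => w j * c) (hw : ∀ j, 1 ≤ w j) {g : ℕ} (hwg : ∀ j, w j ≤ g)
    (hwe : ∀ j, w j * c + u ≤ 1) (hn : M - (∑ j, w j) * c ≤ volKO s R c)
    (hXW : Nul S fun k => h (fc (X k)) (fc (W k))) {b d : ℝ} (hb0 : 0 ≤ b) (hb1 : b ≤ 1)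
    (hd : ul (fun k => h (fc (Setoid.ker (f.X.cellv (u * b) k)) : FL (Lab.ofZ X k).T) (Lab.ofZ X k).v / (S.F k).n) ≤
      u * d) : H (z.X.dg b) ≤ d := by
  have hk := row_known z hWK hXK f hw hwg hwe hn hb0 hb1
  have e1 := Pool.Agent.Helper8.CPY.H_dg_eq (S := (Lab.ofZ W).ovr u hu) z.X b
  have hU : UB (fun k => h (fc (Setoid.ker (f.X.cellv (u * b) k)) : FL (Lab.ofZ X k).T) (Lab.ofZ X k).v /
      (S.F k).n) :=
    Part.Bd.ub (S := (Lab.ofZ X).sp) (A := fun k => fc (Setoid.ker (f.X.cellv (u * b) k)))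
      (rpI_Bd ((f.X.bdd (u * b)).toInf)) (fun k => (Lab.ofZ X k).v)
  have hU2 : UB (fun k => H (fc (Setoid.ker (z.X.cellv b k)) : FL (((Lab.ofZ W).ovr u hu).F k)) /
      (((Lab.ofZ W).ovr u hu).F k).n) := by
    have h2 := Part.Bd.ub (S := (Lab.ofZ W).ovr u hu) (A := fun k => fc (Setoid.ker (z.X.cellv b k)))
      (rpI_Bd ((z.X.bdd b).toInf)) (fun k => ⊥)
    simp_rw [h_bot] at h2
    exact h2
  refine e1.trans_le (le_of_forall_pos_le_add fun ε hε => ?_)
  have t1 := (ul_tendsto hU).eventually (ge_mem_nhds (show ul (fun k => h (fc (Setoid.ker (f.X.cellv (u * b) k)) :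
    FL (Lab.ofZ X k).T) (Lab.ofZ X k).v / (S.F k).n) < u * d + u * (ε / 2) by
      have := mul_pos hu (half_pos hε)
      linarith))
  have t2 : ∀ᶠ k in UF, h (fc (Setoid.ker (z.X.cellv b k)) : FL (((Lab.ofZ W).ovr u hu).F k))
      (fc (X k ⊓ Setoid.ker (f.X.cellv (u * b) k) : Setoid (S.F k).Ω)) / (((Lab.ofZ W).ovr u hu).F k).n < ε / 4 :=
    Tendsto.eventually hk (gt_mem_nhds (by linarith))
  have t3 : ∀ᶠ k in UF, h (fc (X k)) (fc (W k)) / (S.F k).n < u * (ε / 4) :=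
    Tendsto.eventually hXW (gt_mem_nhds (by positivity))
  refine ul_le_const hU2 ?_
  filter_upwards [t1, t2, t3] with k a1 a2 a3
  have hn' : (((Lab.ofZ W).ovr u hu).F k).n = u * (S.F k).n := (Lab.ofZ W).n_over u hu k
  have hn0 := (S.F k).pos
  have b1 : H (fc (Setoid.ker (z.X.cellv b k)) : FL (((Lab.ofZ W).ovr u hu).F k)) ≤
      h (fc (Setoid.ker (z.X.cellv b k)) : FL (((Lab.ofZ W).ovr u hu).F k))
        (fc (X k ⊓ Setoid.ker (f.X.cellv (u * b) k) : Setoid (S.F k).Ω)) +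
      H (fc (X k ⊓ Setoid.ker (f.X.cellv (u * b) k) : Setoid (S.F k).Ω) : FL (((Lab.ofZ W).ovr u hu).F k)) := by
    rw [← h_bot, ← h_bot]
    exact h_triangle' _ _ _
  have b2 := H_ofZ (W := W) hu (fun k => (X k ⊓ Setoid.ker (f.X.cellv (u * b) k) : Setoid (S.F k).Ω)) k
  have b3 : h (fc (X k ⊓ Setoid.ker (f.X.cellv (u * b) k) : Setoid (S.F k).Ω) : FL (S.F k)) (fc (W k)) ≤
      h (fc (X k)) (fc (W k)) + h (fc (Setoid.ker (f.X.cellv (u * b) k)) : FL (S.F k)) (fc (X k)) := by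
    have h2 : (fc (X k ⊓ Setoid.ker (f.X.cellv (u * b) k) : Setoid (S.F k).Ω) : FL (S.F k)) =
      fc (X k) ⊔ fc (Setoid.ker (f.X.cellv (u * b) k)) := rfl
    rw [h2, h_chain]
    exact add_le_add le_rfl (h_anti le_sup_left)
  have b4 : h (fc (Setoid.ker (f.X.cellv (u * b) k)) : FL (S.F k)) (fc (X k)) / (S.F k).n ≤ u * d + u * (ε / 2) := a1
  rw [hn'] at a2 ⊢
  rw [div_lt_iff₀ (by positivity)] at a2
  rw [div_lt_iff₀ hn0] at a3
  rw [div_le_iff₀ hn0] at b4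
  rw [div_le_iff₀ (by positivity)]
  rw [b2] at b1
  exact b1.trans ((add_le_add a2.le (b3.trans (add_le_add a3.le b4))).trans (le_of_eq (by ring)))

end

end Pool.Agent.Helper70.CPW
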