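import Pool.Agent.Helper29.MX.Bas
import Pool.Agent.Helper81.CPY.Inv

/-! GERMS: volumes and properties on all events of all extensions depend only on the germ along the ultrafilter of the
sequence of finite spaces, points, resolutions and windows. (Two systems may live on spaces which differ at indices
outside of a set of the ultrafilter.) -/

set_option autoImplicit false

namespace Pool.Agent.Helper70.CPW

open Finset Filter Topology Matrix Pool.Agent.Helper69.RK Pool.Agent.Helper31.EC Pool.Agent.Helper31.EC.Sp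
open Pool.Agent.Helper40.EL Pool.Agent.Helper84.MT Pool.Agent.Helper89.LX Pool.Agent.Helper3.LF
open Pool.Agent.Helper87.NSL (cndR)
open Pool.Agent.Helper81.CPY Pool.Agent.Helper7.RD
open Pool.Agent.Helper29.MX

noncomputable section

/-! ### germs of points with conditions -/

/-- a finite space with a point, a class condition and conditions -/
structure GS (M : ℕ) (κ : Type) where
  F : FSp
  v : F.Ω → Fin M → ℝ
  B : FL F
  A : κ → FL F

/-- the slice at the index `k` -/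
def gsl {S : Sp} {M : ℕ} {κ : Type} (Q : S.VV M) (B : Part S) (A : κ → Part S) (k : ℕ) : GS M κ :=
  ⟨S.F k, Q.v k, B k, fun i => A i k⟩

namespace GS

variable {M : ℕ} {κ : Type}

/-- admissible forms -/
def adm (a : GS M κ) (D : ℕ) (η : ℝ) (x : FD a.F (Mon M D)) : Prop :=
  (∀ i, x.l.leak (a.A i) ≤ η * a.F.n) ∧
  (∀ ω, x.l.T.μ ω ≠ 0 → Cpd (2 ^ ((2 * (D : ℝ) + 1 + 1) * a.F.n)) (x.g ω) ∧
    Cpd (2 ^ ((2 * (D : ℝ) + 1 + 1) * a.F.n)) (x.g' ω)) ∧
  x.l.T.pb (fun ω => ¬ phi (2 ^ (-(1 * a.F.n))) (x.g ω) (a.v (x.l.p.π ω)) ≤ 2 ^ (η * a.F.n)) ≤ η ∧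
  x.l.T.pb (fun ω => ¬ phi (2 ^ (-(1 * a.F.n))) (x.g' ω) (a.v (x.l.p.π ω)) ≤ 2 ^ (η * a.F.n)) ≤ η

/-- the mean of the logarithmic volume -/
def vl (a : GS M κ) (D : ℕ) (x : FD a.F (Mon M D)) : ℝ := ∑ ω, x.l.T.μ ω *
  (Real.logb 2 (GQ (2 ^ (-(1 * a.F.n))) (x.g ω) (a.v (x.l.p.π ω))) / (2 * a.F.n))

/-- transport -/
def tr {a b : GS M κ} (h : a = b) {D : ℕ} (x : FD a.F (Mon M D)) : FD b.F (Mon M D) := h ▸ x

theorem tr_adm {a b : GS M κ} (h : a = b) {D : ℕ} {η : ℝ} {x : FD a.F (Mon M D)} (hx : a.adm D η x) :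
    b.adm D η (tr h x) := by
  cases h
  exact hx

theorem tr_kz {a b : GS M κ} (h : a = b) {D : ℕ} {x : FD a.F (Mon M D)} (hx : x.l.leak a.B = 0) :
    (tr h x).l.leak b.B = 0 := by
  cases h
  exact hx

theorem tr_vl {a b : GS M κ} (h : a = b) {D : ℕ} (x : FD a.F (Mon M D)) : b.vl D (tr h x) = a.vl D x := by
  cases h
  rfl

end GS

variable {S S' T : Sp} {M : ℕ} {κ : Type}

theorem admf_iff (Q : S.VV M) (B : Part S) (A : κ → Part S) (D : ℕ) (η : ℝ) (k : ℕ) (x : FD (S.F k) (Mon M D)) :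
    (gaq Q D).Admf A η k x ↔ (gsl Q B A k).adm D η x := Iff.rfl

theorem vol_gsl (Q : S.VV M) (B : Part S) (A : κ → Part S) (D : ℕ) (x : ∀ k, FD (S.F k) (Mon M D)) :
    vol Q D x = M - ul (fun k => (gsl Q B A k).vl D (x k)) := rfl

/-- transport of forms -/
theorem volC_germ_le {Q : S.VV M} {B : Part S} {A : κ → Part S} {Q' : S'.VV M} {B' : Part S'} {A' : κ → Part S'}
    (h : ∀ᶠ k in UF, gsl Q' B' A' k = gsl Q B A k) (D : ℕ) :
    volC (LC.kz B) A Q D ≤ volC (LC.kz B') A' Q' D := by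
  classical
  obtain ⟨x', hx'⟩ := (gaq Q' D).exists_optfK (LC.kz B') A'
  rw [volC_eq hx']
  set x : ∀ k, FD (S.F k) (Mon M D) := fun k => if h : gsl Q' B' A' k = gsl Q B A k then GS.tr h (x' k) else
    trivFD (S.F k) with hx
  have e : ∀ k (h : gsl Q' B' A' k = gsl Q B A k), x k = GS.tr h (x' k) := fun k h => dif_pos h
  have hA : (gaq Q D).Adf A x := by
    intro η hη
    filter_upwards [h, hx'.1.1 η hη] with k hk h1
    rw [admf_iff Q B A D η k, e k hk]
    exact GS.tr_adm hk h1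
  have hK : (LC.kz B).ev (fun k => (x k).l) := by
    filter_upwards [h, hx'.1.2] with k hk h1
    show (x k).l.leak (gsl Q B A k).B = 0
    rw [e k hk]
    exact GS.tr_kz hk h1
  refine (volC_le_of ⟨hA, hK⟩).trans (le_of_eq ?_)
  rw [vol_gsl Q B A, vol_gsl Q' B' A']
  congr 1
  apply ul_congr
  filter_upwards [h] with k hk
  rw [e k hk]
  exact GS.tr_vl hk (x' k)

theorem volCO_germ {Q : S.VV M} {B : Part S} {A : κ → Part S} {Q' : S'.VV M} {B' : Part S'} {A' : κ → Part S'}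
    (h : ∀ᶠ k in UF, gsl Q' B' A' k = gsl Q B A k) : volCO (LC.kz B) A Q = volCO (LC.kz B') A' Q' := by
  unfold volCO
  refine iInf_congr fun D => le_antisymm (volC_germ_le h D) (volC_germ_le ?_ D)
  filter_upwards [h] with k hk using hk.symm

/-! ### germs of systems -/

/-- a finite space with a point, a resolution and windows -/
structure GSys (M : ℕ) (ι : Type) where
  F : FSp
  v : F.Ω → Fin M → ℝ
  R : Setoid F.Ω
  w : ι → ℝ → FL F

variable {E E' : ℕ → ℕ} {ι : Type}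

/-- the slice at the index `k` -/
def gsys (s : MSys S M E ι) (R : Rsl S) (k : ℕ) : GSys M ι := ⟨S.F k, s.Q.v k, R k, fun i c => (s.lf i).win c k⟩

/-- a finite extension with an event -/
structure GEx (F₀ : FSp) where
  F : FSp
  f : FPj F F₀
  hn : F.n = F₀.n
  A : F.Ω → Prop

namespace GSys

/-- the slice on an event of an extension -/
def im (a : GSys M ι) (e : GEx a.F) : GSys M ι := ⟨FSp.im e.f e.A, a.v, a.R, fun i c => FSp.imap e.f e.A (a.w i c)⟩

/-- transport -/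
def tr {a b : GSys M ι} (h : a = b) (e : GEx a.F) : GEx b.F := h ▸ e

theorem tr_im {a b : GSys M ι} (h : a = b) (e : GEx a.F) : b.im (tr h e) = a.im e := by
  cases h
  rfl

theorem tr_pb {a b : GSys M ι} (h : a = b) (e : GEx a.F) : (tr h e).F.pb (tr h e).A = e.F.pb e.A := by
  cases h
  rfl

/-- the trivial extension -/
def tv (F : FSp) : GEx F := ⟨F, ⟨fun ω => ω, by
  funext ω
  classical
  unfold push
  rw [Finset.sum_eq_single ω]
  · simp
  · intro b _ hb
    rw [if_neg hb]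
  · intro h
    exact absurd (Finset.mem_univ ω) h, fun _ _ _ _ => Iff.rfl⟩, rfl, fun _ => True⟩

/-- the slice of the volume -/
def gsl (a : GSys M ι) (c : ℝ) : GS M (Option ι) := ⟨a.F, a.v, fc a.R, fun
  | none => fc a.R
  | some i => a.w i c⟩

/-- the slice of the volume of a prefix -/
def gslP (a : GSys M ι) (c : ℝ) {j : ℕ} (hj : j ≤ M) : GS j (Option ι) := ⟨a.F, fun ω i => a.v ω (Fin.castLE hj i),
  fc a.R, fun
  | none => fc a.R
  | some i => a.w i c⟩

end GSys

theorem gsys_im (s : MSys S M E ι) (R : Rsl S) (p : Pj T S) (A : ∀ k, (T.F k).Ω → Prop) (hA : 0 < ul (T.pr A))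
    (k : ℕ) : gsys (s.im p A hA) R k = (gsys s R k).im ⟨T.F k, p.fp k, p.hn k, A k⟩ := rfl

/-- the same germ -/
def Grm (s : MSys S M E ι) (R : Rsl S) (s' : MSys S' M E' ι) (R' : Rsl S') : Prop :=
  ∀ᶠ k in UF, gsys s R k = gsys s' R' k

theorem Grm.symm {s : MSys S M E ι} {R : Rsl S} {s' : MSys S' M E' ι} {R' : Rsl S'} (h : Grm s R s' R') :
    Grm s' R' s R := by
  filter_upwards [h] with k hk using hk.symm

/-- GERM INVARIANT properties -/
def GInv (P : ∀ S : Sp, MSys S M E ι → Rsl S → Prop) : Prop :=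
  ∀ (S S' : Sp) (s : MSys S M E ι) (R : Rsl S) (s' : MSys S' M E ι) (R' : Rsl S'), Grm s R s' R' → P S s R → P S' s' R'

/-- PROPERTIES ON ALL EVENTS OF ALL EXTENSIONS are germ invariant -/
theorem AllE_germ {P : ∀ S : Sp, MSys S M E ι → Rsl S → Prop} (hP : GInv P) : GInv (AllE P) := by
  classical
  intro S S' s R s' R' h hs T p A hA
  set d : ∀ k, GEx (gsys s R k).F := fun k => if h : gsys s' R' k = gsys s R k then
    GSys.tr h ⟨T.F k, p.fp k, p.hn k, A k⟩ else GSys.tv (gsys s R k).F with hd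
  have e : ∀ k (h : gsys s' R' k = gsys s R k), d k = GSys.tr h ⟨T.F k, p.fp k, p.hn k, A k⟩ := fun k h => dif_pos h
  set T₁ : Sp := ⟨fun k => (d k).F, by
    refine Tendsto.congr (fun k => ?_) S.lim
    exact (d k).hn.symm⟩ with hT₁
  set p₁ : Pj T₁ S := ⟨fun k => (d k).f.π, fun k => (d k).f.law, fun k => (d k).f.hZ, fun k => (d k).hn⟩ with hp₁
  set A₁ : ∀ k, (T₁.F k).Ω → Prop := fun k => (d k).A with hA₁
  have h1 : 0 < ul (T₁.pr A₁) := by
    have h2 : ul (T₁.pr A₁) = ul (T.pr A) := by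
      apply ul_congr
      filter_upwards [h] with k hk
      show (d k).F.pb (d k).A = (T.F k).pb (A k)
      rw [e k hk.symm]
      exact GSys.tr_pb hk.symm _
    rw [h2]
    exact hA
  refine hP (Sp.im p₁ A₁) (Sp.im p A) (s.im p₁ A₁ h1) R (s'.im p A hA) R' ?_ (hs T₁ p₁ A₁ h1)
  filter_upwards [h] with k hk
  rw [gsys_im, gsys_im]
  show (gsys s R k).im (d k) = _
  rw [e k hk.symm]
  exact GSys.tr_im hk.symm _

/-! ### volumes -/

theorem gsl_gsys (s : MSys S M E ι) (R : Rsl S) (c : ℝ) (k : ℕ) :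
    gsl s.Q (fun k => fc (R k)) (cndR s R c) k = (gsys s R k).gsl c := by
  unfold gsl GSys.gsl
  have h1 : (fun i => cndR s R c i k) = (fun | none => fc (R k) | some i => (s.lf i).win c k : Option ι → FL (S.F k)) :=
    funext fun i => by cases i <;> rfl
  rw [h1]
  rfl

theorem gslP_gsys (s : MSys S M E ι) (R : Rsl S) (c : ℝ) {j : ℕ} (hj : j ≤ M) (k : ℕ) :
    gsl (pfx s.Q hj) (fun k => fc (R k)) (cndR s R c) k = (gsys s R k).gslP c hj := by
  unfold gsl GSys.gslP
  have h1 : (fun i => cndR s R c i k) = (fun | none => fc (R k) | some i => (s.lf i).win c k : Option ι → FL (S.F k)) :=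
    funext fun i => by cases i <;> rfl
  rw [h1]
  rfl

theorem volKO_germ {s : MSys S M E ι} {R : Rsl S} {s' : MSys S' M E' ι} {R' : Rsl S'} (h : Grm s R s' R') (c : ℝ) :
    volKO s R c = volKO s' R' c := by
  rw [Pool.Agent.Helper29.MX.volKO_eq, Pool.Agent.Helper29.MX.volKO_eq]
  apply volCO_germ
  filter_upwards [h] with k hk
  rw [gsl_gsys, gsl_gsys, hk]

theorem volP_germ {s : MSys S M E ι} {R : Rsl S} {s' : MSys S' M E' ι} {R' : Rsl S'} (h : Grm s R s' R') (c : ℝ)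
    {j : ℕ} (hj : j ≤ M) : volP s R c hj = volP s' R' c hj := by
  unfold volP
  apply volCO_germ
  filter_upwards [h] with k hk
  rw [gslP_gsys, gslP_gsys, hk]

/-- STABILITY depends only on the germ -/
theorem Stb_germ {ε : ℝ} {s : MSys S M E ι} {R : Rsl S} {s' : MSys S' M E ι} {R' : Rsl S'} (h : Grm s R s' R')
    (hs : Stb ε s R) : Stb ε s' R' :=
  AllE_germ (P := fun _ t R' => (M : ℝ) - ε ≤ volKO t R' 0) (fun S S' s R s' R' h hs => by
    show (M : ℝ) - ε ≤ volKO s' R' 0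
    rw [← volKO_germ h]
    exact hs) S S' s R s' R' h hs

/-! ### copies -/

/-- the copy of a finite space -/
def cpF (F : FSp) (r : Setoid F.Ω) : FAm F F where
  α := Quotient r × Quotient F.Z
  f := fun ω => (Quotient.mk r ω, Quotient.mk F.Z ω)
  g := fun ω => (Quotient.mk r ω, Quotient.mk F.Z ω)
  law := fun _ => rfl
  Zr := Setoid.ker Prod.snd
  hZ1 := fun _ _ _ _ => (Quotient.eq (r := F.Z)).symm
  hZ2 := fun _ _ _ _ => (Quotient.eq (r := F.Z)).symm

/-- the slice of a copy -/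
def gcp (a : GSys M ι) {κ : Type} (u : κ → ℝ → FL a.F) : GSys M (ι ⊕ κ) :=
  ⟨(cpF a.F a.R).sp, fun w => a.v w.1, ⊥, Sum.elim (fun i c => (cpF a.F a.R).p1.map (a.w i c))
    (fun j c => (cpF a.F a.R).p2.map (u j c))⟩

theorem gsys_cpy (s : MSys S M E ι) (R : Rsl S) (hC : Dtm s.Q (rsC R)) (l : κ → Leaf S s.Q E) (k : ℕ) :
    gsys (s.cpy (rsC R) hC l) (rbot _) k = gcp (gsys s R k) (fun j c => (l j).win c k) := by
  have h1 : (fun i c => ((s.cpy (rsC R) hC l).lf i).win c k) =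
      Sum.elim (fun i c => ((cpd (rsC R)).p1.fp k).map ((s.lf i).win c k))
        (fun j c => ((cpd (rsC R)).p2.fp k).map ((l j).win c k)) := by
    funext i c
    rcases i with i | j
    · exact congrFun (win_pull (cpd (rsC R)).p1 (s.lf i) c) k
    · exact congrFun ((l j).cpy_win (rsC R) hC c) k
  unfold gsys
  rw [h1]
  rfl

/-- copies for resolutions with the same germ -/
theorem cpy_germ (s : MSys S M E ι) {R R₂ : Rsl S} (hC : Dtm s.Q (rsC R)) (hC₂ : Dtm s.Q (rsC R₂))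
    (l : κ → Leaf S s.Q E) (h : ∀ᶠ k in UF, R k = R₂ k) :
    Grm (s.cpy (rsC R) hC l) (rbot _) (s.cpy (rsC R₂) hC₂ l) (rbot _) := by
  filter_upwards [h] with k hk
  rw [gsys_cpy, gsys_cpy]
  have h1 : gsys s R k = ⟨S.F k, s.Q.v k, R k, fun i c => (s.lf i).win c k⟩ := rfl
  have h2 : gsys s R₂ k = ⟨S.F k, s.Q.v k, R₂ k, fun i c => (s.lf i).win c k⟩ := rfl
  have h3 : ∀ r r' : Setoid (S.F k).Ω, r = r' →
      gcp (⟨S.F k, s.Q.v k, r, fun i c => (s.lf i).win c k⟩ : GSys M ι) (fun j c => (l j).win c k) =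
      gcp (⟨S.F k, s.Q.v k, r', fun i c => (s.lf i).win c k⟩ : GSys M ι) (fun j c => (l j).win c k) := by
    intro r r' h
    rw [h]
  exact h3 _ _ hk

end

end Pool.Agent.Helper70.CPW
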