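import Pool.Agent.Helper70.CPW.Dfz
import Pool.Agent.Helper70.CPW.Ger
import Pool.Agent.Helper7.RD.Pf
import Pool.Agent.Helper52.MW.Ime
import Pool.Agent.Helper48.NS.Val
import Pool.Agent.Helper94.SEL.St

/-! THE FLAG ZOOM over the least carrier: rows of a frame as a deep zoom, optimal exponents, the zoom of `Okc.zoom`. -/

set_option autoImplicit false

namespace Pool.Agent.Helper70.CPW

open Finset Filter Topology Matrix Pool.Agent.Helper69.RK Pool.Agent.Helper31.EC Pool.Agent.Helper31.EC.Sp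
open Pool.Agent.Helper40.EL Pool.Agent.Helper84.MT Pool.Agent.Helper89.LX Pool.Agent.Helper3.LF
open Pool.Agent.Helper95.LF Pool.Agent.Helper36.AM Pool.Agent.Helper7.GZ
open Pool.Agent.Helper7.RD (RW PZ volCO upz FD0 fdW)
open Pool.Agent.Helper87.NSL (cndR KnS)
open Pool.Agent.Helper81.CPY
open Pool.Agent.Helper52.MW (AllE_self)
open Pool.Agent.Helper29.MX

noncomputable section

variable {S : Sp} {M g r : ℕ} {E E' : ℕ → ℕ} {ι ι' : Type}

/-- the deep zoom in the rows of a frame -/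
def rwF {s : MSys S M E ι} {l : Lab S} {La : Fin M → ℝ} (F : FD0 s.Q l La) (hc : 0 < F.c)
    (dm : ∀ i, Nul S (fun k => (l k).leak ((s.lf i).win F.c k))) (κ : ℕ) (hκ1 : 1 ≤ κ) (he : ∀ i, (s.lf i).e ≤ κ)
    (hκ : 1 ≤ F.c * (κ + 1)) : RW s M where
  Z := F.zu
  hc := hc
  dm := dm
  D := (F.κ₀ + 1) ^ M
  Λ := 1 - F.e
  R := F.rows
  X := F.XV
  hX := F.isX_XV
  κ := κ
  hκ1 := hκ1
  he := he
  hκ := by
    show 1 - F.e + F.e ≤ F.c * (κ + 1)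
    linarith

theorem rwF_flg {s : MSys S M E ι} {l : Lab S} {La : Fin M → ℝ} (F : FD0 s.Q l La) (hc : 0 < F.c)
    (dm : ∀ i, Nul S (fun k => (l k).leak ((s.lf i).win F.c k))) (κ : ℕ) (hκ1 : 1 ≤ κ) (he : ∀ i, (s.lf i).e ≤ κ)
    (hκ : 1 ≤ F.c * (κ + 1)) : Flg (rwF F hc dm κ hκ1 he hκ) La where
  tri := F.tri F.XV F.isX_XV
  ex := fun e he => by
    refine (Typ_true (S := l.sp)).mono (Eventually.of_forall fun k ω _ _ j => ?_)
    have h1 : MvPolynomial.eval (s.Q.v k ((l k).p.π ω)) (MvPolynomial.pderiv j (F.rows.p k ω j)) =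
      2 ^ (La j * (S.F k).n) := F.pd F.XV F.isX_XV k ω _ j
    have hn := (S.F k).pos
    show 2 ^ ((La j - e) * (S.F k).n) ≤ |MvPolynomial.eval (s.Q.v k ((l k).p.π ω))
        (MvPolynomial.pderiv j (F.rows.p k ω j))| ∧ |MvPolynomial.eval (s.Q.v k ((l k).p.π ω))
        (MvPolynomial.pderiv j (F.rows.p k ω j))| ≤ 2 ^ ((La j + e) * (S.F k).n)
    rw [h1, abs_of_pos (by positivity)]
    constructor
    · exact Real.rpow_le_rpow_of_exponent_le (by norm_num) (by nlinarith)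
    · exact Real.rpow_le_rpow_of_exponent_le (by norm_num) (by nlinarith)

theorem wsm_succ {N : ℕ} (w : Fin N → ℝ) (j : Fin N) : wsm w (j + 1) = wsm w j + w j := by
  unfold wsm
  have h1 : ∀ i : Fin N, (if (i : ℕ) < (j : ℕ) + 1 then w i else 0) = (if (i : ℕ) < j then w i else 0) +
      (if i = j then w i else 0) := by
    intro i
    rcases lt_trichotomy (i : ℕ) j with h | h | h
    · rw [if_pos (by omega), if_pos h, if_neg (fun e => by rw [e] at h; omega), add_zero]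
    · have e : i = j := Fin.ext h
      rw [if_pos (by omega), if_neg (by omega), if_pos e, zero_add]
    · rw [if_neg (by omega), if_neg (by omega), if_neg (fun e => by rw [e] at h; omega), add_zero]
  rw [Finset.sum_congr rfl fun i _ => h1 i, Finset.sum_add_distrib, Finset.sum_ite_eq' univ j w, if_pos (mem_univ _)]

theorem wsm_all {N : ℕ} (w : Fin N → ℝ) : wsm w N = ∑ i, w i := by
  unfold wsm
  exact Finset.sum_congr rfl fun i _ => if_pos i.2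

theorem wsm_cast {N : ℕ} (w : Fin N → ℝ) {j : ℕ} (hj : j ≤ N) : ∑ i : Fin j, w (Fin.castLE hj i) = wsm w j := by
  induction j with
  | zero =>
    unfold wsm
    simp
  | succ j ih =>
    rw [Fin.sum_univ_castSucc]
    have h1 : ∑ i : Fin j, w (Fin.castLE hj i.castSucc) = ∑ i : Fin j, w (Fin.castLE (Nat.le_of_succ_le hj) i) := rfl
    rw [h1, ih (Nat.le_of_succ_le hj)]
    exact (wsm_succ w ⟨j, hj⟩).symm

/-- exact numbers give optimal exponents -/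
theorem num_opt {s : MSys S M E ι} {R : Rsl S} {w : Fin M → ℝ} (hn : Num w s R) {c : ℝ} (hc : 0 ≤ c)
    (hw : ∀ i, w i * c < 1) (j : Fin M) :
    w j * c = 1 - (volP s R c (Nat.succ_le_of_lt j.2) - volP s R c j.2.le) := by
  rw [hn c hc hw _ _, hn c hc hw _ _]
  have h1 : wsm w (Nat.succ j) = wsm w j + w j := wsm_succ w j
  rw [h1]
  push_cast
  ring

/-- exact total -/
theorem num_tot {s : MSys S M E ι} {R : Rsl S} {w : Fin M → ℝ} (hn : Num w s R) {c : ℝ} (hc : 0 ≤ c)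
    (hw : ∀ i, w i * c < 1) : volKO s R c = M - (∑ i, w i) * c := by
  have h1 := hn c hc hw M le_rfl
  rw [Pool.Agent.Helper7.RD.volP_self, wsm_all] at h1
  exact h1

/-- THE DATA OF THE FLAG ZOOM over a literal label -/
structure FZ {s : MSys S M E ι} (R W : Rsl S) (c u : ℝ) (h0 : 0 ≤ c) (hu : 0 < u) (h1 : c + u ≤ 1)
    (lam : Fin M → ℝ) (z : PZ (zuz W c u h0 hu h1) s.Q M) (t : MSys ((Lab.ofZ W).ovr u hu) M E' ι) : Prop where
  tQ : t.Q = z.X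
  win : WinR s W c hu t
  kl : KLb s R c (Lab.ofZ W)
  tri : z.Tri
  ex : ∀ e : ℝ, 0 < e → Typ (S := S) (fun k (ω : (S.F k).Ω) => ∀ j,
    2 ^ ((lam j - e) * (S.F k).n) ≤ |MvPolynomial.eval (s.Q.v k ω) (MvPolynomial.pderiv j (z.R.p k ω j))|)
  low : ∀ e : ℝ, 0 < e → Typ (S := S) (fun k ω => 2 ^ (2 * ((∑ j, lam j) - e) * (S.F k).n) ≤
    (jac (z.R.p k ω) (s.Q.v k ω)).det ^ 2)
  gram : ∀ e : ℝ, 0 < e → Typ (S := S) (fun k ω => (1 + (jac (z.R.p k ω) (s.Q.v k ω)).transpose *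
      jac (z.R.p k ω) (s.Q.v k ω)).det ≤ 2 ^ (2 * ((∑ j, lam j) + e) * (S.F k).n))

/-- unit directions of flag zooms (helper55), as a hypothesis -/
def InvH (s : MSys S M E ι) (R : Rsl S) (v : ℕ) : Prop := ∀ (z : RW s M) (lam : Fin M → ℝ), Flg z lam →
  (∀ j : Fin M, lam j = 1 - (volP s R z.Z.c (Nat.succ_le_of_lt j.2) - volP s R z.Z.c j.2.le)) →
    KLb s R z.Z.c z.Z.l → Inv v z.sys

/-- a deep zoom over a literal label -/
def mkz {s : MSys S M E ι} {W : Rsl S} {c u : ℝ} {h0 : 0 ≤ c} {hu : 0 < u} {h1 : c + u ≤ 1}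
    (z : PZ (zuz W c u h0 hu h1) s.Q M) (hc : 0 < c)
    (dm : ∀ i, Nul S (fun k => (Lab.ofZ W k).leak ((s.lf i).win c k))) (κ : ℕ) (hκ1 : 1 ≤ κ)
    (he : ∀ i, (s.lf i).e ≤ κ) (hκ : z.Λ + u ≤ c * (κ + 1)) : RW s M where
  Z := zuz W c u h0 hu h1
  hc := hc
  dm := dm
  D := z.D
  Λ := z.Λ
  R := z.R
  X := z.X
  hX := z.hX
  κ := κ
  hκ1 := hκ1
  he := he
  hκ := hκ

/-- the system of a deep zoom over a literal label -/
def mkt {s : MSys S M E ι} {W : Rsl S} {c u : ℝ} {h0 : 0 ≤ c} {hu : 0 < u} {h1 : c + u ≤ 1}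
    (z : PZ (zuz W c u h0 hu h1) s.Q M) (hc : 0 < c)
    (dm : ∀ i, Nul S (fun k => (Lab.ofZ W k).leak ((s.lf i).win c k))) (κ : ℕ) (hκ1 : 1 ≤ κ)
    (he : ∀ i, (s.lf i).e ≤ κ) (hκ : z.Λ + u ≤ c * (κ + 1)) : MSys ((Lab.ofZ W).ovr u hu) M (lin κ) ι :=
  (mkz z hc dm κ hκ1 he hκ).sys

theorem mkt_fz [Finite ι] {s : MSys S M E ι} {R W : Rsl S} {c u : ℝ} {h0 : 0 ≤ c} {hu : 0 < u} {h1 : c + u ≤ 1}
    (z : PZ (zuz W c u h0 hu h1) s.Q M) (hc : 0 < c)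
    (dm : ∀ i, Nul S (fun k => (Lab.ofZ W k).leak ((s.lf i).win c k))) (κ : ℕ) (hκ1 : 1 ≤ κ)
    (he : ∀ i, (s.lf i).e ≤ κ) (hκ : z.Λ + u ≤ c * (κ + 1)) {lam : Fin M → ℝ}
    (hk : KLb s R c (Lab.ofZ W)) (hf : Flg (mkz z hc dm κ hκ1 he hκ) lam)
    (ho : ∀ j : Fin M, lam j = 1 - (volP s R c (Nat.succ_le_of_lt j.2) - volP s R c j.2.le)) :
    FZ R W c u h0 hu h1 lam z (mkt z hc dm κ hκ1 he hκ) where
  tQ := rfl
  win := fun b i hb0 _ => ⟨(mkz z hc dm κ hκ1 he hκ).win_le i hb0, (mkz z hc dm κ hκ1 he hκ).win_ge i b⟩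
  kl := hk
  tri := hf.tri
  ex := fun e he' => (hf.ex e he').mono (Eventually.of_forall fun _ _ _ h j => (h j).1)
  low := fun e he' => flg_low hf e he'
  gram := fun e he' => flg_gram (R := R) hf hk (opt_total (z := mkz z hc dm κ hκ1 he hκ) (R := R) ho).le e he'

/-- a flag zoom over a literal label, unpacked -/
theorem unpack [Finite ι] {s : MSys S M E ι} {R W : Rsl S} {c u : ℝ} (h0 : 0 ≤ c) (hu : 0 < u) (h1 : c + u ≤ 1)
    {lam : Fin M → ℝ} (z : RW s M) (hl : z.Z.l = Lab.ofZ W) (hzc : z.Z.c = c) (hzu : z.Z.u = u)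
    (hk : KLb s R c z.Z.l) (hf : Flg z lam)
    (ho : ∀ j : Fin M, lam j = 1 - (volP s R c (Nat.succ_le_of_lt j.2) - volP s R c j.2.le))
    (P : ∀ S : Sp, ∀ κ : ℕ, MSys S M (lin κ) ι → Prop) (hP : P z.Z.sp z.κ z.sys) {v : ℕ} (hI : InvH s R v)
    (hpt : Pt z.sys (rover z.Z.l z.Z.u z.Z.hu R)) :
    ∃ (κ : ℕ) (z' : PZ (zuz W c u h0 hu h1) s.Q M) (t : MSys ((Lab.ofZ W).ovr u hu) M (lin κ) ι), 1 ≤ κ ∧
      FZ R W c u h0 hu h1 lam z' t ∧ P _ κ t ∧ Inv v t ∧ Pt t (rover (Lab.ofZ W) u hu R) := by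
  obtain ⟨Z, hc', dm', D', Λ', R', X', hX', κ', hκ1, he', hκ'⟩ := z
  obtain ⟨l', c', u', a, b, d⟩ := Z
  dsimp only at hl hzc hzu
  subst hl hzc hzu
  have hinv := hI _ lam hf ho hk
  exact ⟨κ', ⟨D', Λ', R', X', hX'⟩, mkt (⟨D', Λ', R', X', hX'⟩ : PZ (zuz W c' u' h0 hu h1) s.Q M) hc' dm' κ' hκ1 he' hκ',
    hκ1, mkt_fz (⟨D', Λ', R', X', hX'⟩ : PZ (zuz W c' u' h0 hu h1) s.Q M) hc' dm' κ' hκ1 he' hκ' hk hf ho, hP, hinv,
    hpt⟩

end

end Pool.Agent.Helper70.CPW
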