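import Pool.Agent.Helper70.CPW.Pfc
import Pool.Agent.Helper8.CPY.Cpa
import Pool.Agent.Helper87.NSL.Asm

/-! ROW [CPN]: THE NUMBERS OF THE COPY of one type, from the unit directions of flag zooms. -/

set_option autoImplicit false

namespace Pool.Agent.Helper70.CPW

open Finset Filter Topology Matrix Pool.Agent.Helper69.RK Pool.Agent.Helper31.EC Pool.Agent.Helper31.EC.Sp
open Pool.Agent.Helper40.EL Pool.Agent.Helper84.MT Pool.Agent.Helper89.LX Pool.Agent.Helper3.LF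
open Pool.Agent.Helper95.LF Pool.Agent.Helper36.AM Pool.Agent.Helper7.GZ
open Pool.Agent.Helper7.RD (RW PZ volCO upz)
open Pool.Agent.Helper87.NSL (cndR KnS NSLs)
open Pool.Agent.Helper81.CPY
open Pool.Agent.Helper52.MW (AllE_self)
open Pool.Agent.Helper29.MX

noncomputable section

variable {S T : Sp} {M N g r v : ℕ} {E E' : ℕ → ℕ} {ι κ : Type}

/-- renaming of the types -/
theorem volP_ren [Finite ι] [Finite κ] (s : MSys S N E ι) {f : κ → ι} (hf : Function.Surjective f) (R : Rsl S)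
    (c : ℝ) {j : ℕ} (hj : j ≤ N) : volP (s.ren f) R c hj = volP s R c hj := by
  apply le_antisymm
  · refine Pool.Agent.Helper7.RD.volCO_mono (fun i => ?_) fun _ h => h
    cases i with
    | none => exact ⟨none, PLe.refl _⟩
    | some i => exact ⟨some (f i), PLe.refl _⟩
  · refine Pool.Agent.Helper7.RD.volCO_mono (fun i => ?_) fun _ h => h
    cases i with
    | none => exact ⟨none, PLe.refl _⟩
    | some i =>
      obtain ⟨j, rfl⟩ := hf i
      exact ⟨some j, PLe.refl _⟩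

theorem ren_im (s : MSys S N E ι) (e : κ → ι) (p : Pj T S) (B : ∀ k, (T.F k).Ω → Prop) (hB : 0 < ul (T.pr B)) :
    (s.ren e).im p B hB = (s.im p B hB).ren e := rfl

/-- numbers at all windows `c > 0` give the numbers at the window `0` -/
theorem num_zero [Finite ι] {w : Fin N → ℝ} {s : MSys S N E ι} {R : Rsl S}
    (h : ∀ c : ℝ, 0 < c → (∀ i, w i * c < 1) → ∀ (j : ℕ) (hj : j ≤ N), volP s R c hj = j - wsm w j * c) : Num w s R := by
  intro c h0 hc j hj
  rcases h0.lt_or_eq with h1 | h1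
  · exact h c h1 hc j hj
  rw [← h1, mul_zero, sub_zero]
  apply le_antisymm
  · exact Pool.Agent.Helper7.RD.volCO_le_M
  · have h2 : ∀ᶠ c : ℝ in 𝓝[>] 0, (j : ℝ) - wsm w j * c ≤ volP s R 0 hj := by
      have h3 : ∀ᶠ c : ℝ in 𝓝[>] 0, ∀ i, w i * c < 1 := by
        rw [eventually_all]
        intro i
        have h4 : Tendsto (fun c : ℝ => w i * c) (𝓝 0) (𝓝 (w i * 0)) := (continuous_const_mul (w i)).tendsto 0
        rw [mul_zero] at h4
        exact nhdsWithin_le_nhds (h4.eventually (gt_mem_nhds one_pos))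
      filter_upwards [h3, self_mem_nhdsWithin] with c h4 h5
      have h6 : 0 < c := h5
      rw [← h c h6 h4 j hj]
      exact volP_anti s R h6.le hj
    have h3 : Tendsto (fun c : ℝ => (j : ℝ) - wsm w j * c) (𝓝[>] 0) (𝓝 ((j : ℝ) - wsm w j * 0)) :=
      ((continuous_const.sub (continuous_const_mul (wsm w j))).tendsto 0).mono_left nhdsWithin_le_nhds
    rw [mul_zero, sub_zero] at h3
    exact le_of_tendsto h3 h2

/-- THE PREFIXES OF THE COPY at a window `c > 0` -/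
theorem cpy_pfx (hNs : NSLs N) {A : MCl N} {C : ℕ → MCl N} (hok : Okc N A C) (hst : ∀ m, m < N → STu m)
    (hsto : STO N (Cv A (v + 1))) (hN : 1 ≤ N) {m : ℕ} {w : Fin N → ℝ} (hw : ∀ i, 1 ≤ w i) {ρ : ℝ} (hρ : 0 < ρ)
    {s : MSys S N (lin g) (Fin r)} {R : Rsl S} (hJ : JT (C m) v g r w ρ S s R) (hI : InvH s R v)
    (hC : Dtm s.Q (rsC R)) (i0 : Fin r) {c : ℝ} (hc : 0 < c) (hwc : ∀ i, w i * c < 1) {j : ℕ} (hj : j ≤ N)
    (p : Pj T (cpd (rsC R)).sp) (B : ∀ k, (T.F k).Ω → Prop) (hB : 0 < ul (T.pr B)) :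
    volP ((s.cpy (rsC R) hC (fun _ : Unit => s.lf i0)).im p B hB) (rbot _) c hj = j - wsm w j * c := by
  have hpt : Pt s R := hJ.cl.2.1
  obtain ⟨u, hu, h1, W, κ, z, t, hwe, hκ, hf, htC, htI, htP, ⟨fW⟩⟩ :=
    exists_fz hN hok hw hJ.cl.1 hpt (AllE_self hJ.num) (AllE_self hJ.car) hI hc hwc
  have htot : volKO ((s.cpy (rsC R) hC (fun _ : Unit => s.lf i0)).im p B hB) (rbot _) c = N - (∑ i, w i) * c :=
    cpy_tot hNs hok hst hsto hw hρ hpt hJ.num hJ.car hJ.dfx hwe hκ hf htC htI htP fW hC i0 T p B hB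
  have hlc : ∀ _ : Unit, ∃ i, PLe ((s.lf i).win c) ((s.lf i0).win c) := fun _ => ⟨i0, PLe.refl _⟩
  have hup : ∀ {i : ℕ} (hi : i ≤ N), volP ((s.cpy (rsC R) hC (fun _ : Unit => s.lf i0)).im p B hB)
      ((cpd (rsC R)).p1.pb R : Rsl (Sp.im p B)) c hi ≤ i - wsm w i * c := fun {i} hi => by
    have h2 := pfx_up hC (fun _ : Unit => s.lf i0) z hf.tri hf.ex hf.kl hlc hi p B hB
    rw [← Finset.sum_mul, wsm_cast w hi] at h2
    exact h2
  have hdn := pfx_down hC (fun _ : Unit => s.lf i0) c hj p B hB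
  have hnum : volP (s.im (p.comp (cpd (rsC R)).p1) B hB) (R : Rsl (Sp.im (p.comp (cpd (rsC R)).p1) B)) c hj =
    j - wsm w j * c := hJ.num T (p.comp (cpd (rsC R)).p1) B hB c hc.le hwc j hj
  have hPt : Pt ((s.cpy (rsC R) hC (fun _ : Unit => s.lf i0)).im p B hB)
      ((cpd (rsC R)).p1.pb R : Rsl (Sp.im p B)) := by
    filter_upwards [hpt] with k hk ω ω' a b hz hr
    have a' := (cpd (rsC R)).p1.supp k _ (FSp.im_supp (p.fp k) (B k) ω a)
    have b' := (cpd (rsC R)).p1.supp k _ (FSp.im_supp (p.fp k) (B k) ω' b)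
    exact hk _ _ a' b' (((cpd (rsC R)).p1.hZ k ω ω' (FSp.im_supp (p.fp k) (B k) ω a)
      (FSp.im_supp (p.fp k) (B k) ω' b)).1 hz) hr
  have hc1 : c < 1 := by
    have h2 := hwc ⟨0, hN⟩
    have h3 := hw ⟨0, hN⟩
    nlinarith
  have htt : volKO ((s.cpy (rsC R) hC (fun _ : Unit => s.lf i0)).im p B hB)
      ((cpd (rsC R)).p1.pb R : Rsl (Sp.im p B)) c ≤
        volKO ((s.cpy (rsC R) hC (fun _ : Unit => s.lf i0)).im p B hB) (rbot _) c := by
    rw [htot]
    have h2 := hup (i := N) le_rfl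
    rw [Pool.Agent.Helper7.RD.volP_self, wsm_all] at h2
    exact h2
  have hsw := Pool.Agent.Helper99.MX.swp_mx hst (s := (s.cpy (rsC R) hC (fun _ : Unit => s.lf i0)).im p B hB)
    (R := rbot _) (R' := (cpd (rsC R)).p1.pb R) (Eventually.of_forall fun k => bot_le) hPt hc.le hc1 htt hj
  rw [← hsw]
  exact le_antisymm (hup hj) (hnum.symm.le.trans hdn)

/-- **ROW [CPN]**, from the unit directions of flag zooms -/
theorem cpn_of (hI : ∀ (v g r : ℕ) (S : Sp) (s : MSys S (M + 1) (lin g) (Fin r)) (R : Rsl S), Inv v s → Pt s R →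
    InvH s R v) : Pool.Agent.Helper8.CPY.CPN M := by
  intro A C v hctx m g r w ρ hw hρ S s R hJ hC i0 e he T p B hB
  have key : Num w (((s.cpy (rsC R) hC (fun _ : Unit => s.lf i0)).im p B hB).ren e) (rbot (Sp.im p B)) := by
    refine num_zero fun c hc hwc j hj => ?_
    rw [volP_ren _ he (rbot (Sp.im p B)) c hj]
    exact cpy_pfx (Pool.Agent.Helper87.NSL.nsls (M + 1)) hctx.ok hctx.st hctx.sto (Nat.succ_pos M) hw hρ hJ
      (hI v g r S s R hJ.cl.2.2 hJ.cl.2.1) hC i0 hc hwc hj p B hB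
  have e1 := ren_im (s.cpy (rsC R) hC (fun _ : Unit => s.lf i0)) e p B hB
  show Num w (((s.cpy (rsC R) hC (fun _ : Unit => s.lf i0)).ren e).im p B hB) (rbot (Sp.im p B))
  rw [e1]
  exact key

end

end Pool.Agent.Helper70.CPW
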