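import Pool.Agent.Helper70.CPW.Exf
import Pool.Agent.Helper70.CPW.Low
import Pool.Agent.Helper8.CPY.Okh

/-! THE TOTAL NUMBERS OF THE COPY: all windows `c > 0`. -/

set_option autoImplicit false

namespace Pool.Agent.Helper70.CPW

open Finset Filter Topology Matrix Pool.Agent.Helper69.RK Pool.Agent.Helper31.EC Pool.Agent.Helper31.EC.Sp
open Pool.Agent.Helper40.EL Pool.Agent.Helper84.MT Pool.Agent.Helper89.LX Pool.Agent.Helper3.LF
open Pool.Agent.Helper95.LF Pool.Agent.Helper36.AM Pool.Agent.Helper7.GZ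
open Pool.Agent.Helper7.RD (RW PZ volCO upz FD0 fdW)
open Pool.Agent.Helper87.NSL (cndR KnS NSLs)
open Pool.Agent.Helper81.CPY
open Pool.Agent.Helper52.MW (AllE_self)
open Pool.Agent.Helper29.MX

noncomputable section

variable {S : Sp} {N g r v : ℕ} {E E' : ℕ → ℕ} {ι : Type}

/-- NUMBERS OF THE FLAG ZOOM -/
theorem fz_num [Finite ι] {s : MSys S N E ι} {R W : Rsl S} {c u : ℝ} {h0 : 0 ≤ c} {hu : 0 < u} {h1 : c + u ≤ 1}
    {w : Fin N → ℝ} {z : PZ (zuz W c u h0 hu h1) s.Q N} {t : MSys ((Lab.ofZ W).ovr u hu) N E' ι}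
    (hf : FZ R W c u h0 hu h1 (fun j => w j * c) z t) (hwe : ∀ i, w i * c + u ≤ 1)
    (hn : AllE (fun _ x R' => Num w x R') S s R) : ∃ w' : ℝ, ∀ b : ℝ, 0 < b → b ≤ 1 →
      AllE (fun _ x R' => (N : ℝ) - w' * b ≤ volKO x R' b) _ t (rover (Lab.ofZ W) u hu R) := by
  obtain ⟨κ, hκ⟩ := exists_nat_bd w
  refine ⟨max (∑ i, w i) (N * (κ + 1)), fun b hb0 hb1 => ?_⟩
  by_cases hb : b * (κ + 1) ≤ 1
  · have h2 := zoom_num z hf.tQ hf.win hf.kl (lam := ∑ j, w j * c) hf.low (b := b) (w := (∑ i, w i) * b) hb0.le hb1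
      (fun T p A hA => by
        have h3 := num_tot (hn T p A hA) (c := c + u * b) (add_nonneg h0 (mul_nonneg hu.le hb0.le)) (fun i => by
          have h4 := hwe i
          have h5 := hκ i
          have h6 : w i * b < 1 := by nlinarith
          have h7 : u * (w i * b) < u := mul_lt_of_lt_one_right hu h6
          have h8 : w i * (c + u * b) = w i * c + u * (w i * b) := by ring
          rw [h8]
          linarith)
        show (N : ℝ) - ∑ j, w j * c - u * ((∑ i, w i) * b) ≤ volKO (s.im p A hA) R (c + u * b)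
        rw [h3, ← Finset.sum_mul]
        linarith)
    intro T p A hA
    have h3 : (N : ℝ) - (∑ i, w i) * b ≤ volKO (t.im p A hA) (rover (Lab.ofZ W) u hu R : Rsl (Sp.im p A)) b :=
      h2 T p A hA
    refine le_trans ?_ h3
    have h4 := mul_le_mul_of_nonneg_right (le_max_left (∑ i, w i) ((N : ℝ) * (κ + 1))) hb0.le
    linarith
  · intro T p A hA
    refine le_trans ?_ (Pool.Agent.Helper29.MX.volKO_nonneg _ _ _)
    push Not at hb
    have h4 := mul_le_mul_of_nonneg_right (le_max_right (∑ i, w i) ((N : ℝ) * (κ + 1))) hb0.le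
    have h5 : (N : ℝ) ≤ N * (κ + 1) * b := by
      have h6 : (0 : ℝ) ≤ N := Nat.cast_nonneg N
      nlinarith
    linarith

/-- a resolution with the same germ, of which a literal function is a function at all times -/
theorem exists_lit (R W : Rsl S) (hW : (KZ R).ev (Lab.ofZ W)) :
    ∃ R₂ : Rsl S, (∀ᶠ k in UF, R₂ k = R k) ∧ LitC (rsC R₂) W := by
  classical
  refine ⟨fun k => if (∀ ω ω', (S.F k).μ ω ≠ 0 → (S.F k).μ ω' ≠ 0 → (S.F k).Z ω ω' → R k ω ω' → W k ω ω') then R k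
    else ⊥, ?_, ?_⟩
  · filter_upwards [hW] with k hk
    rw [if_pos]
    have h1 : ((Lab.ofZ W) k).leak (fc (R k)) = 0 := hk
    rw [Lab.ofZ_leak W (fun k => fc (R k)) k] at h1
    have h2 : fc (W k) ≤ fc (R k) := h_le_zero_iff.mp h1.le
    intro ω ω' a b c d
    exact Pool.Agent.Helper48.NS.fc_le_supp h2 ω ω' a b c d
  · intro k ω ω' a b hZ hC
    have h1 : (if (∀ ω ω', (S.F k).μ ω ≠ 0 → (S.F k).μ ω' ≠ 0 → (S.F k).Z ω ω' → R k ω ω' → W k ω ω') then R k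
      else ⊥ : Setoid (S.F k).Ω) ω ω' := Quotient.exact hC
    by_cases h : ∀ ω ω', (S.F k).μ ω ≠ 0 → (S.F k).μ ω' ≠ 0 → (S.F k).Z ω ω' → R k ω ω' → W k ω ω'
    · rw [if_pos h] at h1
      exact h ω ω' a b hZ h1
    · rw [if_neg h] at h1
      have h2 : ω = ω' := h1
      rw [h2]

theorem dtm_of_pt {s : MSys S N E ι} {R : Rsl S} (h : Pt s R) : Dtm s.Q (rsC R) := by
  filter_upwards [h] with k hk ω ω' a b hZ hc
  have h1 := hk ω ω' a b hZ (Quotient.exact hc)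
  unfold Sp.VV.cellv
  rw [h1]

theorem pt_germ {s : MSys S N E ι} {R R₂ : Rsl S} (h : Pt s R) (e : ∀ᶠ k in UF, R₂ k = R k) : Pt s R₂ := by
  filter_upwards [h, e] with k hk hk2 ω ω' a b hZ hc
  rw [hk2] at hc
  exact hk ω ω' a b hZ hc

theorem grm_res (s : MSys S N E ι) {R R₂ : Rsl S} (e : ∀ᶠ k in UF, R₂ k = R k) : Grm s R s R₂ := by
  filter_upwards [e] with k hk
  unfold gsys
  rw [hk]

theorem ginv_vol (P : ℝ → Prop) (c : ℝ) : GInv (fun S (x : MSys S N E ι) R' => P (volKO x R' c)) := by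
  intro S S' s R s' R' h hs
  rw [← volKO_germ h]
  exact hs

/-- THE TOTAL OF THE COPY, from a flag zoom -/
theorem cpy_tot (hNs : NSLs N) {A : MCl N} {C : ℕ → MCl N} (hok : Okc N A C) (hst : ∀ m, m < N → STu m)
    (hsto : STO N (Cv A (v + 1))) {m : ℕ} {w : Fin N → ℝ} (hw : ∀ i, 1 ≤ w i) {ρ : ℝ} (hρ : 0 < ρ)
    {s : MSys S N (lin g) (Fin r)} {R : Rsl S} (hpt : Pt s R) (hn : AllE (fun _ x R' => Num w x R') S s R)
    (hcar : AllE (fun _ x R' => Car w x R') S s R) (hdf : AllE (fun _ x R' => Dfx w ρ x R') S s R) {c u : ℝ}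
    {h0 : 0 ≤ c} {hu : 0 < u} {h1 : c + u ≤ 1} {W : Rsl S} {κ : ℕ} {z : PZ (zuz W c u h0 hu h1) s.Q N}
    {t : MSys ((Lab.ofZ W).ovr u hu) N (lin κ) (Fin r)} (hwe : ∀ i, w i * c + u ≤ 1) (hκ : 1 ≤ κ)
    (hf : FZ R W c u h0 hu h1 (fun j => w j * c) z t) (htC : C m _ κ r t) (htI : Inv v t)
    (htP : Pt t (rover (Lab.ofZ W) u hu R)) (fW : Frm s.Q (Lab.ofZ W) fun j => w j * c) (hC : Dtm s.Q (rsC R))
    (i0 : Fin r) : AllE (fun _ x R' => volKO x R' c = N - (∑ i, w i) * c) _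
      (s.cpy (rsC R) hC (fun _ : Unit => s.lf i0)) (rbot _) := by
  have hwc : ∀ i, w i * c < 1 := fun i => by linarith [hwe i]
  obtain ⟨g', hg'⟩ := exists_nat_bd w
  obtain ⟨w', hw'⟩ := fz_num hf hwe hn
  obtain ⟨R₂, e₂, hL⟩ := exists_lit R W hf.kl.2
  have hnc : AllE (fun _ x R' => (N : ℝ) - (∑ j, w j) * c ≤ volKO x R' c) S s R := fun T p A hA =>
    (num_tot (hn T p A hA) h0 hwc).ge
  have htP₂ : Pt t (R₂ : Rsl ((Lab.ofZ W).ovr u hu)) := pt_germ (R := (rover (Lab.ofZ W) u hu R)) htP e₂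
  have hst0 : Stb 0 (MSys.cpy (S := S.chg W u hu) t (rsC R₂) (dtm_of_pt htP₂) (fun _ : Unit => t.lf i0)) (rbot _) :=
    Pool.Agent.Helper8.CPY.copy0_mx hNs hok.oA hst hsto hκ ⟨hok.le _ _ _ _ _ htC, htI⟩ htP₂
      (fun b hb0 hb1 => zoom_Dfc z hf.tQ hf.kl fW hw hg' hwe hnc hcar hρ hdf hb0 hb1) (w := w')
      (fun b hb0 hb1 => AllE_germ (ginv_vol (fun x => (N : ℝ) - w' * b ≤ x) b) _ _ _ _ _ _
        (grm_res t (R := rover (Lab.ofZ W) u hu R) (R₂ := R₂) e₂) (hw' b hb0 hb1)) (dtm_of_pt htP₂) i0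
  have hC₂ : Dtm s.Q (rsC R₂) := dtm_of_pt (pt_germ hpt e₂)
  have hup : volKO s R₂ c ≤ N - ∑ j, w j * c := by
    rw [← volKO_germ (grm_res s e₂), num_tot (AllE_self hn) h0 hwc, Finset.sum_mul]
  have h2 := cpy_eq hC₂ (fun _ : Unit => s.lf i0) hL z hf.tQ hf.win (dtm_of_pt htP₂) (fun _ : Unit => t.lf i0)
    (fun b _ hb0 hb1 => hf.win b i0 hb0 hb1) hst0 (∑ j, w j * c) hf.gram (fun _ => ⟨i0, PLe.refl _⟩) hup
  rw [← Finset.sum_mul] at h2
  exact AllE_germ (ginv_vol (fun x => x = N - (∑ i, w i) * c) c) _ _ _ _ _ _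
    (cpy_germ s hC₂ hC (fun _ : Unit => s.lf i0) e₂) h2

end

end Pool.Agent.Helper70.CPW
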