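import Pool.Agent.Helper70.CPW.Dfc

/-! THE DEFICIT OF A ROW ZOOM over a literal K-label with a frame, on all events of all extensions. -/

set_option autoImplicit false

namespace Pool.Agent.Helper70.CPW

open Finset Filter Topology Matrix MvPolynomial Pool.Agent.Helper69.RK Pool.Agent.Helper31.EC Pool.Agent.Helper31.EC.Sp
open Pool.Agent.Helper40.EL Pool.Agent.Helper84.MT Pool.Agent.Helper89.LX Pool.Agent.Helper3.LF
open Pool.Agent.Helper95.LF Pool.Agent.Helper36.AM Pool.Agent.Helper7.GZ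
open Pool.Agent.Helper7.RD (RW PZ volCO upz FD0 fdW)
open Pool.Agent.Helper87.NSL (cndR)
open Pool.Agent.Helper81.CPY
open Pool.Agent.Helper29.MX

noncomputable section

variable {S : Sp} {M : ℕ} {E E' : ℕ → ℕ} {ι ι' : Type} {s : MSys S M E ι} {R X W : Rsl S}

/-- a frame of a literal label is a frame of every finer literal label -/
def frmF {Q : S.VV M} {La : Fin M → ℝ} (f : Frm Q (Lab.ofZ X) La) (h : ∀ᶠ k in UF, W k ≤ X k) :
    Frm Q (Lab.ofZ W) La where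
  X := f.X
  P := f.P
  tri := f.tri
  red := f.red
  fn := by
    filter_upwards [f.fn, h] with k hk h1 ω ω' a b c d
    exact hk ω ω' a b c (h1 d)
  bd := f.bd
  pt := f.pt

/-- DEFICIT of a row zoom on all events -/
theorem zoom_Dfc [Finite ι] {c u : ℝ} {h0 : 0 ≤ c} {hu : 0 < u} {h1 : c + u ≤ 1}
    (z : PZ (zuz W c u h0 hu h1) s.Q M) {t : MSys ((Lab.ofZ W).ovr u hu) M E' ι'} (ht : t.Q = z.X)
    (hWK : KLb s R c (Lab.ofZ W)) {w : Fin M → ℝ} (fW : Frm s.Q (Lab.ofZ W) fun j => w j * c) (hw : ∀ j, 1 ≤ w j)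
    {g : ℕ} (hwg : ∀ j, w j ≤ g) (hwe : ∀ j, w j * c + u ≤ 1)
    (hn : AllE (fun _ x R' => M - (∑ j, w j) * c ≤ volKO x R' c) S s R) (hc : AllE (fun _ x R' => Car w x R') S s R)
    {ρ : ℝ} (hρ : 0 < ρ) (hd : AllE (fun _ x R' => Dfx w ρ x R') S s R) {b : ℝ} (hb : 0 < b) (hb1 : b ≤ 1) :
    Dfc b t := by
  intro T p A hA
  have hw1 : ∀ j, w j * c < 1 := fun j => by linarith [hwe j]
  obtain ⟨X₂, hX₂⟩ := hc (unz p) (puz p) (A : ∀ k, ((unz p).F k).Ω → Prop) hA c h0 hw1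
  obtain ⟨f₂⟩ := hX₂.fr
  have hK2 := klb_im hWK (puz p) (A : ∀ k, ((unz p).F k).Ω → Prop) hA
  have hXW := hX₂.min (Lab.ofZ (S := Sp.im (puz p) A) W) hK2 ⟨frmI (puz p) A fW⟩
  have hub : ∀ j, w j * c + u * b ≤ 1 := fun j => by
    have := hwe j
    have := mul_le_of_le_one_right hu.le hb1
    linarith
  have hdd := hd (unz p) (puz p) (A : ∀ k, ((unz p).F k).Ω → Prop) hA c h0 hw1 X₂ hX₂ f₂ (u * b) (mul_pos hu hb) hub
  have e : (t.im p A hA).Q = (pzI (puz p) (A : ∀ k, ((unz p).F k).Ω → Prop) hA z).X := by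
    show xI (puz p) A t.Q = xI (puz p) A z.X
    rw [ht]
  have h2 : H ((pzI (puz p) (A : ∀ k, ((unz p).F k).Ω → Prop) hA z).X.dg b) ≤ (M - ρ) * b := by
    refine row_dfc (s := s.im (puz p) (A : ∀ k, ((unz p).F k).Ω → Prop) hA) (R := R) (W := W) (X := X₂)
      (pzI (puz p) (A : ∀ k, ((unz p).F k).Ω → Prop) hA z) hK2 hX₂.kl f₂ hw hwg hwe (hn _ (puz p) A hA) ?_ hb.le hb1 ?_
    · refine hXW.congr fun k => ?_
      rfl
    · refine hdd.trans (le_of_eq ?_)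
      ring
  have h3 : H ((t.im p A hA).Q.dg b) = H ((pzI (puz p) (A : ∀ k, ((unz p).F k).Ω → Prop) hA z).X.dg b) := by
    rw [e]
    rfl
  rw [h3]
  refine h2.trans_lt ?_
  have := mul_pos hρ hb
  linarith

end

end Pool.Agent.Helper70.CPW
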