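import Pool.Agent.Helper70.CPW.Tfm
import Pool.Agent.Helper70.CPW.Znm
import Pool.Agent.Helper89.MG.Typd
import Pool.Agent.Helper8.CPY.AllE

/-! THE CELLS OF THE POINT OF A ROW ZOOM over a literal label are known to the cells of the box of a frame over a literal
label. -/

set_option autoImplicit false

namespace Pool.Agent.Helper70.CPW

open Finset Filter Topology Matrix MvPolynomial Pool.Agent.Helper69.RK Pool.Agent.Helper31.EC Pool.Agent.Helper31.EC.Sp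
open Pool.Agent.Helper40.EL Pool.Agent.Helper84.MT Pool.Agent.Helper89.LX Pool.Agent.Helper3.LF
open Pool.Agent.Helper95.LF Pool.Agent.Helper36.AM Pool.Agent.Helper7.GZ Pool.Agent.Helper26.BXD
open Pool.Agent.Helper81.MI (totalDegree_bind eval_bind)
open Pool.Agent.Helper7.RD (RW PZ volCO upz)
open Pool.Agent.Helper29.MX

noncomputable section

/-- Lipschitz bound from the size of the coefficients -/
theorem lip_cf {M p : ℕ} (q : MvPolynomial (Fin M) ℝ) (hq : q.totalDegree ≤ p) {K R r : ℝ} (hR : 1 ≤ R) (hK : 0 ≤ K)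
    (hr : 0 ≤ r) (hc : ∀ s, |q.coeff s| ≤ K) (x y : Fin M → ℝ) (hx : ∀ i, |x i| + r ≤ R) (h : ∀ i, |y i - x i| ≤ r) :
    |eval y q - eval x q| ≤ M * (((p : ℝ) + 1) ^ M * (K * (p * R ^ p))) * r := by
  set b : ℝ := ((p : ℝ) + 1) ^ M * (K * (p * R ^ p)) with hb
  have hb0 : 0 ≤ b := by positivity
  have h1 := row_lip (p := q) (q := x) (y := y) (G := Real.sqrt M * b) (L := r) (by positivity) hr h
    (fun z hz e => by
      have h4 := Finset.sum_mul_sq_le_sq_mul_sq (Finset.univ : Finset (Fin M)) e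
        (fun a => eval z (pderiv a q))
      have h5 : ∑ a, (eval z (pderiv a q)) ^ 2 ≤ M * b ^ 2 := by
        calc ∑ a, (eval z (pderiv a q)) ^ 2 ≤ ∑ _a : Fin M, b ^ 2 := by
              refine Finset.sum_le_sum fun a _ => ?_
              rw [← sq_abs]
              refine pow_le_pow_left₀ (abs_nonneg _) ?_ 2
              refine Pool.Agent.Helper36.AM.pderiv_le q hq z R K hR hK (fun i => ?_) hc a
              have h6 := hz i
              have h7 := abs_sub_abs_le_abs_sub (z i) (x i)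
              linarith [hx i]
          _ = M * b ^ 2 := by rw [Finset.sum_const, Finset.card_univ, Fintype.card_fin, nsmul_eq_mul]
      have h6 : ∑ a, e a ^ 2 = e ⬝ᵥ e := Finset.sum_congr rfl fun a _ => pow_two _
      rw [h6] at h4
      refine h4.trans ?_
      rw [mul_pow, Real.sq_sqrt (Nat.cast_nonneg _), mul_comm]
      exact mul_le_mul_of_nonneg_right h5 (self_nonneg' e))
  refine h1.trans (le_of_eq ?_)
  have h2 : Real.sqrt M * Real.sqrt M = M := Real.mul_self_sqrt (Nat.cast_nonneg _)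
  calc Real.sqrt M * b * (Real.sqrt M * r) = (Real.sqrt M * Real.sqrt M) * b * r := by ring
    _ = _ := by rw [h2]

variable {S : Sp} {M M' D : ℕ} {Q : S.VV M} {X W : Rsl S} {La : Fin M → ℝ} (f : Frm Q (Lab.ofZ X) La) {Λ u : ℝ}

/-- the rows over a literal label in the coordinates of the frame -/
def qz (R : Rows Q (Lab.ofZ W) M' D Λ u) (k : ℕ) (ω : (S.F k).Ω) (j : Fin M') : MvPolynomial (Fin M) ℝ :=
  bind₁ (chp (fP f k ω) (scl La S k)) (pct (Lab.ofZ W) R.p k ω j)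

variable {e : ℝ} {he : 0 < e} {κ₁ κ₂ : Type} [Finite κ₂] {A : κ₁ → Part S} {B : κ₂ → Part ((Lab.ofZ X).ovr e he)}
  {C' : LC ((Lab.ofZ X).ovr e he)} {κ : ℕ}

/-- TAMENESS OF THE ROWS, literal labels -/
theorem rows_tameZ (R : Rows Q (Lab.ofZ W) M' D Λ u) (hκ : ∀ k ω j, (f.P k ω j).totalDegree ≤ κ) (hu : 0 ≤ u)
    (hAB : ∀ i', ∃ i, PLe ((Lab.ofZ X).up e he (A i)) (B i')) (hl : (Lab.ofZ W).DMf A)
    (hC : C'.ev ((Lab.ofZ X).ovl e he (Lab.ofZ W))) (hN : NG C' (f.X.chg (Lab.ofZ X).V e he) B) :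
    ∃ K : ℕ → ℝ, S.Sub K ∧ Typ (S := S) (fun k ω => ∀ j a, |coeff a (qz f R k ω j)| ≤ K k) := by
  refine Pool.Agent.Helper89.LX.typ_diag (S := S) (fun k ω K => ∀ j a, |coeff a (qz f R k ω j)| ≤ K) fun η hη => ?_
  have h1 := (rows_tame f R hκ hu hAB hl hC hN η hη).eventually (ge_mem_nhds hη)
  filter_upwards [h1, pct_ev R] with k hk e1
  refine le_trans (le_of_eq ?_) hk
  have h0 : (((Lab.ofZ X) k).am ((Lab.ofZ W) k)).sp.pb (fun w => ¬ ∀ j a, |coeff a (qz f R k w.1 j)| ≤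
      2 ^ (η * (S.F k).n)) = (S.F k).pb (fun ω => ¬ ∀ j a, |coeff a (qz f R k ω j)| ≤ 2 ^ (η * (S.F k).n)) :=
    pb_push (((Lab.ofZ X) k).am ((Lab.ofZ W) k)).p1 (fun ω => ¬ ∀ j a, |coeff a (qz f R k ω j)| ≤
      2 ^ (η * (S.F k).n))
  refine h0.symm.trans ?_
  apply le_antisymm
  · apply FSp.pb_mono
    intro (w : (((Lab.ofZ X) k).am ((Lab.ofZ W) k)).sp.Ω) hw h2 h3
    apply h2
    intro j a
    have s3 : w.1 = w.2 := ((((Lab.ofZ X) k).am ((Lab.ofZ W) k)).supp w hw).1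
    have h4 : |coeff a (bind₁ (chp (fP f k w.1) (scl La S k)) (R.p k w.2 j))| ≤ 2 ^ (η * (S.F k).n) := h3 j a
    have h5 : qz f R k w.1 j = bind₁ (chp (fP f k w.1) (scl La S k)) (R.p k w.2 j) := by
      unfold qz
      rw [e1, s3]
    rw [← h5] at h4
    exact h4
  · apply FSp.pb_mono
    intro (w : (((Lab.ofZ X) k).am ((Lab.ofZ W) k)).sp.Ω) hw h2 h3
    apply h2
    intro j a
    have s3 : w.1 = w.2 := ((((Lab.ofZ X) k).am ((Lab.ofZ W) k)).supp w hw).1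
    have h4 : |coeff a (qz f R k w.1 j)| ≤ 2 ^ (η * (S.F k).n) := h3 j a
    have h5 : qz f R k w.1 j = bind₁ (chp (fP f k w.1) (scl La S k)) (R.p k w.2 j) := by
      unfold qz
      rw [e1, s3]
    rw [h5] at h4
    exact h4

theorem qz_deg (R : Rows Q (Lab.ofZ W) M' D Λ u) (hκ : ∀ k ω j, (f.P k ω j).totalDegree ≤ κ) (k : ℕ) (ω : (S.F k).Ω)
    (j : Fin M') : (qz f R k ω j).totalDegree ≤ D * (κ + 1) :=
  totalDegree_bind _ (pct_deg R k _ j) _ fun i => chp_deg _ _ (fP_deg f hκ k _) i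

theorem qz_fn (R : Rows Q (Lab.ofZ W) M' D Λ u) (k : ℕ) (ω ω' : (S.F k).Ω) (a : (S.F k).μ ω ≠ 0)
    (a' : (S.F k).μ ω' ≠ 0) (hZ : (S.F k).Z ω ω') (hX : X k ω ω') (hW : W k ω ω') : qz f R k ω = qz f R k ω' := by
  have e1 := fP_fn f k ω ω' a a' hZ hX
  have e2 : pct (Lab.ofZ W) R.p k ω = pct (Lab.ofZ W) R.p k ω' := by
    unfold pct
    by_cases h : Ms (Lab.ofZ W) R.p k
    · rw [if_pos h, if_pos h]
      exact h _ _ a a' hW hZ
    · rw [if_neg h, if_neg h]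
  funext j
  unfold qz
  rw [e1, e2]

/-- THE CELLS of the point of the zoom are known to the cells of the box -/
theorem cells_known {c u : ℝ} {h0 : 0 ≤ c} {hu : 0 < u} {h1 : c + u ≤ 1} (z : PZ (zuz W c u h0 hu h1) Q M')
    (hκ : ∀ k ω j, (f.P k ω j).totalDegree ≤ κ)
    (hT : ∃ K : ℕ → ℝ, S.Sub K ∧ Typ (S := S) (fun k ω => ∀ j a, |coeff a (qz f z.R k ω j)| ≤ K k))
    {b : ℝ} (hb0 : 0 ≤ b) (hb1 : b ≤ 1) :
    PLe (S := (Lab.ofZ W).ovr u hu) (fun k => fc (Setoid.ker (z.X.cellv b k)))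
      (fun k => fc (X k ⊓ Setoid.ker (f.X.cellv (u * b) k) : Setoid (S.F k).Ω)) := by
  obtain ⟨Kp, hKp, hp⟩ := chart_pt f
  obtain ⟨Kc, hKc, hTc⟩ := hT
  obtain ⟨K1, hK1, hT1⟩ := z.hX
  obtain ⟨K2, hK2, hT2⟩ := z.R.lp Kp hKp
  obtain ⟨Kx, hKx', hx⟩ := f.X.bd
  have hKx : S.Sub Kx := (sp_Sub (Lab.ofZ X)).mp hKx'
  have hA : Typ (S := S) (fun k (ω : (S.F k).Ω) => (∀ j a, |coeff a (qz f z.R k ω j)| ≤ Kc k) ∧
      (∀ j, |z.X.v k ω j - eval (Q.v k ω) (z.R.p k ω j)| ≤ K1 k * S.dl u k) ∧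
      ∀ y : Fin M → ℝ, (∀ i, |y i - Q.v k ω i| ≤ Kp k * S.dl 1 k) → ∀ j,
        |eval y (z.R.p k ω j) - eval (Q.v k ω) (z.R.p k ω j)| ≤ K2 k * S.dl u k) :=
    Typ.and (S := S) hTc (Typ.and (S := S) hT1 hT2)
  obtain ⟨p, hp'⟩ : ∃ p : ℕ, p = z.D * (κ + 1) := ⟨_, rfl⟩
  have hKt : S.Sub (fun k => (K1 k + K2 k) + (K1 k + K2 k) +
      M * (((p : ℝ) + 1) ^ M * (Kc k * (p * (Kx k + 2) ^ p)))) :=
    ((hK1.add hK2).add (hK1.add hK2)).add ((S.Sub_const (Nat.cast_nonneg _)).mul ((S.Sub_const (by positivity)).mul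
      (hKc.mul ((S.Sub_const (Nat.cast_nonneg _)).mul (Sub_pow' (hKx.add (S.Sub_const (by norm_num))) p)))))
  refine PLe_cell_typ (S := (Lab.ofZ W).ovr u hu) z.X b (fun k => (X k ⊓ Setoid.ker (f.X.cellv (u * b) k) :
    Setoid (S.F k).Ω)) _ ((zuz W c u h0 hu h1).Sub_sp.1 hKt) (A := fun k (ω : (S.F k).Ω) =>
      (∀ j a, |coeff a (qz f z.R k ω j)| ≤ Kc k) ∧
      (∀ j, |z.X.v k ω j - eval (Q.v k ω) (z.R.p k ω j)| ≤ K1 k * S.dl u k) ∧
      ∀ y : Fin M → ℝ, (∀ i, |y i - Q.v k ω i| ≤ Kp k * S.dl 1 k) → ∀ j,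
        |eval y (z.R.p k ω j) - eval (Q.v k ω) (z.R.p k ω j)| ≤ K2 k * S.dl u k) hA ?_
  filter_upwards [hp, hx, pct_ev z.R, hK1.1, hK2.1, hKc.1, hKx.1] with k g1 g2 g3 c1 c2 c3 c4
  intro (ω : (S.F k).Ω) (ω' : (S.F k).Ω) a a' hω hω' hZ hB i
  obtain ⟨hW, hZ'⟩ := hZ
  obtain ⟨hX, hc⟩ := hB
  have e1 : qz f z.R k ω = qz f z.R k ω' := qz_fn f z.R k ω ω' a a' hZ' hX hW
  have hd : ((Lab.ofZ W).ovr u hu).dl b k = S.dl (u * b) k := (zuz W c u h0 hu h1).sp_dl' b k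
  have hdX : (Lab.ofZ X).sp.dl (u * b) k = S.dl (u * b) k := sp_dl _ _ _
  have hub : S.dl u k ≤ S.dl (u * b) k := S.dl_anti (by nlinarith) k
  have hr0 := S.dl_pos (u * b) k
  have hr1 : S.dl (u * b) k ≤ 1 := (S.dl_anti (mul_nonneg hu.le hb0) k).trans_eq (S.dl_zero k)
  have key : ∀ v : (S.F k).Ω, (S.F k).μ v ≠ 0 → ((∀ j a, |coeff a (qz f z.R k v j)| ≤ Kc k) ∧
      (∀ j, |z.X.v k v j - eval (Q.v k v) (z.R.p k v j)| ≤ K1 k * S.dl u k) ∧
      ∀ y : Fin M → ℝ, (∀ i, |y i - Q.v k v i| ≤ Kp k * S.dl 1 k) → ∀ j,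
        |eval y (z.R.p k v j) - eval (Q.v k v) (z.R.p k v j)| ≤ K2 k * S.dl u k) →
      |z.X.v k v i - eval (f.X.v k v) (qz f z.R k v i)| ≤ (K1 k + K2 k) * S.dl (u * b) k := by
    intro v hv hE
    have h3 := hE.2.2 (fun i => eval (f.X.v k v) (chp (fP f k v) (scl La S k) i)) (fun i => by
      rw [abs_sub_comm]
      exact g1 v hv i) i
    have h4 := hE.2.1 i
    have h5 : eval (f.X.v k v) (qz f z.R k v i) = eval (fun i => eval (f.X.v k v) (chp (fP f k v) (scl La S k) i))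
        (z.R.p k v i) := by
      unfold qz
      rw [eval_bind, g3]
    rw [h5]
    have h6 : |z.X.v k v i - eval (fun i => eval (f.X.v k v) (chp (fP f k v) (scl La S k) i)) (z.R.p k v i)| ≤
        (K1 k + K2 k) * S.dl u k := by
      rw [abs_le] at h3 h4 ⊢
      constructor <;> linarith [h3.1, h3.2, h4.1, h4.2]
    exact h6.trans (mul_le_mul_of_nonneg_left hub (by linarith))
  have k1 := key ω a hω
  have k2 := key ω' a' hω'
  have k3 : |eval (f.X.v k ω') (qz f z.R k ω i) - eval (f.X.v k ω) (qz f z.R k ω i)| ≤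
      M * (((p : ℝ) + 1) ^ M * (Kc k * (p * (Kx k + 2) ^ p))) * S.dl (u * b) k :=
    lip_cf (qz f z.R k ω i) (by rw [hp']; exact qz_deg f z.R hκ k ω i) (by linarith) c3 hr0.le (hω.1 i) _ _
      (fun j => by
        have := g2 ω a j
        linarith) (fun j => by
        have h7 : |f.X.v k ω' j - f.X.v k ω j| ≤ (Lab.ofZ X).sp.dl (u * b) k :=
          abs_sub_le_of_floor_eq ((Lab.ofZ X).sp.dl_pos (u * b) k) (congrFun hc j).symm
        rw [hdX] at h7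
        exact h7)
  rw [← e1] at k2
  show |z.X.v k ω i - z.X.v k ω' i| ≤ _ * ((Lab.ofZ W).ovr u hu).dl b k
  rw [hd, add_mul, add_mul]
  rw [abs_le] at k1 k2 k3 ⊢
  constructor <;> linarith [k1.1, k1.2, k2.1, k2.2, k3.1, k3.2]

end

end Pool.Agent.Helper70.CPW
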