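import Pool.Agent.Helper29.MX.St
import Pool.Agent.Helper81.CPY.Zmc

/-! EVENTS OF EXTENSIONS OF EXTENSIONS: for `q : W -> S` and an event `A` of an extension `p : T -> W` the space `im p A` is
an extension of the space `im (p o q) A`, and the pulled system on the event is the pulled system of the event. A
property of all events of all extensions of a system passes to all events of all extensions of a pulled system, if it is
invariant under extensions. -/

set_option autoImplicit false

namespace Pool.Agent.Helper70.CPW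

open Finset Filter Topology Matrix Pool.Agent.Helper69.RK Pool.Agent.Helper31.EC Pool.Agent.Helper31.EC.Sp
open Pool.Agent.Helper40.EL Pool.Agent.Helper84.MT Pool.Agent.Helper89.LX
open Pool.Agent.Helper29.MX

noncomputable section

variable {S T W : Sp} {M : ℕ} {E : ℕ → ℕ} {ι κ : Type}

theorem push_comp {Ω₁ Ω₂ Ω₃ : Type} [Fintype Ω₁] [Fintype Ω₂] (f : Ω₁ → Ω₂) (g : Ω₂ → Ω₃) (μ : Ω₁ → ℝ) :
    push g (push f μ) = push (g ∘ f) μ := by
  classical
  funext z
  rw [push_ind, push_ind]
  have h1 : ∀ y, e1_ind (g y = z) * push f μ y = ∑ x, if f x = y then e1_ind (g y = z) * μ x else 0 := by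
    intro y
    rw [push_ind, Finset.mul_sum]
    refine Finset.sum_congr rfl fun x _ => ?_
    by_cases h : f x = y
    · rw [e1_ind_pos h, if_pos h, one_mul]
    · rw [e1_ind_neg h, if_neg h, zero_mul, mul_zero]
  rw [Finset.sum_congr rfl fun y _ => h1 y, Finset.sum_comm]
  refine Finset.sum_congr rfl fun x _ => ?_
  rw [Finset.sum_ite_eq univ (f x), if_pos (mem_univ _)]
  rfl

/-- the event of an extension of an extension -/
def imj (q : Pj W S) (p : Pj T W) (A : ∀ k, (T.F k).Ω → Prop) : Pj (Sp.im p A) (Sp.im (p.comp q) A) where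
  π := q.π
  law := fun k => push_comp (p.π k) (q.π k) ((T.F k).restμ (A k))
  hZ := fun k ω ω' a b => q.hZ k ω ω' (FSp.im_supp (p.fp k) (A k) ω a) (FSp.im_supp (p.fp k) (A k) ω' b)
  hn := q.hn

theorem pull_im (q : Pj W S) (p : Pj T W) (A : ∀ k, (T.F k).Ω → Prop) (hA : 0 < ul (T.pr A)) (s : MSys S M E ι) :
    (s.pull q).im p A hA = (s.im (p.comp q) A hA).pull (imj q p A) := rfl

theorem ppull_im (q : Pj W S) (p : Pj T W) (A : ∀ k, (T.F k).Ω → Prop) (X : Part S) :
    (X.pull q).im p A = (X.im (p.comp q) A).pull (imj q p A) := by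
  funext k
  show FSp.imap (p.fp k) (A k) ((q.fp k).map (X k)) =
    ((imj q p A).fp k).map (FSp.imap ((p.comp q).fp k) (A k) (X k))
  induction X k using fc_ind
  rfl

end

end Pool.Agent.Helper70.CPW
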