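import Pool.Agent.Helper70.CPW.Frw

/-! THE FLAG ZOOM of a pair with exact numbers and least carriers: existence, numbers, deficit. -/

set_option autoImplicit false

namespace Pool.Agent.Helper70.CPW

open Finset Filter Topology Matrix Pool.Agent.Helper69.RK Pool.Agent.Helper31.EC Pool.Agent.Helper31.EC.Sp
open Pool.Agent.Helper40.EL Pool.Agent.Helper84.MT Pool.Agent.Helper89.LX Pool.Agent.Helper3.LF
open Pool.Agent.Helper95.LF Pool.Agent.Helper36.AM Pool.Agent.Helper7.GZ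
open Pool.Agent.Helper7.RD (RW PZ volCO upz FD0 fdW)
open Pool.Agent.Helper87.NSL (cndR KnS)
open Pool.Agent.Helper81.CPY
open Pool.Agent.Helper52.MW (AllE_self)
open Pool.Agent.Helper29.MX

noncomputable section

variable {S : Sp} {N g r v : ℕ}

/-- a unit for the zoom at the window `c` -/
theorem exists_unit {w : Fin N → ℝ} {c : ℝ} (hw : ∀ i, w i * c < 1) : ∃ u : ℝ, 0 < u ∧ ∀ i, w i * c + u ≤ 1 := by
  have h1 : ∀ᶠ u : ℝ in 𝓝[>] 0, ∀ i, w i * c + u ≤ 1 := by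
    rw [eventually_all]
    intro i
    have h2 : ∀ᶠ u : ℝ in 𝓝 0, u < 1 - w i * c := gt_mem_nhds (by linarith [hw i])
    have h3 : ∀ᶠ u : ℝ in 𝓝[>] 0, u < 1 - w i * c := nhdsWithin_le_nhds h2
    exact h3.mono fun u hu => by linarith
  obtain ⟨u, hu, h0⟩ := (h1.and self_mem_nhdsWithin).exists
  exact ⟨u, h0, hu⟩

theorem exists_nat_bd (w : Fin N → ℝ) : ∃ κ : ℕ, ∀ j, w j ≤ κ := by
  obtain ⟨W, hW⟩ := (Set.finite_range w).bddAbove
  obtain ⟨κ, hκ⟩ := exists_nat_ge W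
  exact ⟨κ, fun j => (hW ⟨j, rfl⟩).trans hκ⟩

/-- THE FLAG ZOOM of a pair with exact numbers and a least carrier -/
theorem exists_fz (hN : 1 ≤ N) {A : MCl N} {C : ℕ → MCl N} (hok : Okc N A C) {m : ℕ} {w : Fin N → ℝ}
    (hw : ∀ i, 1 ≤ w i) {s : MSys S N (lin g) (Fin r)} {R : Rsl S} (hs : C m S g r s) (hpt : Pt s R)
    (hn : Num w s R) (hcar : Car w s R) (hI : InvH s R v) {c : ℝ} (hc : 0 < c) (hwc : ∀ i, w i * c < 1) :
    ∃ (u : ℝ) (hu : 0 < u) (h1 : c + u ≤ 1) (W : Rsl S) (κ : ℕ) (z : PZ (zuz W c u hc.le hu h1) s.Q N)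
      (t : MSys ((Lab.ofZ W).ovr u hu) N (lin κ) (Fin r)), (∀ i, w i * c + u ≤ 1) ∧ 1 ≤ κ ∧
        FZ R W c u hc.le hu h1 (fun j => w j * c) z t ∧ C m _ κ r t ∧ Inv v t ∧ Pt t (rover (Lab.ofZ W) u hu R) ∧
          Nonempty (Frm s.Q (Lab.ofZ W) fun j => w j * c) := by
  obtain ⟨u, hu, hwe⟩ := exists_unit hwc
  have h1 : c + u ≤ 1 := by
    have h2 := hwe ⟨0, hN⟩
    have h3 := hw ⟨0, hN⟩
    nlinarith
  obtain ⟨g', hg'⟩ := exists_nat_bd w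
  obtain ⟨X, hX⟩ := hcar c hc.le hwc
  obtain ⟨f⟩ := hX.fr
  obtain ⟨κ, hκ1, hκg, hκc⟩ : ∃ κ : ℕ, 1 ≤ κ ∧ g ≤ κ ∧ 1 ≤ c * (κ + 1) := by
    obtain ⟨κ, hκ⟩ := exists_nat_ge (1 / c)
    refine ⟨max 1 (max g κ), le_max_left _ _, (le_max_left _ _).trans (le_max_right _ _), ?_⟩
    have h2 : ((κ : ℕ) : ℝ) ≤ (max 1 (max g κ) : ℕ) := by exact_mod_cast (le_max_right _ _).trans (le_max_right _ _)
    rw [div_le_iff₀ hc] at hκ
    nlinarith
  have he : ∀ i, (s.lf i).e ≤ κ := fun i => by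
    have h2 := (s.lf i).he
    unfold Pool.Agent.Helper84.MT.lin at h2
    rw [zero_add, mul_one] at h2
    exact h2.trans hκg
  have ho := num_opt hn hc.le hwc
  obtain ⟨D1, hz⟩ := hok.zoom m g r (rwF (fdW f hc.le hu h1 hwe hw hg') hc (fun i => hX.kl.1 (some i)) κ hκ1 he hκc).D
  obtain ⟨z', W', e1, e2, -, e3, e4, -, e5, e6, e7, e8, -⟩ := hz S s hs R hpt
    (rwF (fdW f hc.le hu h1 hwe hw hg') hc (fun i => hX.kl.1 (some i)) κ hκ1 he hκc) (fun j => w j * c) X le_rfl rfl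
    hX.kl (rwF_flg _ _ _ _ _ _ _) (Or.inl ho)
  obtain ⟨κ', z, t, a1, a2, a3, a4, a5⟩ := unpack hc.le hu h1 z' e1 e3 e4 e5 e6 ho
    (fun S κ t => C m S κ r t) e7 hI (e8 (FD0.XV_lit _ hpt))
  exact ⟨u, hu, h1, W', κ', z, t, hwe, a1, a2, a3, a4, a5, ⟨frmF f e2⟩⟩

end

end Pool.Agent.Helper70.CPW
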