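import Pool.Agent.Helper70.CPW.Cpn
import Pool.Agent.Helper55.INV.Rwz

/-! ROW [CPN], closed: THE NUMBERS OF THE COPY of one type. -/

set_option autoImplicit false

namespace Pool.Agent.Helper70.CPW

open Pool.Agent.Helper84.MT Pool.Agent.Helper29.MX Pool.Agent.Helper31.EC

variable {S : Sp} {N g r v : ℕ}

/-- unit directions of flag zooms -/
theorem inv_hyp {s : MSys S N (lin g) (Fin r)} {R : Rsl S} (hi : Inv v s) (hR : Pt s R) : InvH s R v :=
  fun _ _ hF hO hK => Pool.Agent.Helper55.INV.inv_opt hR hK hF (Or.inl hO) hi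

/-- **ROW [CPN]** -/
theorem cpn (M : ℕ) : Pool.Agent.Helper8.CPY.CPN M := cpn_of fun _ _ _ _ _ _ hi hR => inv_hyp hi hR

/-- **ROW [CPYR]** -/
theorem cpyr (M : ℕ) : CPYR M := Pool.Agent.Helper8.CPY.cpyr_of (cpn M)

end Pool.Agent.Helper70.CPW
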