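import Pool.Agent.Helper70.CPW.Low
import Pool.Agent.Helper7.RD.Vz
import Pool.Agent.Helper4.FFR.Mean

/-! GRAM DETERMINANTS of the rows of a zoom: the volume of the form of the zoom is at least the Gram determinant of the
rows (`det (1 + P' P)`, not only `det P ^ 2`); so for rows which are optimal the Gram determinant is typically
`2 ^ (2 λ n)`, which is the hypothesis of the inner direction (helper49). -/

set_option autoImplicit false

namespace Pool.Agent.Helper70.CPW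

open Finset Filter Topology Matrix Pool.Agent.Helper69.RK Pool.Agent.Helper31.EC Pool.Agent.Helper31.EC.Sp
open Pool.Agent.Helper40.EL Pool.Agent.Helper84.MT Pool.Agent.Helper89.LX Pool.Agent.Helper3.LF
open Pool.Agent.Helper95.LF
open Pool.Agent.Helper3.PR (cutm cutm_cpd cutFD cut_typ exp_le)
open Pool.Agent.Helper14.MC (adf_sub gx vx vol_eq vx_UB vx_nonneg vol_opt_le vol_opt_eq)
open Pool.Agent.Helper7.GZ Pool.Agent.Helper7.RD

noncomputable section

/-- the Gram matrix of the rows -/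
theorem gram_pd {m M : ℕ} (P : Fin m → MvPolynomial (Fin M) ℝ) (x : Fin M → ℝ) :
    PdM (1 + (jac P x).transpose * jac P x) := by
  refine ⟨?_, fun v hv => ?_⟩
  · unfold Matrix.IsSymm
    rw [Matrix.transpose_add, Matrix.transpose_one, Matrix.transpose_mul, Matrix.transpose_transpose]
  · have h1 := self_pos hv
    have h2 : v ⬝ᵥ (((jac P x).transpose * jac P x) *ᵥ v) = (jac P x *ᵥ v) ⬝ᵥ (jac P x *ᵥ v) := by
      have h3 := dv_conj (jac P x) 1 v
      rwa [Matrix.mul_one, Matrix.one_mulVec] at h3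
    rw [dv_add, one_dv, h2]
    have h3 := self_nonneg' (jac P x *ᵥ v)
    linarith

/-- the Gram determinant and the determinant -/
theorem det_sq_le_gram {M : ℕ} (P : Fin M → MvPolynomial (Fin M) ℝ) (x : Fin M → ℝ) :
    (jac P x).det ^ 2 ≤ (1 + (jac P x).transpose * jac P x).det := by
  rcases eq_or_ne (jac P x).det 0 with h0 | h0
  · rw [h0]
    have := (gram_pd P x).det_pos
    simpa using this.le
  have hu : IsUnit (jac P x).det := isUnit_iff_ne_zero.2 h0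
  have h4 : ∀ v : Fin M → ℝ, v ⬝ᵥ (((jac P x).transpose * jac P x) *ᵥ v) =
      (jac P x *ᵥ v) ⬝ᵥ (jac P x *ᵥ v) := fun v => by
    have h3 := dv_conj (jac P x) 1 v
    rwa [Matrix.mul_one, Matrix.one_mulVec] at h3
  have hcp : PdM ((jac P x).transpose * jac P x) := by
    refine ⟨?_, fun v hv => ?_⟩
    · unfold Matrix.IsSymm
      rw [Matrix.transpose_mul, Matrix.transpose_transpose]
    · rw [h4]
      apply self_pos
      intro h1
      apply hv
      have h2 : (jac P x)⁻¹ *ᵥ (jac P x *ᵥ v) = v := by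
        rw [Matrix.mulVec_mulVec, Matrix.nonsing_inv_mul _ hu, Matrix.one_mulVec]
      rw [← h2, h1, Matrix.mulVec_zero]
  have h1 := det_mono hcp (gram_pd P x).1 fun v => by
    rw [dv_add, one_dv]
    have := self_nonneg' v
    linarith
  rw [Matrix.det_mul, Matrix.det_transpose] at h1
  rw [pow_two]
  exact h1

/-- the Gram determinant of the rows is a lower bound for the volume of the pulled back form -/
theorem gram_le_GQ {m M D DD p : ℕ} (P : Fin m → MvPolynomial (Fin M) ℝ) (hP : ∀ i, (P i).totalDegree ≤ p)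
    (hDD : D * p ≤ DD) (hD : 1 ≤ D) (B : Matrix (Mon m D) (Mon m D) ℝ) (hB : B.IsSymm)
    (hB1 : ∀ x, x ⬝ᵥ x ≤ x ⬝ᵥ (B *ᵥ x)) (r r' : ℝ) (x : Fin M → ℝ) :
    (1 + (jac P x).transpose * jac P x).det ≤ GQ r (1 + sbf DD P r' B) x := by
  have hB0 : ∀ x : Mon m D → ℝ, 0 ≤ x ⬝ᵥ (B *ᵥ x) := fun x => (self_nonneg' x).trans (hB1 x)
  have hs0 : ∀ x : Mon M DD → ℝ, 0 ≤ x ⬝ᵥ ((1 + sbf DD P r' B) *ᵥ x) := fun x => by
    rw [dv_add, Matrix.one_mulVec]
    have h1 := self_nonneg' x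
    have h2 := sbf_nonneg (DD := DD) P r' hB0 x
    linarith
  have hss : (1 + sbf DD P r' B).IsSymm := Matrix.isSymm_one.add (sbf_symm P r' hB)
  refine det_mono (gram_pd P x) (one_Jq_symm r hss x) fun v => ?_
  have h0 : v ⬝ᵥ (((jac P x).transpose * jac P x) *ᵥ v) = (jac P x *ᵥ v) ⬝ᵥ (jac P x *ᵥ v) := by
    have h3 := dv_conj (jac P x) 1 v
    rwa [Matrix.mul_one, Matrix.one_mulVec] at h3
  rw [dv_add, dv_add, one_dv, h0, jac_mul]
  have h2 := Jq_sbf (DD := DD) P hP hDD B hB0 r r' x v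
  have h3 := Pool.Agent.Helper26.MZ.Jq_ge_self hD r' hB1 (fun i => MvPolynomial.eval x (P i)) (dP P x v)
  have h4 : v ⬝ᵥ (Jq r (sbf DD P r' B) x *ᵥ v) ≤ v ⬝ᵥ (Jq r (1 + sbf DD P r' B) x *ᵥ v) := by
    apply Jq_mono
    intro y
    rw [dv_add, Matrix.one_mulVec]
    have := self_nonneg' y
    linarith
  linarith

/-- the pointwise inequality -/
theorem gx_gram {m M D DD p : ℕ} (P : Fin m → MvPolynomial (Fin M) ℝ) (hP : ∀ i, (P i).totalDegree ≤ p)
    (hDD : D * p ≤ DD) (hD : 1 ≤ D) (B : Matrix (Mon m D) (Mon m D) ℝ) {c : ℝ} (hB : Cpd c B) {r r' n lam C : ℝ}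
    (hn : 0 < n) (hC : 0 ≤ C) (x : Fin M → ℝ)
    (hdet : 2 ^ (2 * lam * n) ≤ C * (1 + (jac P x).transpose * jac P x).det) :
    lam ≤ Real.logb 2 (GQ r (1 + sbf DD P r' B) x) / (2 * n) + Real.logb 2 (C + 2) / (2 * n) := by
  have h2 := gram_le_GQ (DD := DD) P hP hDD hD B hB.1 hB.2.1 r r' x
  have h3 : 0 < (1 + (jac P x).transpose * jac P x).det := (gram_pd P x).det_pos
  have hG : 0 < GQ r (1 + sbf DD P r' B) x := h3.trans_le h2
  have key : 2 ^ (2 * lam * n) ≤ (C + 2) * GQ r (1 + sbf DD P r' B) x :=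
    hdet.trans (mul_le_mul (by linarith) h2 h3.le (by linarith))
  have h4 := Real.logb_le_logb_of_le (b := 2) (by norm_num) (by positivity) key
  rw [Real.logb_mul (by linarith) hG.ne', Real.logb_rpow (by norm_num) (by norm_num)] at h4
  rw [← add_div, le_div_iff₀ (by positivity)]
  linarith

variable {S : Sp} {M M' : ℕ} {Z : ZU S} {Q : S.VV M} (z : PZ Z Q M')

/-- the volume deficit of the form of the zoom is at least the mean of the Gram exponents -/
theorem vol_out_gram {κ κ' : Type} [Finite κ] {A : κ → Part S} {B : κ' → Part Z.sp} (hl : Z.l.DMf A)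
    (hAB : ∀ i, ∃ j, PLe (B j) (upz Z (A i))) {D DD : ℕ} (hD : 1 ≤ D) (hDD : D * z.D ≤ DD)
    {y : ∀ k, FD (Z.sp.F k) (Mon M' D)} (hy : (gaq z.X D).Adf B y)
    (lam : ∀ k, (Z.l k).T.Ω → ℝ) (Cl : ℝ) (hlb : ∀ᶠ k in UF, ∀ ω, (Z.l k).T.μ ω ≠ 0 → |lam k ω| ≤ Cl)
    (C : ℕ → ℝ) (hC : S.Sub C) (hdet : Typ (S := Z.l.sp) (fun k (ω : (Z.l k).T.Ω) =>
      2 ^ (2 * lam k ω * (S.F k).n) ≤ C k * (1 + (jac (z.R.p k ω) (Q.v k ((Z.l k).p.π ω))).transpose *
        jac (z.R.p k ω) (Q.v k ((Z.l k).p.π ω))).det)) :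
    vol Q DD (z.out DD y) ≤ M - ul (fun k => ∑ ω, (Z.l k).T.μ ω * lam k ω) := by
  have hx := z.out_ad hl hAB hDD hy
  obtain ⟨C', hbd'⟩ := gx_bd hx
  have hUx := vx_UB hx
  -- the averages
  have e1 : ∀ k, ∑ ω, (y k).l.T.μ ω * lam k ((y k).l.p.π ω) = ∑ ω, (Z.l k).T.μ ω * lam k ω := fun k =>
    sum_push (y k).l.p (fun ω => lam k ω)
  have hUl : UB (fun k => ∑ ω, (Z.l k).T.μ ω * lam k ω) := by
    refine ⟨Cl, ?_⟩
    filter_upwards [hlb] with k hk
    refine (Finset.abs_sum_le_sum_abs _ _).trans ?_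
    have h1 : ∀ ω ∈ (Finset.univ : Finset (Z.l k).T.Ω), |(Z.l k).T.μ ω * lam k ω| ≤ (Z.l k).T.μ ω * Cl := by
      intro ω _
      rw [abs_mul, abs_of_nonneg ((Z.l k).T.nn ω)]
      by_cases h0 : (Z.l k).T.μ ω = 0
      · rw [h0, zero_mul, zero_mul]
      · exact mul_le_mul_of_nonneg_left (hk ω h0) ((Z.l k).T.nn ω)
    refine (Finset.sum_le_sum h1).trans (le_of_eq ?_)
    rw [← Finset.sum_mul, Pool.Agent.Helper3.PR.sum_mu, one_mul]
  have hUg : UB (fun k => ∑ ω, (y k).l.T.μ ω * lam k ((y k).l.p.π ω)) := by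
    have h2 : (fun k => ∑ ω, (y k).l.T.μ ω * lam k ((y k).l.p.π ω)) =
        fun k => ∑ ω, (Z.l k).T.μ ω * lam k ω := funext e1
    rw [h2]
    exact hUl
  have hE' : Tendsto (fun k => (y k).l.T.pb (fun ω => ¬
      2 ^ (2 * lam k ((y k).l.p.π ω) * (S.F k).n) ≤ C k * (1 + (jac (z.R.p k ((y k).l.p.π ω))
        (Q.v k ((Z.l k).p.π ((y k).l.p.π ω)))).transpose * jac (z.R.p k ((y k).l.p.π ω))
        (Q.v k ((Z.l k).p.π ((y k).l.p.π ω)))).det)) UF (𝓝 0) := by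
    refine Tendsto.congr (fun k => ?_) hdet
    exact (pb_push (y k).l.p _).symm
  have hE2 : Tendsto (fun k => (y k).l.T.pb (fun ω => ¬ (Cpd ((gaq Q DD).cp k) (z.zfm DD y k ω) ∧
      2 ^ (2 * lam k ((y k).l.p.π ω) * (S.F k).n) ≤ C k * (1 + (jac (z.R.p k ((y k).l.p.π ω))
        (Q.v k ((Z.l k).p.π ((y k).l.p.π ω)))).transpose * jac (z.R.p k ((y k).l.p.π ω))
        (Q.v k ((Z.l k).p.π ((y k).l.p.π ω)))).det))) UF (𝓝 0) :=
    typ_and (S := (lb y).sp) (z.out_typ DD hDD hy) hE'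
  have key := ul_avg_le (fun k => (y k).l.T) (fun k ω => gx Q k ((z.out DD y k).l.p.π ω) ((z.out DD y k).g ω))
    (fun k ω => lam k ((y k).l.p.π ω))
    (fun k ω => Cpd ((gaq Q DD).cp k) (z.zfm DD y k ω) ∧
      2 ^ (2 * lam k ((y k).l.p.π ω) * (S.F k).n) ≤ C k * (1 + (jac (z.R.p k ((y k).l.p.π ω))
        (Q.v k ((Z.l k).p.π ((y k).l.p.π ω)))).transpose * jac (z.R.p k ((y k).l.p.π ω))
        (Q.v k ((Z.l k).p.π ((y k).l.p.π ω)))).det)
    (fun k => (Real.logb 2 (C k + 2) + 0 + 0 * Real.logb 2 (0 + 2) + 0) / (2 * (S.F k).n))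
    (tend_t hC (S.Sub_const le_rfl) _ _ _) Cl hE2 (by
      filter_upwards [hy 1 one_pos, z.R.pz_ev, hC.1] with k h2 hpz hC0 ω hω hE
      have a0 := z.out_g DD k ω hE.1
      have e0 : z.R.pz k ((y k).l.p.π ω) = z.R.p k ((y k).l.p.π ω) := hpz _
      have hdd : 2 ^ (2 * lam k ((y k).l.p.π ω) * (S.F k).n) ≤ C k * (1 + (jac (z.R.pz k ((y k).l.p.π ω))
        (Q.v k ((Z.l k).p.π ((y k).l.p.π ω)))).transpose * jac (z.R.pz k ((y k).l.p.π ω))
        (Q.v k ((Z.l k).p.π ((y k).l.p.π ω)))).det := by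
        rw [e0]
        exact hE.2
      have a1 := gx_gram (DD := DD) (z.R.pz k ((y k).l.p.π ω)) (z.R.pz_deg k _) hDD hD ((y k).g ω)
        (h2.2.1 ω hω).1 (r := S.dl 1 k) (r' := Z.sp.dl 1 k) (S.F k).pos hC0
        (Q.v k ((Z.l k).p.π ((y k).l.p.π ω))) hdd
      rw [a0, add_zero, zero_mul, add_zero, add_zero]
      exact a1) (by
      filter_upwards [hlb] with k h3 ω hω
      exact (le_abs_self _).trans (h3 ((y k).l.p.π ω) ((y k).l.p.supp ω hω))) (by
      filter_upwards [hbd'] with k h2 ω hω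
      exact (h2 ω hω).1) hUg hUx
  have key2 : ul (fun k => ∑ ω, (Z.l k).T.μ ω * lam k ω) ≤ ul (vx Q (z.out DD y)) := by
    have e3 : (fun k => ∑ ω, (Z.l k).T.μ ω * lam k ω) =
        fun k => ∑ ω, (y k).l.T.μ ω * lam k ((y k).l.p.π ω) := funext fun k => (e1 k).symm
    rw [e3]
    exact key
  rw [vol_eq]
  linarith

/-- the mean of the Gram exponents is at most the volume deficit of the exact labels -/
theorem gram_mean {κ : Type} [Finite κ] {A : κ → Part S} {B : Part S} (hl : Z.l.DMf A) (hB : (LC.kz B).ev Z.l)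
    (lam : ∀ k, (Z.l k).T.Ω → ℝ) (Cl : ℝ) (hlb : ∀ᶠ k in UF, ∀ ω, (Z.l k).T.μ ω ≠ 0 → |lam k ω| ≤ Cl)
    (C : ℕ → ℝ) (hC : S.Sub C) (hdet : Typ (S := Z.l.sp) (fun k (ω : (Z.l k).T.Ω) =>
      2 ^ (2 * lam k ω * (S.F k).n) ≤ C k * (1 + (jac (z.R.p k ω) (Q.v k ((Z.l k).p.π ω))).transpose *
        jac (z.R.p k ω) (Q.v k ((Z.l k).p.π ω))).det)) :
    volCO (LC.kz B) A Q ≤ M - ul (fun k => ∑ ω, (Z.l k).T.μ ω * lam k ω) := by
  have hAB : ∀ i, ∃ j, PLe (upz Z (A j)) (upz Z (A i)) := fun i => ⟨i, PLe.refl _⟩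
  have hy : (gaq z.X 1).AdfK (LC.kz (upz Z B)) (fun i => upz Z (A i)) (fun k => trivFD (Z.sp.F k)) :=
    (gaq z.X 1).triv_AdfK (LC.kz (upz Z B)) (fun i => upz Z (A i))
  have h1 := z.out_adK hl hAB hB (D := 1) (DD := 1 * z.D) le_rfl hy
  exact ((volCO_le (1 * z.D)).trans (volC_le_of h1)).trans (vol_out_gram z hl hAB le_rfl le_rfl hy.1 lam Cl hlb C hC hdet)

/-- OPTIMAL ROWS: if the volume of the exact labels is at least `M - λ` and the Gram determinant is typically at least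
`2 ^ (2 λ n)`, it is typically equal to `2 ^ (2 λ n)` -/
theorem gram_typ {κ : Type} [Finite κ] {A : κ → Part S} {B : Part S} (hl : Z.l.DMf A) (hB : (LC.kz B).ev Z.l)
    (lam : ℝ) (hvol : M - lam ≤ volCO (LC.kz B) A Q)
    (hlow : ∀ e : ℝ, 0 < e → Typ (S := Z.l.sp) (fun k (ω : (Z.l k).T.Ω) => 2 ^ (2 * (lam - e) * (S.F k).n) ≤
      (1 + (jac (z.R.p k ω) (Q.v k ((Z.l k).p.π ω))).transpose *
        jac (z.R.p k ω) (Q.v k ((Z.l k).p.π ω))).det)) (e : ℝ) (he : 0 < e) :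
    Typ (S := Z.l.sp) (fun k (ω : (Z.l k).T.Ω) => (1 + (jac (z.R.p k ω) (Q.v k ((Z.l k).p.π ω))).transpose *
        jac (z.R.p k ω) (Q.v k ((Z.l k).p.π ω))).det ≤ 2 ^ (2 * (lam + e) * (S.F k).n)) := by
  set G : ∀ k, (Z.l k).T.Ω → ℝ := fun k ω => (1 + (jac (z.R.p k ω) (Q.v k ((Z.l k).p.π ω))).transpose *
        jac (z.R.p k ω) (Q.v k ((Z.l k).p.π ω))).det with hG
  set f : ∀ k, (Z.l k).T.Ω → ℝ := fun k ω => min (Real.logb 2 (G k ω) / (2 * (S.F k).n)) (lam + 1) with hf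
  have hG0 : ∀ k ω, 0 < G k ω := fun k ω => (gram_pd _ _).det_pos
  have hG1 : ∀ k ω, 1 ≤ G k ω := fun k ω => one_le_det (gram_pd _ _).1 fun v => by
    rw [dv_add, one_dv]
    have h2 : v ⬝ᵥ (((jac (z.R.p k ω) (Q.v k ((Z.l k).p.π ω))).transpose *
        jac (z.R.p k ω) (Q.v k ((Z.l k).p.π ω))) *ᵥ v) = (jac (z.R.p k ω) (Q.v k ((Z.l k).p.π ω)) *ᵥ v) ⬝ᵥ
          (jac (z.R.p k ω) (Q.v k ((Z.l k).p.π ω)) *ᵥ v) := by
      have h3 := dv_conj (jac (z.R.p k ω) (Q.v k ((Z.l k).p.π ω))) 1 v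
      rwa [Matrix.mul_one, Matrix.one_mulVec] at h3
    rw [h2]
    have h3 := self_nonneg' (jac (z.R.p k ω) (Q.v k ((Z.l k).p.π ω)) *ᵥ v)
    linarith
  have hf0 : ∀ k ω, |f k ω| ≤ |lam| + 1 := by
    intro k ω
    have h1 : 0 ≤ Real.logb 2 (G k ω) / (2 * (S.F k).n) :=
      div_nonneg (Real.logb_nonneg (by norm_num) (hG1 k ω)) (by have := (S.F k).pos; positivity)
    have h2 := neg_abs_le lam
    have h3 := le_abs_self lam
    have h4 := abs_nonneg lam
    rw [abs_le]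
    constructor
    · refine le_min (by linarith) (by linarith)
    · exact (min_le_right _ _).trans (by linarith)
  have hmean := gram_mean z hl hB f (|lam| + 1) (Eventually.of_forall fun k ω _ => hf0 k ω) (fun _ => 1)
    (S.Sub_const zero_le_one) (by
      refine Typ.mono (S := Z.l.sp) (Typ_true (S := Z.l.sp)) (Eventually.of_forall fun k ω _ _ => ?_)
      show 2 ^ (2 * f k ω * (S.F k).n) ≤ 1 * G k ω
      have hn := (S.F k).pos
      have h1 : 2 * f k ω * (S.F k).n ≤ Real.logb 2 (G k ω) := by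
        have h2 : f k ω ≤ Real.logb 2 (G k ω) / (2 * (S.F k).n) := min_le_left _ _
        rw [le_div_iff₀ (by positivity)] at h2
        linarith
      rw [one_mul]
      refine (Real.rpow_le_rpow_of_exponent_le (by norm_num) h1).trans (le_of_eq ?_)
      exact Real.rpow_logb (by norm_num) (by norm_num) (hG0 k ω))
  have h1 : ul (fun k => ∑ ω, (Z.l k).T.μ ω * f k ω) ≤ lam := by linarith
  have h2 : ul (fun k => ∑ ω, (Z.l k).T.μ ω * (fun (_ : ℕ) (_ : (Z.l k).T.Ω) => lam) k ω) = lam := by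
    have h6 : (fun k => ∑ ω, (Z.l k).T.μ ω * (fun (_ : ℕ) (_ : (Z.l k).T.Ω) => lam) k ω) = fun _ => lam := by
      funext k
      rw [← Finset.sum_mul]
      have h7 : ∑ ω, (Z.l k).T.μ ω = 1 := (Z.l k).T.ms
      rw [h7, one_mul]
    rw [h6, ul_const]
  have key := Pool.Agent.Helper4.FFR.typ_abs Z.l.sp (fun k _ => lam) f (|lam| + 1)
    (Eventually.of_forall fun k ω _ => by
      have := abs_nonneg lam
      linarith) (Eventually.of_forall fun k ω _ => hf0 k ω) (by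
      intro d hd
      refine Typ.mono (S := Z.l.sp) (hlow d hd) (Eventually.of_forall fun k ω _ h => ?_)
      show lam ≤ f k ω + d
      have hn := (S.F k).pos
      have h3 : 2 * (lam - d) * (S.F k).n ≤ Real.logb 2 (G k ω) := by
        rw [Real.le_logb_iff_rpow_le (by norm_num) (hG0 k ω)]
        exact h
      have h4 : lam - d ≤ Real.logb 2 (G k ω) / (2 * (S.F k).n) := by
        rw [le_div_iff₀ (by positivity)]
        linarith
      have h5 : lam - d ≤ f k ω := le_min h4 (by linarith)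
      linarith) (h1.trans (le_of_eq h2.symm)) (min e (1 / 2)) (lt_min he (by norm_num))
  refine Typ.mono (S := Z.l.sp) key (Eventually.of_forall fun k ω _ h => ?_)
  show G k ω ≤ 2 ^ (2 * (lam + e) * (S.F k).n)
  have hn := (S.F k).pos
  have h3 := (abs_le.1 h).1
  have h4 : f k ω ≤ lam + min e (1 / 2) := by linarith
  have h5 : min e (1 / 2) ≤ e := min_le_left _ _
  have h6 : min e (1 / 2) ≤ 1 / 2 := min_le_right _ _
  have h7 : Real.logb 2 (G k ω) / (2 * (S.F k).n) ≤ lam + e := by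
    rcases min_choice (Real.logb 2 (G k ω) / (2 * (S.F k).n)) (lam + 1) with h8 | h8
    · have h9 : f k ω = Real.logb 2 (G k ω) / (2 * (S.F k).n) := h8
      linarith
    · have h9 : f k ω = lam + 1 := h8
      linarith
  rw [div_le_iff₀ (by positivity)] at h7
  rw [← Real.logb_le_iff_le_rpow (by norm_num) (hG0 k ω)]
  linarith

/-- rows with a large Jacobian -/
theorem gram_typ_det (z : PZ Z Q M) {κ : Type} [Finite κ] {A : κ → Part S} {B : Part S} (hl : Z.l.DMf A)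
    (hB : (LC.kz B).ev Z.l) (lam : ℝ) (hvol : M - lam ≤ volCO (LC.kz B) A Q)
    (hlow : ∀ e : ℝ, 0 < e → Typ (S := Z.l.sp) (fun k (ω : (Z.l k).T.Ω) => 2 ^ (2 * (lam - e) * (S.F k).n) ≤
      (jac (z.R.p k ω) (Q.v k ((Z.l k).p.π ω))).det ^ 2)) (e : ℝ) (he : 0 < e) :
    Typ (S := Z.l.sp) (fun k (ω : (Z.l k).T.Ω) => (1 + (jac (z.R.p k ω) (Q.v k ((Z.l k).p.π ω))).transpose *
        jac (z.R.p k ω) (Q.v k ((Z.l k).p.π ω))).det ≤ 2 ^ (2 * (lam + e) * (S.F k).n)) := by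
  refine gram_typ z hl hB lam hvol (fun d hd => ?_) e he
  refine Typ.mono (S := Z.l.sp) (hlow d hd) (Eventually.of_forall fun k ω _ h => h.trans ?_)
  exact det_sq_le_gram _ _

end

end Pool.Agent.Helper70.CPW
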