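import Pool.Agent.Helper84.MT.Row
import Pool.Agent.Helper49.KL.Rel

/-! THE TRIVIAL FORM has bounded gradients: `GrB` with top unit `1`. -/

set_option autoImplicit false

namespace Pool.Agent.Helper70.CPW

open Finset Filter Topology Matrix Pool.Agent.Helper69.RK Pool.Agent.Helper31.EC Pool.Agent.Helper31.EC.Sp
open Pool.Agent.Helper40.EL Pool.Agent.Helper84.MT Pool.Agent.Helper89.LX Pool.Agent.Helper3.LF

noncomputable section

variable {S : Sp} {M D N : ℕ}

theorem dd_le {x : Fin N → ℝ} {K : ℝ} (hK : 1 ≤ K) (hx : ∀ i, |x i| ≤ K) (i : Fin N) (a : Mon N D) :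
    |dd i x a| ≤ D * K ^ D := by
  have h0 : a.mon.totalDegree ≤ D := by
    unfold Mon.mon
    rw [MvPolynomial.totalDegree_monomial _ one_ne_zero]
    exact a.ex_sum
  have h1 := Pool.Agent.Helper77.WDG.eval_le_nrm (P := MvPolynomial.pderiv i a.mon) hK
    ((Pool.Agent.Helper49.KL.deg_pderiv i a.mon).trans h0) (u := x) (fun i _ => hx i)
  have h2 := Pool.Agent.Helper49.KL.nrm_pderiv i a.mon h0
  have h3 : Pool.Agent.Helper77.WDG.nrm a.mon = 1 := by
    unfold Mon.mon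
    rw [Pool.Agent.Helper77.WDG.nrm_monomial, abs_one]
  rw [h3, mul_one] at h2
  exact h1.trans (mul_le_mul_of_nonneg_right h2 (by positivity))

theorem gam_one_le (r : ℝ) (h0 : 0 ≤ r) {q : Fin N → ℝ} {K : ℝ} (hK : 1 ≤ K) (hq : ∀ i, |q i| + r ≤ K) :
    gam r (1 : Matrix (Mon N D) (Mon N D) ℝ) q ≤
      (N * Fintype.card (Fin N → Fin (D + 1)) * Fintype.card (Mon N D) * D ^ 2 : ℝ) * K ^ (2 * D) := by
  have h1 : ∀ (i : Fin N) (j : Fin N → Fin (D + 1)),
      dd i (nodp D q r j) ⬝ᵥ ((1 : Matrix (Mon N D) (Mon N D) ℝ) *ᵥ dd i (nodp D q r j)) ≤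
        Fintype.card (Mon N D) * (D * K ^ D) ^ 2 := by
    intro i j
    rw [Matrix.one_mulVec]
    unfold dotProduct
    have h2 : ∀ a : Mon N D, dd i (nodp D q r j) a * dd i (nodp D q r j) a ≤ (D * K ^ D) ^ 2 := by
      intro a
      have h3 : ∀ k, |nodp D q r j k| ≤ K := by
        intro k
        have h4 : nodp D q r j k = q k + r * nod D (j k) := rfl
        have h5 : 0 ≤ nod D (j k) := nod_nonneg _ _
        have h6 : nod D (j k) ≤ 1 := nod_le D _ (Nat.le_of_lt_succ (j k).2)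
        rw [h4]
        refine (abs_add_le _ _).trans (le_trans ?_ (hq k))
        rw [abs_mul, abs_of_nonneg h0, abs_of_nonneg h5]
        nlinarith [abs_nonneg (q k)]
      have h4 := dd_le hK h3 i a
      rw [← pow_two, ← sq_abs]
      exact pow_le_pow_left₀ (abs_nonneg _) h4 2
    refine (Finset.sum_le_sum fun a _ => h2 a).trans (le_of_eq ?_)
    rw [Finset.sum_const, Finset.card_univ, nsmul_eq_mul]
  unfold gam
  calc ∑ i, ∑ j : Fin N → Fin (D + 1), dd i (nodp D q r j) ⬝ᵥ ((1 : Matrix (Mon N D) (Mon N D) ℝ) *ᵥ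
        dd i (nodp D q r j))
      ≤ ∑ _i : Fin N, ∑ _j : Fin N → Fin (D + 1), (Fintype.card (Mon N D) * (D * K ^ D) ^ 2 : ℝ) :=
        Finset.sum_le_sum fun i _ => Finset.sum_le_sum fun j _ => h1 i j
    _ = _ := by
        rw [Finset.sum_const, Finset.sum_const, Finset.card_univ, Finset.card_univ, Fintype.card_fin, nsmul_eq_mul,
          nsmul_eq_mul]
        ring

/-- THE TRIVIAL FORM -/
theorem GrB_triv (Q : S.VV M) : GrB Q (fun k => (trivFD (S.F k) : FD (S.F k) (Mon M D))) 1 := by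
  obtain ⟨K, hK, hb⟩ := Q.bd
  refine GrB.of_gam ((gaq Q D).triv_Adf (fun i : Empty => i.elim)).fm le_rfl
    ⟨fun k => (M * Fintype.card (Fin M → Fin (D + 1)) * Fintype.card (Mon M D) * D ^ 2 : ℝ) * (K k + 1) ^ (2 * D),
      (S.Sub_const (by positivity)).mul (Sub_pow' (hK.add (S.Sub_const zero_le_one)) _), ?_⟩
  refine Typ.mono (S := Lab.sp (fun k => (trivFD (S.F k) : FD (S.F k) (Mon M D)).l)) Typ_true ?_
  filter_upwards [hb, hK.1] with k hk hK0 ω hω _
  have h1 : ∀ i, |Q.v k ω i| + S.dl 1 k ≤ K k + 1 := fun i => add_le_add (hk ω hω i) (dl_one_le S k)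
  have h2 := gam_one_le (D := D) (S.dl 1 k) (S.dl_pos 1 k).le (by linarith) h1
  have h3 : S.dl 1 k / S.dl 1 k = 1 := div_self (S.dl_pos 1 k).ne'
  rw [h3, one_pow, mul_one]
  exact h2

end

end Pool.Agent.Helper70.CPW
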