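import Pool.Agent.Helper81.CPY.Zmc
import Pool.Agent.Helper7.RD.Sys

/-! ROW ZOOMS OVER LITERAL LABELS: pulled to extensions, restricted to events of extensions, and the zoom of a system with
copies of leaves. -/

set_option autoImplicit false

namespace Pool.Agent.Helper70.CPW

open Finset Filter Topology Matrix Pool.Agent.Helper69.RK Pool.Agent.Helper31.EC Pool.Agent.Helper31.EC.Sp
open Pool.Agent.Helper40.EL Pool.Agent.Helper84.MT Pool.Agent.Helper89.LX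
open Pool.Agent.Helper81.CPY Pool.Agent.Helper7.GZ Pool.Agent.Helper7.RD

noncomputable section

variable {S T : Sp} {M M' D : ℕ} {E E' : ℕ → ℕ} {ι κ : Type} {Λ u : ℝ}

/-- the zoom unit over a literal label -/
abbrev zuz (Z : ∀ k, Setoid (S.F k).Ω) (c u : ℝ) (h0 : 0 ≤ c) (hu : 0 < u) (h1 : c + u ≤ 1) : ZU S :=
  ⟨Lab.ofZ Z, c, u, h0, hu, h1⟩

/-! ### extensions -/

theorem sub_of_pj (p : Pj T S) {K : ℕ → ℝ} (hK : T.Sub K) : S.Sub K := by
  refine ⟨hK.1, ?_⟩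
  have h1 : (fun k => Real.logb 2 (K k + 2) / (S.F k).n) = fun k => Real.logb 2 (K k + 2) / (T.F k).n := by
    funext k
    rw [p.hn k]
  rw [h1]
  exact hK.2

section pull

variable (p : Pj T S) {W : ∀ k, Setoid (T.F k).Ω} {Z : ∀ k, Setoid (S.F k).Ω}
    (hW : ∀ k ω ω', (T.F k).μ ω ≠ 0 → (T.F k).μ ω' ≠ 0 → (T.F k).Z ω ω' → (W k ω ω' ↔ Z k (p.π k ω) (p.π k ω')))

include hW in
/-- rows over a literal label, pulled to an extension -/
def rowsP {Q : S.VV M} (R : Rows Q (Lab.ofZ Z) M' D Λ u) : Rows (p.vv Q) (Lab.ofZ W) M' D Λ u where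
  p := fun k ω => R.p k (p.π k ω)
  deg := fun k ω => R.deg k (p.π k ω)
  fn := by
    filter_upwards [R.fn] with k hk ω ω' a b c d
    exact hk _ _ (p.supp k ω a) (p.supp k ω' b) ((p.hZ k ω ω' a b).1 c) ((hW k ω ω' a b c).1 d)
  cf := by
    obtain ⟨K, hK, h⟩ := R.cf
    refine ⟨K, p.sub hK, ?_⟩
    filter_upwards [h] with k hk ω hω j a
    rw [p.hn k]
    exact hk _ (p.supp k ω hω) j a
  bd := by
    obtain ⟨K, hK, h⟩ := R.bd
    exact ⟨K, p.sub hK, typ_pull p h⟩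
  lp := fun L hL => by
    obtain ⟨K, hK, h⟩ := R.lp L (sub_of_pj p hL)
    refine ⟨K, p.sub hK, ?_⟩
    have h1 := typ_pull p h
    refine Typ.mono h1 (Eventually.of_forall fun k ω _ hh y hy j => ?_)
    simp_rw [pj_dl p] at hy ⊢
    exact hh y hy j

/-- two points which are related by rows of a literal label, pulled to an extension -/
def pzP {Q : S.VV M} {c u : ℝ} {h0 : 0 ≤ c} {hu : 0 < u} {h1 : c + u ≤ 1} (z : PZ (zuz Z c u h0 hu h1) Q M') :
    PZ (zuz W c u h0 hu h1) (p.vv Q) M' where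
  D := z.D
  Λ := z.Λ
  R := rowsP p hW z.R
  X := (pjz p hW u hu).vv z.X
  hX := by
    obtain ⟨K, hK, h⟩ := z.hX
    refine ⟨K, p.sub hK, ?_⟩
    have h1 := typ_pull p h
    refine Typ.mono (S := T) h1 (Eventually.of_forall fun k ω _ hh j => ?_)
    have h2 := hh j
    show _ ≤ K k * T.dl u k
    rw [pj_dl p]
    exact h2

end pull

/-! ### events of extensions -/

section im

variable (p : Pj T S) (A : ∀ k, (T.F k).Ω → Prop) {Z : ∀ k, Setoid (S.F k).Ω}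

/-- rows over a literal label, on an event of an extension -/
def rowsI (hA : 0 < ul (T.pr A)) {Q : S.VV M} (R : Rows Q (Lab.ofZ Z) M' D Λ u) :
    Rows (Q.im p A) (Lab.ofZ (S := Sp.im p A) Z) M' D Λ u where
  p := R.p
  deg := R.deg
  fn := by
    filter_upwards [R.fn] with k hk ω ω' a b c d
    exact hk _ _ (FSp.im_supp (p.fp k) (A k) ω a) (FSp.im_supp (p.fp k) (A k) ω' b) c d
  cf := by
    obtain ⟨K, hK, h⟩ := R.cf
    refine ⟨K, hK, ?_⟩
    filter_upwards [h] with k hk ω hω j a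
    exact hk _ (FSp.im_supp (p.fp k) (A k) ω hω) j a
  bd := by
    obtain ⟨K, hK, h⟩ := R.bd
    exact ⟨K, hK, typ_im p A hA h⟩
  lp := fun L hL => by
    obtain ⟨K, hK, h⟩ := R.lp L hL
    exact ⟨K, hK, typ_im p A hA h⟩

/-- the point of the zoom on the event -/
abbrev xI {e : ℝ} {he : 0 < e} (X : ((Lab.ofZ Z).ovr e he).VV M') : ((Lab.ofZ (S := Sp.im p A) Z).ovr e he).VV M' :=
  VV.im (S := S.chg Z e he) (pjb p Z e he) A X

/-- two points which are related by rows of a literal label, on an event of an extension -/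
def pzI (hA : 0 < ul (T.pr A)) {Q : S.VV M} {c u : ℝ} {h0 : 0 ≤ c} {hu : 0 < u} {h1 : c + u ≤ 1}
    (z : PZ (zuz Z c u h0 hu h1) Q M') : PZ (zuz (S := Sp.im p A) Z c u h0 hu h1) (Q.im p A) M' where
  D := z.D
  Λ := z.Λ
  R := rowsI p A hA z.R
  X := xI p A z.X
  hX := by
    obtain ⟨K, hK, h⟩ := z.hX
    exact ⟨K, hK, typ_im p A hA h⟩

/-- window relations on an event -/
theorem winI (hA : 0 < ul (T.pr A)) {s : MSys S M E ι} {c e : ℝ} {he : 0 < e}
    {t : MSys ((Lab.ofZ Z).ovr e he) M' E' ι} {b : ℝ} {i : ι}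
    (h : PLe ((t.lf i).win b) ((Lab.ofZ Z).up e he ((s.lf i).win c)) ∧
      PLe ((Lab.ofZ Z).up e he ((s.lf i).win c)) ((t.lf i).win b)) :
    PLe (((zim p A hA t).lf i).win b) ((Lab.ofZ (S := Sp.im p A) Z).up e he (((s.im p A hA).lf i).win c)) ∧
      PLe ((Lab.ofZ (S := Sp.im p A) Z).up e he (((s.im p A hA).lf i).win c)) (((zim p A hA t).lf i).win b) := by
  rw [up_chP, win_chP] at h
  have e1 : ((s.im p A hA).lf i).win c = ((s.lf i).win c).im p A := rfl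
  rw [e1, up_chP, zim_win]
  exact ⟨chP_im p A hA h.1, chP_im p A hA h.2⟩

end im

/-! ### the zoom of a system with copies -/

section cpy

variable {s : MSys S M E ι} {α : ℕ → Type} (C : ∀ k, (S.F k).Ω → α k) {Z' : ∀ k, Setoid (S.F k).Ω}

theorem pbZ (k : ℕ) (ω ω' : ((cpd C).sp.F k).Ω) (_ : ((cpd C).sp.F k).μ ω ≠ 0) (_ : ((cpd C).sp.F k).μ ω' ≠ 0)
    (_ : ((cpd C).sp.F k).Z ω ω') : ((cpd C).p1.pb Z' k ω ω' ↔ Z' k ((cpd C).p1.π k ω) ((cpd C).p1.π k ω')) := Iff.rfl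

/-- THE ROW ZOOM OF A SYSTEM WITH COPIES over a literal function of the common variable: the copy of the zoom, seen over
the pulled label; its point is the pulled point -/
theorem exists_rcp (hC : Dtm s.Q C) (l : κ → Leaf S s.Q E) (hZ : LitC C Z') {c e : ℝ} (he : 0 < e)
    {t : MSys ((Lab.ofZ Z').ovr e he) M' E' ι}
    (hw : ∀ (b : ℝ) (i : ι), 0 ≤ b → b ≤ 1 →
      PLe ((t.lf i).win b) ((Lab.ofZ Z').up e he ((s.lf i).win (c + e * b))) ∧
      PLe ((Lab.ofZ Z').up e he ((s.lf i).win (c + e * b))) ((t.lf i).win b))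
    (hC' : Dtm (S := S.chg Z' e he) t.Q C) (lt : κ → Leaf ((Lab.ofZ Z').ovr e he) t.Q E')
    (hl : ∀ (b : ℝ) (j : κ), 0 ≤ b → b ≤ 1 →
      PLe ((lt j).win b) ((Lab.ofZ Z').up e he ((l j).win (c + e * b))) ∧
      PLe ((Lab.ofZ Z').up e he ((l j).win (c + e * b))) ((lt j).win b)) :
    ∃ t' : MSys ((Lab.ofZ ((cpd C).p1.pb Z')).ovr e he) M' E' (ι ⊕ κ),
      (⟨_, t'⟩ : Σ S : Sp, MSys S M' E' (ι ⊕ κ)) = ⟨_, MSys.cpy (S := S.chg Z' e he) t C hC' lt⟩ ∧
      t'.Q = (pjz (cpd C).p1 (pbZ C) e he).vv t.Q ∧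
      ∀ (b : ℝ) (i : ι ⊕ κ), 0 ≤ b → b ≤ 1 →
        PLe ((t'.lf i).win b) ((Lab.ofZ ((cpd C).p1.pb Z')).up e he (((s.cpy C hC l).lf i).win (c + e * b))) ∧
        PLe ((Lab.ofZ ((cpd C).p1.pb Z')).up e he (((s.cpy C hC l).lf i).win (c + e * b))) ((t'.lf i).win b) := by
  have key : ∃ t' : MSys ((Lab.ofZ ((cpd C).p1.pb Z')).ovr e he) M' E' (ι ⊕ κ),
      (⟨_, t'⟩ : Σ S : Sp, MSys S M' E' (ι ⊕ κ)) = ⟨_, MSys.cpy (S := S.chg Z' e he) t C hC' lt⟩ ∧
      (t'.Q.v : ∀ k, (S.F k).Ω × (S.F k).Ω → Fin M' → ℝ) = (MSys.cpy (S := S.chg Z' e he) t C hC' lt).Q.v ∧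
      ∀ i, (raw (t'.lf i) : LRaw (fun k => (S.F k).Ω × (S.F k).Ω) M') =
        raw ((MSys.cpy (S := S.chg Z' e he) t C hC' lt).lf i) :=
    exists_cpdt C Z' e he hZ (MSys.cpy (S := S.chg Z' e he) t C hC' lt)
  obtain ⟨t', e1, e2, e3⟩ := key
  refine ⟨t', e1, VV_ext e2, fun b i h0 h1 => ?_⟩
  rcases i with i | j
  · have w1 : (t'.lf (Sum.inl i)).win b = ((t.lf i).win b).pull (pjz (cpd C).p1 (pbZ C) e he) := by
      funext k
      exact congrArg (fun ρ : LRaw (fun k => (S.F k).Ω × (S.F k).Ω) M' =>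
        fc (F := ((Lab.ofZ ((cpd C).p1.pb Z')).ovr e he).F k)
          (winR ρ (((Lab.ofZ ((cpd C).p1.pb Z')).ovr e he).dl b k) k)) (e3 (Sum.inl i))
    have w2 : ((s.cpy C hC l).lf (Sum.inl i)).win (c + e * b) = ((s.lf i).win (c + e * b)).pull (cpd C).p1 :=
      s.cpy_cnd_old C hC l (c + e * b) i
    rw [w1, w2]
    exact win_pullz (cpd C).p1 (pbZ C) e he (hw b i h0 h1)
  · have w1 : (t'.lf (Sum.inr j)).win b = ((lt j).win b).pull (pjz (cpd C).p2 (litC_p2 hZ) e he) := by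
      funext k
      exact congrArg (fun ρ : LRaw (fun k => (S.F k).Ω × (S.F k).Ω) M' =>
        fc (F := ((Lab.ofZ ((cpd C).p1.pb Z')).ovr e he).F k)
          (winR ρ (((Lab.ofZ ((cpd C).p1.pb Z')).ovr e he).dl b k) k)) (e3 (Sum.inr j))
    have w2 : ((s.cpy C hC l).lf (Sum.inr j)).win (c + e * b) = ((l j).win (c + e * b)).pull (cpd C).p2 :=
      s.cpy_cnd_new C hC l (c + e * b) j
    rw [w1, w2]
    exact win_pullz (cpd C).p2 (litC_p2 hZ) e he (hl b j h0 h1)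

/-- the pulled label at the windows of the old types and of the copies -/
theorem dmf_cpy (hC : Dtm s.Q C) (l : κ → Leaf S s.Q E) (hZ : LitC C Z') {c : ℝ}
    (h1 : ∀ i, PLe (fun k => fc (Z' k)) ((s.lf i).win c)) (h2 : ∀ j, PLe (fun k => fc (Z' k)) ((l j).win c))
    (i : ι ⊕ κ) : PLe (fun k => fc ((cpd C).p1.pb Z' k)) (((s.cpy C hC l).lf i).win c) := by
  rcases i with i | j
  · have w2 : ((s.cpy C hC l).lf (Sum.inl i)).win c = ((s.lf i).win c).pull (cpd C).p1 := s.cpy_cnd_old C hC l c i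
    rw [w2]
    exact Pool.Agent.Helper38.NSL.PLe_pull (h1 i) (cpd C).p1
  · have w2 : ((s.cpy C hC l).lf (Sum.inr j)).win c = ((l j).win c).pull (cpd C).p2 := s.cpy_cnd_new C hC l c j
    rw [w2]
    have h3 := Pool.Agent.Helper38.NSL.PLe_pull (h2 j) (cpd C).p2
    have h4 : (fun k => fc ((cpd C).p1.pb Z' k) : Part (cpd C).sp) = Part.pull (cpd C).p2 (fun k => fc (Z' k)) :=
      pull_litC hZ
    rw [h4]
    exact h3

end cpy

end

end Pool.Agent.Helper70.CPW
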