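import Pool.Agent.Helper3.KL.Ker
import Pool.Agent.Helper7.RD.Kv
import Pool.Agent.Helper81.CPY.Inv

/-! VOLUMES OF A SYSTEM WITH COPIES OF LEAVES. A form over a label without any leak at the common variable `C` is a form
of the system with copies, over a label without leaks at the old conditions and at the copied conditions. -/

set_option autoImplicit false

namespace Pool.Agent.Helper70.CPW

open Finset Filter Topology Matrix Pool.Agent.Helper69.RK Pool.Agent.Helper31.EC Pool.Agent.Helper31.EC.Sp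
open Pool.Agent.Helper40.EL Pool.Agent.Helper84.MT Pool.Agent.Helper89.LX Pool.Agent.Helper3.LF
open Pool.Agent.Helper3.KL (kp up_snd) 
open Pool.Agent.Helper7.RD

noncomputable section

variable {S T : Sp} {M D : ℕ} {E : ℕ → ℕ} {ι κ κ' : Type} {α : ℕ → Type}

/-! ### labels -/

theorem upS_leak' (p : Pj T S) (x : ∀ k, FD (S.F k) (Mon M D)) (k : ℕ) (y : FL (S.F k)) :
    (upS p x k).l.leak ((p.fp k).map y) ≤ (x k).l.leak y := FLab.up'_leak (x k).l (p.fp k) (p.hn k) y

/-- a condition of the system with copies: it is dominated by an old condition or by a copied condition -/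
def CpCnd (C : ∀ k, (S.F k).Ω → α k) (A0 : κ → Part S) (A : Part (cpd C).sp) : Prop :=
  ∃ i, PLe ((A0 i).pull (cpd C).p1) A ∨ PLe ((A0 i).pull (cpd C).p2) A

variable {C : ∀ k, (S.F k).Ω → α k} {A0 : κ → Part S} {A : κ' → Part (cpd C).sp} {Q : S.VV M}

/-- FORMS over labels without any leak at the common variable are forms of the system with copies -/
theorem adfK_cpy [Finite κ] [Finite κ'] (hA : ∀ j, CpCnd C A0 (A j)) {x : ∀ k, FD (S.F k) (Mon M D)}
    (hx : (gaq Q D).AdfK (LC.kz (kp C)) A0 x) :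
    (gaq ((cpd C).p1.vv Q) D).AdfK (LC.kz ((kp C).pull (cpd C).p1)) A (upS (cpd C).p1 x) := by
  have h1 := Gau.Fm.up hx.1.fm (cpd C).p1
  rw [← gaq_pull] at h1
  have hK : ∀ᶠ k in UF, (x k).l.leak (kp C k) = 0 := hx.2
  refine ⟨Gau.Adf_iff.2 ⟨fun j => ?_, h1⟩, ?_⟩
  · obtain ⟨i, hi⟩ := hA j
    have h0 : Nul S (fun k => (x k).l.leak (A0 i k)) := Gau.Adf.dm _ hx.1 i
    rcases hi with hi | hi
    · refine Pool.Agent.Helper81.CPY.nul_leak_mono hi ?_
      have h2 : Nul (cpd C).sp (fun k => (x k).l.leak (A0 i k)) := (Lab.nul_pj (cpd C).p1).2 h0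
      exact h2.of_le (Eventually.of_forall fun k => FLab.leak_nonneg _ _)
        (Eventually.of_forall fun k => upS_leak' (cpd C).p1 x k (A0 i k))
    · refine Pool.Agent.Helper81.CPY.nul_leak_mono hi ?_
      have h2 : Nul (cpd C).sp (fun k => (x k).l.leak (A0 i k)) := (Lab.nul_pj (cpd C).p1).2 h0
      refine h2.of_le (Eventually.of_forall fun k => FLab.leak_nonneg _ _) ?_
      filter_upwards [hK] with k hk
      exact up_snd C k (x k).l hk (A0 i k)
  · filter_upwards [hK] with k hk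
    apply le_antisymm _ (FLab.leak_nonneg _ _)
    exact (upS_leak' (cpd C).p1 x k (kp C k)).trans_eq hk

/-- VOLUMES: the copies do not increase the least volume of K-forms -/
theorem volC_cpy_le [Finite κ] [Finite κ'] (hA : ∀ j, CpCnd C A0 (A j)) :
    volC (LC.kz ((kp C).pull (cpd C).p1)) A ((cpd C).p1.vv Q) D ≤ volC (LC.kz (kp C)) A0 Q D := by
  obtain ⟨x, hx⟩ := (gaq Q D).exists_optfK (LC.kz (kp C)) A0
  rw [volC_eq hx]
  refine (volC_le_of (adfK_cpy hA hx.1)).trans (le_of_eq ?_)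
  exact vol_up (cpd C).p1 Q x

theorem volCO_cpy_le [Finite κ] [Finite κ'] (hA : ∀ j, CpCnd C A0 (A j)) :
    volCO (LC.kz ((kp C).pull (cpd C).p1)) A ((cpd C).p1.vv Q) ≤ volCO (LC.kz (kp C)) A0 Q :=
  le_ciInf fun D => (Pool.Agent.Helper7.RD.volCO_le D).trans (volC_cpy_le hA)

end

end Pool.Agent.Helper70.CPW
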