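import Pool.Agent.Helper29.MX.Bas
import Pool.Agent.Helper70.CPW.Rcp
import Pool.Agent.Helper70.CPW.Vol
import Pool.Agent.Helper70.CPW.Evf

/-! SYSTEMS WITH COPIES OF TYPES GIVEN A RESOLUTION, in the terms of `MX/St`: upper bounds for the volumes of the
type-labels by the volumes of the K-labels of the old system; upper bounds on all events from lower bounds. -/

set_option autoImplicit false

namespace Pool.Agent.Helper70.CPW

open Finset Filter Topology Matrix Pool.Agent.Helper69.RK Pool.Agent.Helper31.EC Pool.Agent.Helper31.EC.Sp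
open Pool.Agent.Helper40.EL Pool.Agent.Helper84.MT Pool.Agent.Helper89.LX Pool.Agent.Helper3.LF
open Pool.Agent.Helper3.KL (kp)
open Pool.Agent.Helper87.NSL (cndR)
open Pool.Agent.Helper81.CPY Pool.Agent.Helper7.RD
open Pool.Agent.Helper29.MX

noncomputable section

variable {S T : Sp} {M j : ℕ} {E : ℕ → ℕ} {ι κ : Type} {s : MSys S M E ι} {R : Rsl S}

theorem kp_rsC (R : Rsl S) : kp (rsC R) = fun k => fc (R k) := by
  funext k
  unfold kp
  rw [ker_rsC]

/-- the conditions of the system with copies -/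
theorem cpCnd_sys (hC : Dtm s.Q (rsC R)) (l : κ → Leaf S s.Q E) {c : ℝ}
    (hl : ∀ j, ∃ i, PLe ((s.lf i).win c) ((l j).win c)) (i : Option (ι ⊕ κ)) :
    CpCnd (rsC R) (cndR s R c) (cndR (s.cpy (rsC R) hC l) (rbot _) c i) := by
  rcases i with _ | i
  · refine ⟨none, Or.inl (PLe_of_le fun k => ?_)⟩
    show ((cpd (rsC R)).p1.fp k).map (fc (R k)) ≤ fc ⊥
    rw [FPj.map_fc]
    exact fc_mono bot_le
  · rcases i with i | j
    · refine ⟨some i, Or.inl ?_⟩
      have h1 : ((s.cpy (rsC R) hC l).lf (Sum.inl i)).win c = ((s.lf i).win c).pull (cpd (rsC R)).p1 :=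
        s.cpy_cnd_old (rsC R) hC l c i
      show PLe (((s.lf i).win c).pull (cpd (rsC R)).p1) (((s.cpy (rsC R) hC l).lf (Sum.inl i)).win c)
      rw [h1]
      exact PLe.refl _
    · obtain ⟨i, hi⟩ := hl j
      refine ⟨some i, Or.inr ?_⟩
      have h1 : ((s.cpy (rsC R) hC l).lf (Sum.inr j)).win c = ((l j).win c).pull (cpd (rsC R)).p2 :=
        s.cpy_cnd_new (rsC R) hC l c j
      show PLe (((s.lf i).win c).pull (cpd (rsC R)).p2) (((s.cpy (rsC R) hC l).lf (Sum.inr j)).win c)
      rw [h1]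
      exact Pool.Agent.Helper38.NSL.PLe_pull hi _

/-- volumes of the type-labels of the system with copies, for any point of the space -/
theorem volCO_cpyR [Finite ι] [Finite κ] (hC : Dtm s.Q (rsC R)) (l : κ → Leaf S s.Q E) {c : ℝ}
    (hl : ∀ j, ∃ i, PLe ((s.lf i).win c) ((l j).win c)) (Q : S.VV j) :
    volCO (KZ (rbot _)) (cndR (s.cpy (rsC R) hC l) (rbot _) c) ((cpd (rsC R)).p1.vv Q) ≤
      volCO (KZ R) (cndR s R c) Q := by
  have h1 := volCO_cpy_le (C := rsC R) (Q := Q) (cpCnd_sys hC l hl)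
  rw [kp_rsC] at h1
  refine le_trans ?_ h1
  exact volCO_mono (fun i => ⟨i, PLe.refl _⟩) fun l _ => kz_bot l

/-- VOLUMES: the type-labels of the system with copies have at most the volumes of the K-labels -/
theorem volKO_cpy_le [Finite ι] [Finite κ] (hC : Dtm s.Q (rsC R)) (l : κ → Leaf S s.Q E) {c : ℝ}
    (hl : ∀ j, ∃ i, PLe ((s.lf i).win c) ((l j).win c)) :
    volKO (s.cpy (rsC R) hC l) (rbot _) c ≤ volKO s R c := by
  rw [volKO_eq, volKO_eq]
  exact volCO_cpyR hC l hl s.Q

/-- prefixes -/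
theorem volP_cpy_le [Finite ι] [Finite κ] (hC : Dtm s.Q (rsC R)) (l : κ → Leaf S s.Q E) {c : ℝ}
    (hl : ∀ j, ∃ i, PLe ((s.lf i).win c) ((l j).win c)) (hj : j ≤ M) :
    volP (s.cpy (rsC R) hC l) (rbot _) c hj ≤ volP s R c hj := volCO_cpyR hC l hl (pfx s.Q hj)

/-- the conditions on events -/
theorem cndR_im (s : MSys S M E ι) (R : Rsl S) (c : ℝ) (p : Pj T S) (A : ∀ k, (T.F k).Ω → Prop)
    (hA : 0 < ul (T.pr A)) : (fun i => (cndR s R c i).im p A) = cndR (s.im p A hA) (R : Rsl (Sp.im p A)) c := by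
  funext i
  rcases i with _ | i <;> rfl

/-- RIGIDITY for the type-labels: lower bounds on all events and an upper bound on the space -/
theorem volKO_rig [Finite ι] {c w : ℝ} (hup : volKO s (rbot S) c ≤ w)
    (hlow : AllE (fun _ t R' => w ≤ volKO t R' c) S s (rbot S)) :
    AllE (fun _ t R' => volKO t R' c = w) S s (rbot S) := by
  rw [volKO_eq] at hup
  intro T p A hA
  have h1 := volCO_rig (A := cndR s (rbot S) c) (Q := s.Q) hup (fun T p E hE => by
    have h2 : w ≤ volKO (s.im p E hE) (rbot S : Rsl (Sp.im p E)) c := hlow T p E hE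
    rw [volKO_eq] at h2
    have h3 := cndR_im s (rbot S) c p E hE
    rw [h3]
    exact h2) p A hA
  have h3 := cndR_im s (rbot S) c p A hA
  rw [h3] at h1
  show volKO _ _ _ = w
  rw [volKO_eq]
  exact h1

/-- rigidity for prefixes -/
theorem volP_rig [Finite ι] {c w : ℝ} (hj : j ≤ M) (hup : volP s (rbot S) c hj ≤ w)
    (hlow : AllE (fun _ t R' => w ≤ volP t R' c hj) S s (rbot S)) :
    AllE (fun _ t R' => volP t R' c hj = w) S s (rbot S) := by
  intro T p A hA
  have h1 := volCO_rig (A := cndR s (rbot S) c) (Q := pfx s.Q hj) hup (fun T p E hE => by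
    have h2 : w ≤ volP (s.im p E hE) (rbot S : Rsl (Sp.im p E)) c hj := hlow T p E hE
    have h3 := cndR_im s (rbot S) c p E hE
    rw [h3]
    exact h2) p A hA
  have h3 := cndR_im s (rbot S) c p A hA
  rw [h3] at h1
  exact h1

end

end Pool.Agent.Helper70.CPW
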