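import Pool.Agent.Helper70.CPW.Pfu

/-! PREFIXES of the system with copies at a window `c > 0`, from a flag zoom over a literal K-label. -/

set_option autoImplicit false

namespace Pool.Agent.Helper70.CPW

open Finset Filter Topology Matrix Pool.Agent.Helper69.RK Pool.Agent.Helper31.EC Pool.Agent.Helper31.EC.Sp
open Pool.Agent.Helper40.EL Pool.Agent.Helper84.MT Pool.Agent.Helper89.LX Pool.Agent.Helper3.LF
open Pool.Agent.Helper95.LF Pool.Agent.Helper36.AM Pool.Agent.Helper7.GZ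
open Pool.Agent.Helper7.RD (RW PZ volCO upz)
open Pool.Agent.Helper87.NSL (cndR KnS)
open Pool.Agent.Helper81.CPY
open Pool.Agent.Helper38.NSL (PLe_pull)
open Pool.Agent.Helper29.MX

noncomputable section

variable {S T : Sp} {M g r : ℕ} {E E' : ℕ → ℕ} {ι κ : Type}

section cpy

variable {s : MSys S M E ι} {R W : Rsl S} (hC : Dtm s.Q (rsC R)) (l : κ → Leaf S s.Q E)

/-- literal K-labels of the old system are K-labels of the system with copies -/
theorem klb_cpy {c : ℝ} (hK : KLb s R c (Lab.ofZ W)) (hlc : ∀ j, ∃ i, PLe ((s.lf i).win c) ((l j).win c)) :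
    KLb (s.cpy (rsC R) hC l) ((cpd (rsC R)).p1.pb R) c (Lab.ofZ ((cpd (rsC R)).p1.pb W)) := by
  have h0 := (Lab.ofZ_DMf W).1 hK.1
  have h1 : ∀ᶠ k in UF, ((cpd (rsC R)).p1.fp k).map (fc (W k)) = ((cpd (rsC R)).p2.fp k).map (fc (W k)) := by
    filter_upwards [hK.2] with k hk
    have h2 : ((Lab.ofZ W) k).leak (fc (R k)) = 0 := hk
    rw [Lab.ofZ_leak W (fun k => fc (R k)) k] at h2
    have h3 : fc (W k) ≤ fc (R k) := h_le_zero_iff.mp h2.le
    exact cpd_common (rsC R) k (W k) fun ω ω' a b hz hc =>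
      Pool.Agent.Helper48.NS.fc_le_supp h3 ω ω' a b hz (Quotient.exact hc)
  refine ⟨?_, ?_⟩
  · rw [Lab.ofZ_DMf]
    rintro (_ | i | j)
    · exact PLe_pull (h0 none) (cpd (rsC R)).p1
    · have h2 := PLe_pull (h0 (some i)) (cpd (rsC R)).p1
      have e1 := MSys.cpy_cnd_old s (rsC R) hC l c i
      have e2 : cndR (s.cpy (rsC R) hC l) ((cpd (rsC R)).p1.pb R) c (some (Sum.inl i)) =
        ((s.lf i).win c).pull (cpd (rsC R)).p1 := e1
      rw [e2]
      exact h2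
    · obtain ⟨i, hi⟩ := hlc j
      have h2 := PLe_pull (PLe.trans (h0 (some i)) hi) (cpd (rsC R)).p2
      have e2 : cndR (s.cpy (rsC R) hC l) ((cpd (rsC R)).p1.pb R) c (some (Sum.inr j)) =
        ((l j).win c).pull (cpd (rsC R)).p2 := MSys.cpy_cnd_new s (rsC R) hC l c j
      rw [e2]
      exact PLe.trans (PLe_of_ev (h1.mono fun k hk => le_of_eq hk)) h2
  · filter_upwards [hK.2] with k hk
    have h2 : ((Lab.ofZ W) k).leak (fc (R k)) = 0 := hk
    rw [Lab.ofZ_leak W (fun k => fc (R k)) k] at h2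
    show ((Lab.ofZ ((cpd (rsC R)).p1.pb W)) k).leak (fc ((cpd (rsC R)).p1.pb R k)) = 0
    rw [Lab.ofZ_leak ((cpd (rsC R)).p1.pb W) (fun k => fc ((cpd (rsC R)).p1.pb R k)) k]
    have h3 := ((cpd (rsC R)).p1.fp k).h_map (fc (W k)) (fc (R k))
    exact h3.trans h2

/-- UPPER BOUND for the prefixes of the system with copies, on all events -/
theorem pfx_up [Finite ι] [Finite κ] {c u : ℝ} {h0 : 0 ≤ c} {hu : 0 < u} {h1 : c + u ≤ 1}
    (z : PZ (zuz W c u h0 hu h1) s.Q M) (htri : z.Tri) {lam : Fin M → ℝ}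
    (hex : ∀ e : ℝ, 0 < e → Typ (S := S) (fun k (ω : (S.F k).Ω) => ∀ j,
      2 ^ ((lam j - e) * (S.F k).n) ≤ |MvPolynomial.eval (s.Q.v k ω) (MvPolynomial.pderiv j (z.R.p k ω j))|))
    (hK : KLb s R c (Lab.ofZ W)) (hlc : ∀ j, ∃ i, PLe ((s.lf i).win c) ((l j).win c)) {m : ℕ} (hm : m ≤ M)
    (p : Pj T (cpd (rsC R)).sp) (A : ∀ k, (T.F k).Ω → Prop) (hA : 0 < ul (T.pr A)) :
    volP ((s.cpy (rsC R) hC l).im p A hA) ((cpd (rsC R)).p1.pb R : Rsl (Sp.im p A)) c hm ≤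
      m - ∑ i : Fin m, lam (Fin.castLE hm i) := by
  refine flag_up (s := (s.cpy (rsC R) hC l).im p A hA) (R := (cpd (rsC R)).p1.pb R)
    (pzI p A hA (pzP (cpd (rsC R)).p1 (pbZ (rsC R)) z)) (fun k ω j => htri k _ j) (fun e he => ?_)
    (klb_im (klb_cpy hC l hK hlc) p A hA) hm
  refine (typ_im p A hA (typ_pull (cpd (rsC R)).p1 (hex e he))).mono (Eventually.of_forall fun k ω _ h j => ?_)
  exact h j

end cpy

end

end Pool.Agent.Helper70.CPW
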