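import Pool.Agent.Helper70.CPW.Cpt
import Pool.Agent.Helper70.CPW.Evx
import Pool.Agent.Helper93.FST.Tv
import Pool.Agent.Helper99.MX.Sws

/-! PREFIXES of a system with copies: upper bounds by flags over a literal label, lower bounds by the prefixes of the old
system; pairs of resolutions. -/

set_option autoImplicit false

namespace Pool.Agent.Helper70.CPW

open Finset Filter Topology Matrix Pool.Agent.Helper69.RK Pool.Agent.Helper31.EC Pool.Agent.Helper31.EC.Sp
open Pool.Agent.Helper40.EL Pool.Agent.Helper84.MT Pool.Agent.Helper89.LX Pool.Agent.Helper3.LF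
open Pool.Agent.Helper95.LF Pool.Agent.Helper36.AM Pool.Agent.Helper7.GZ
open Pool.Agent.Helper7.RD (RW PZ volCO upz)
open Pool.Agent.Helper87.NSL (cndR KnS)
open Pool.Agent.Helper81.CPY
open Pool.Agent.Helper29.MX

noncomputable section

variable {S T : Sp} {M g r : ℕ} {E E' : ℕ → ℕ} {ι κ : Type}

/-- UPPER BOUND for the prefixes by flags over a literal label -/
theorem flag_up [Finite ι] {s : MSys S M E ι} {R W : Rsl S} {c u : ℝ} {h0 : 0 ≤ c} {hu : 0 < u} {h1 : c + u ≤ 1}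
    (z : PZ (zuz W c u h0 hu h1) s.Q M) (htri : z.Tri) {lam : Fin M → ℝ}
    (hex : ∀ e : ℝ, 0 < e → Typ (S := S) (fun k (ω : (S.F k).Ω) => ∀ j,
      2 ^ ((lam j - e) * (S.F k).n) ≤ |MvPolynomial.eval (s.Q.v k ω) (MvPolynomial.pderiv j (z.R.p k ω j))|))
    (hK : KLb s R c (Lab.ofZ W)) {m : ℕ} (hm : m ≤ M) :
    volP s R c hm ≤ m - ∑ i : Fin m, lam (Fin.castLE hm i) := by
  have h2 := z.volP_le htri (A := cndR s R c) (B := fun i => upz (zuz W c u h0 hu h1) (cndR s R c i)) hK.1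
    (fun i => ⟨i, PLe.refl _⟩) (C := fun k => fc (R k)) hK.2 lam hex hm
  have h3 : volCO (LC.kz (upz (zuz W c u h0 hu h1) fun k => fc (R k)))
      (fun i => upz (zuz W c u h0 hu h1) (cndR s R c i)) (pfx z.X hm) ≤ m := Pool.Agent.Helper7.RD.volCO_le_M
  have h4 : 0 ≤ u * (m - volCO (LC.kz (upz (zuz W c u h0 hu h1) fun k => fc (R k)))
      (fun i => upz (zuz W c u h0 hu h1) (cndR s R c i)) (pfx z.X hm)) := mul_nonneg hu.le (sub_nonneg.2 h3)
  have h5 : volP s R c hm ≤ m - ∑ i : Fin m, lam (Fin.castLE hm i) - u * (m -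
      volCO (LC.kz (upz (zuz W c u h0 hu h1) fun k => fc (R k)))
      (fun i => upz (zuz W c u h0 hu h1) (cndR s R c i)) (pfx z.X hm)) := h2
  linarith

/-- monotonicity of the prefixes in the window -/
theorem volP_anti [Finite ι] (s : MSys S M E ι) (R : Rsl S) {c c' : ℝ} (h : c ≤ c') {m : ℕ} (hm : m ≤ M) :
    volP s R c' hm ≤ volP s R c hm := by
  rw [Pool.Agent.Helper7.RD.volP_cnA, Pool.Agent.Helper7.RD.volP_cnA]
  exact Pool.Agent.Helper7.RD.volCO_mono (fun i => ⟨i, Pool.Agent.Helper7.RD.cnA_le (PLe.refl _) h i⟩) fun _ h => h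

section cpy

variable {s : MSys S M E ι} {R : Rsl S} (hC : Dtm s.Q (rsC R)) (l : κ → Leaf S s.Q E)

/-- LOWER BOUND for the prefixes of the copy by the prefixes of the old system, the old resolution pulled back -/
theorem pfx_down [Finite ι] [Finite κ] (c : ℝ) {m : ℕ} (hm : m ≤ M) (p : Pj T (cpd (rsC R)).sp)
    (A : ∀ k, (T.F k).Ω → Prop) (hA : 0 < ul (T.pr A)) :
    volP (s.im (p.comp (cpd (rsC R)).p1) A hA) (R : Rsl (Sp.im (p.comp (cpd (rsC R)).p1) A)) c hm ≤
      volP ((s.cpy (rsC R) hC l).im p A hA) ((cpd (rsC R)).p1.pb R : Rsl (Sp.im p A)) c hm := by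
  refine Pool.Agent.Helper93.FST.volCO_dn (imj (cpd (rsC R)).p1 p A) (Q := pfx (s.im (p.comp (cpd (rsC R)).p1) A hA).Q hm)
    fun y h1 h2 => ?_
  have key : ∀ X : Part (Sp.im (p.comp (cpd (rsC R)).p1) A),
      Nul (Sp.im p A) (fun k => (y k).leak ((X.pull (imj (cpd (rsC R)).p1 p A)) k)) →
        Nul (Sp.im (p.comp (cpd (rsC R)).p1) A) (fun k => (Lab.down (imj (cpd (rsC R)).p1 p A) y k).leak (X k)) :=
    fun X hX => ((Lab.nul_pj (imj (cpd (rsC R)).p1 p A)).mp hX).of_le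
      (Eventually.of_forall fun k => FLab.leak_nonneg _ _)
      (Eventually.of_forall fun k => FLab.down_leak ((imj (cpd (rsC R)).p1 p A).fp k)
        ((imj (cpd (rsC R)).p1 p A).hn k) (y k) (X k))
  refine ⟨fun i => ?_, ?_⟩
  · cases i with
    | none => exact key (fun k => fc (R k)) (h1 none)
    | some i =>
      refine key (((s.im (p.comp (cpd (rsC R)).p1) A hA).lf i).win c) ?_
      have e1 : ((((s.im (p.comp (cpd (rsC R)).p1) A hA).lf i).pull (imj (cpd (rsC R)).p1 p A)).win c) =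
        (((s.im (p.comp (cpd (rsC R)).p1) A hA).lf i).win c).pull (imj (cpd (rsC R)).p1 p A) :=
        win_pull (imj (cpd (rsC R)).p1 p A) ((s.im (p.comp (cpd (rsC R)).p1) A hA).lf i) c
      rw [← e1]
      exact h1 (some (Sum.inl i))
  · filter_upwards [h2] with k hk
    have h3 := FLab.down_leak ((imj (cpd (rsC R)).p1 p A).fp k) ((imj (cpd (rsC R)).p1 p A).hn k) (y k)
      (fc (F := (Sp.im (p.comp (cpd (rsC R)).p1) A).F k) (R k))
    have h4 : (y k).leak (((imj (cpd (rsC R)).p1 p A).fp k).map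
      (fc (F := (Sp.im (p.comp (cpd (rsC R)).p1) A).F k) (R k))) = 0 := hk
    rw [h4] at h3
    exact le_antisymm h3 (FLab.leak_nonneg _ _)

end cpy

end

end Pool.Agent.Helper70.CPW
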