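import Pool.Agent.Helper26.BXD.Use
import Pool.Agent.Helper36.AM.Rw

/-! ROWS OF A LABEL IN THE COORDINATES OF A FRAME of another label: if there is no gain over the box of the frame, all
coefficients are tame. -/

set_option autoImplicit false

namespace Pool.Agent.Helper70.CPW

open Finset Filter Topology Matrix MvPolynomial Pool.Agent.Helper69.RK Pool.Agent.Helper31.EC Pool.Agent.Helper31.EC.Sp
open Pool.Agent.Helper40.EL Pool.Agent.Helper84.MT Pool.Agent.Helper89.LX Pool.Agent.Helper3.LF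
open Pool.Agent.Helper95.LF Pool.Agent.Helper36.AM Pool.Agent.Helper7.GZ Pool.Agent.Helper26.BXD
open Pool.Agent.Helper81.MI (totalDegree_bind eval_bind)

noncomputable section

/-- the exponents of a polynomial of bounded degree -/
theorem exists_mon {M D : ℕ} {q : MvPolynomial (Fin M) ℝ} (hq : q.totalDegree ≤ D) {s : Fin M →₀ ℕ}
    (hs : coeff s q ≠ 0) : ∃ b : Mon M D, b.ex = s := by
  have h3 : (s.sum fun _ e => e) ≤ D := (le_totalDegree (mem_support_iff.2 hs)).trans hq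
  rw [Finsupp.sum_fintype _ _ (fun _ => rfl)] at h3
  have h4 : ∀ i, s i < D + 1 := fun i =>
    Nat.lt_succ_of_le ((Finset.single_le_sum (f := fun i => s i) (fun _ _ => Nat.zero_le _)
      (Finset.mem_univ i)).trans h3)
  refine ⟨⟨fun i => ⟨s i, h4 i⟩, h3⟩, ?_⟩
  ext i
  rfl

variable {S : Sp} {M M' D : ℕ} {Q : S.VV M} {l l' : Lab S} {La : Fin M → ℝ} (f : Frm Q l La) {Λ u : ℝ}
  (R : Rows Q l' M' D Λ u)

/-- the rows of a label in the coordinates of the frame of another label -/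
def qrw (k : ℕ) (w : ((l k).am (l' k)).sp.Ω) (j : Fin M') : MvPolynomial (Fin M) ℝ :=
  bind₁ (chp (fP f k (((l k).am (l' k)).p1.π w)) (scl La S k)) (pct l' R.p k (((l k).am (l' k)).p2.π w) j)

theorem pct_deg (k : ℕ) (ω : (l' k).T.Ω) (j : Fin M') : (pct l' R.p k ω j).totalDegree ≤ D := by
  unfold pct
  split_ifs
  · exact R.deg k ω j
  · rw [totalDegree_zero]
    exact Nat.zero_le _

theorem pct_ev : ∀ᶠ k in UF, ∀ ω, pct l' R.p k ω = R.p k ω := by
  filter_upwards [R.fn] with k hk ω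
  unfold pct
  exact if_pos fun ω ω' a b c d => hk ω ω' a b d c

theorem qrw_deg {κ : ℕ} (hκ : ∀ k ω j, (f.P k ω j).totalDegree ≤ κ) (k : ℕ) (w : ((l k).am (l' k)).sp.Ω) (j : Fin M') :
    (qrw f R k w j).totalDegree ≤ D * (κ + 1) :=
  totalDegree_bind _ (pct_deg R k _ j) _ fun i => chp_deg _ _ (fP_deg f hκ k _) i

theorem qrw_fn (k : ℕ) (w w' : ((l k).am (l' k)).sp.Ω) (a : ((l k).am (l' k)).sp.μ w ≠ 0)
    (a' : ((l k).am (l' k)).sp.μ w' ≠ 0) (hZ : ((l k).am (l' k)).sp.Z w w')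
    (c1 : (l k).V (((l k).am (l' k)).p1.π w) (((l k).am (l' k)).p1.π w'))
    (hV : (l' k).V (((l k).am (l' k)).p2.π w) (((l k).am (l' k)).p2.π w')) : qrw f R k w = qrw f R k w' := by
  have a1 := ((l k).am (l' k)).p1.supp w a
  have a1' := ((l k).am (l' k)).p1.supp w' a'
  have a2 := ((l k).am (l' k)).p2.supp w a
  have a2' := ((l k).am (l' k)).p2.supp w' a'
  have e1 := fP_fn f k _ _ a1 a1' ((((l k).am (l' k)).p1.hZ w w' a a').1 hZ) c1
  have e2 : pct l' R.p k (((l k).am (l' k)).p2.π w) = pct l' R.p k (((l k).am (l' k)).p2.π w') := by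
    unfold pct
    by_cases h : Ms l' R.p k
    · rw [if_pos h, if_pos h]
      exact h _ _ a2 a2' hV ((((l k).am (l' k)).p2.hZ w w' a a').1 hZ)
    · rw [if_neg h, if_neg h]
  funext j
  unfold qrw
  rw [e1, e2]

/-- the form of the rows -/
def qfm (e : ℝ) (he : 0 < e) (κ : ℕ) : Fm (l.ovl e he l') M (D * (κ + 1)) where
  g := fun k w => ∑ j, Matrix.vecMulVec (cfs (D * (κ + 1)) (qrw f R k w j)) (cfs (D * (κ + 1)) (qrw f R k w j))
  ms := fun k w w' a a' hV hZ => by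
    rw [qrw_fn f R k w w' a a' hZ.2 hZ.1 hV]
  sy := fun k w => by
    unfold Matrix.IsSymm
    rw [Matrix.transpose_sum]
    exact Finset.sum_congr rfl fun j _ => Matrix.transpose_vecMulVec _ _
  nn := fun k w x => by
    rw [dv_sum]
    refine Finset.sum_nonneg fun j _ => ?_
    rw [vmv_qf]
    exact sq_nonneg _

variable {κ : ℕ} (hκ : ∀ k ω j, (f.P k ω j).totalDegree ≤ κ)

include hκ

theorem qfm_val (e : ℝ) (he : 0 < e) (k : ℕ) (w : ((l.ovl e he l') k).T.Ω) (x : Fin M → ℝ) :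
    vv x ⬝ᵥ ((qfm f R e he κ).g k w *ᵥ vv x) = ∑ j, (eval x (qrw f R k w j)) ^ 2 := by
  show vv x ⬝ᵥ ((∑ j, Matrix.vecMulVec (cfs (D * (κ + 1)) (qrw f R k w j)) (cfs (D * (κ + 1)) (qrw f R k w j)) :
    Matrix (Mon M (D * (κ + 1))) (Mon M (D * (κ + 1))) ℝ) *ᵥ vv x) = _
  rw [dv_sum]
  refine Finset.sum_congr rfl fun j _ => ?_
  rw [vmv_qf, ← eval_pol, pol_cfs _ (qrw_deg f R hκ k w j)]

theorem qfm_coef (e : ℝ) (he : 0 < e) (k : ℕ) (w : ((l.ovl e he l') k).T.Ω) (j : Fin M') (a : Fin M →₀ ℕ) :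
    (coeff a (qrw f R k w j)) ^ 2 ≤ ((qfm f R e he κ).g k w).trace := by
  have h1 : ((qfm f R e he κ).g k w).trace = ∑ j, ∑ a, cfs (D * (κ + 1)) (qrw f R k w j) a ^ 2 := by
    show (∑ j, Matrix.vecMulVec (cfs (D * (κ + 1)) (qrw f R k w j)) (cfs (D * (κ + 1)) (qrw f R k w j)) :
      Matrix (Mon M (D * (κ + 1))) (Mon M (D * (κ + 1))) ℝ).trace = _
    rw [Matrix.trace_sum]
    refine Finset.sum_congr rfl fun j _ => ?_
    rw [Matrix.trace_vecMulVec]
    exact Finset.sum_congr rfl fun a _ => (pow_two _).symm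
  rw [h1]
  have h2 : ∑ a, cfs (D * (κ + 1)) (qrw f R k w j) a ^ 2 ≤ ∑ j, ∑ a, cfs (D * (κ + 1)) (qrw f R k w j) a ^ 2 :=
    Finset.single_le_sum (f := fun j => ∑ a, cfs (D * (κ + 1)) (qrw f R k w j) a ^ 2)
      (fun j _ => Finset.sum_nonneg fun a _ => sq_nonneg _) (Finset.mem_univ j)
  refine le_trans ?_ h2
  by_cases h0 : coeff a (qrw f R k w j) = 0
  · rw [h0]
    have h3 : 0 ≤ ∑ a, cfs (D * (κ + 1)) (qrw f R k w j) a ^ 2 := Finset.sum_nonneg fun a _ => sq_nonneg _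
    rw [pow_two, mul_zero]
    exact h3
  · obtain ⟨b, hb⟩ := exists_mon (qrw_deg f R hκ k w j) h0
    have h6 : cfs (D * (κ + 1)) (qrw f R k w j) b ^ 2 ≤ ∑ a, cfs (D * (κ + 1)) (qrw f R k w j) a ^ 2 :=
      Finset.single_le_sum (f := fun a => cfs (D * (κ + 1)) (qrw f R k w j) a ^ 2)
        (fun a _ => sq_nonneg _) (Finset.mem_univ b)
    refine le_trans (le_of_eq ?_) h6
    show _ = (coeff b.ex (qrw f R k w j)) ^ 2
    rw [hb]

variable {e : ℝ} {he : 0 < e} {κ₁ κ₂ : Type} [Finite κ₂] {A : κ₁ → Part S} {B : κ₂ → Part (l.ovr e he)}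
  {C' : LC (l.ovr e he)}

/-- TAMENESS OF THE ROWS in the coordinates of the frame -/
theorem rows_tame (hu : 0 ≤ u) (hAB : ∀ i', ∃ i, PLe (l.up e he (A i)) (B i')) (hl : l'.DMf A)
    (hC : C'.ev (l.ovl e he l')) (hN : NG C' (f.X.chg l.V e he) B) (δ : ℝ) (hδ : 0 < δ) :
    Tendsto (fun k => ((l k).am (l' k)).sp.pb (fun w => ¬ ∀ j a, |coeff a (bind₁ (chp
      (fP f k (((l k).am (l' k)).p1.π w)) (scl La S k)) (R.p k (((l k).am (l' k)).p2.π w) j))| ≤
        2 ^ (δ * (S.F k).n))) UF (𝓝 0) := by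
  obtain ⟨Kp, hKp, hp⟩ := chart_pt f
  obtain ⟨K1, hK1, hT1⟩ := R.bd
  obtain ⟨K2, hK2, hT2⟩ := R.lp Kp hKp
  have hcst : S.Sub (fun k => M' * (K1 k + K2 k) ^ 2) := (S.Sub_const (Nat.cast_nonneg _)).mul (Sub_pow' (hK1.add hK2) 2)
  have hT : Tendsto (fun k => (l' k).T.pb (fun ω => ¬ ((∀ j, |eval (Q.v k ((l' k).p.π ω)) (R.p k ω j)| ≤ K1 k) ∧
      ∀ y : Fin M → ℝ, (∀ i, |y i - Q.v k ((l' k).p.π ω) i| ≤ Kp k * S.dl 1 k) → ∀ j,
        |eval y (R.p k ω j) - eval (Q.v k ((l' k).p.π ω)) (R.p k ω j)| ≤ K2 k * S.dl u k))) UF (𝓝 0) :=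
    Typ.and (S := l'.sp) hT1 hT2
  have key := noalg (l := l.ovl e he l') hN (Lab.DMf.mono (Lab.DMf.ovl hl l e he) hAB) hC (qfm f R e he κ)
    (fun η hη => by
      have hη2 : 0 < η * e := by positivity
      refine squeeze_zero' (Eventually.of_forall fun k => FSp.pb_nonneg _ _) ?_ hT
      filter_upwards [hp, pct_ev R, hcst.eventually_le hη2, hK2.1] with k b e1 d hK0
      rw [← pb_push ((l k).am (l' k)).p2 (fun ω => ¬ ((∀ j, |eval (Q.v k ((l' k).p.π ω)) (R.p k ω j)| ≤ K1 k) ∧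
        ∀ y : Fin M → ℝ, (∀ i, |y i - Q.v k ((l' k).p.π ω) i| ≤ Kp k * S.dl 1 k) → ∀ j,
          |eval y (R.p k ω j) - eval (Q.v k ((l' k).p.π ω)) (R.p k ω j)| ≤ K2 k * S.dl u k))]
      apply FSp.pb_mono
      intro (w : ((l k).am (l' k)).sp.Ω) hw h1 h2
      apply h1
      have s1 := ((l k).am (l' k)).p1.supp w hw
      have s3 : (l k).p.π (((l k).am (l' k)).p1.π w) = (l' k).p.π (((l k).am (l' k)).p2.π w) :=
        (((l k).am (l' k)).supp w hw).1
      show vv (f.X.v k (((l k).am (l' k)).p1.π w)) ⬝ᵥ ((qfm f R e he κ).g k w *ᵥ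
        vv (f.X.v k (((l k).am (l' k)).p1.π w))) ≤ 2 ^ (η * ((l.ovr e he).F k).n)
      rw [qfm_val f R hκ]
      have h3 := h2.2 (fun i => eval (f.X.v k (((l k).am (l' k)).p1.π w)) (chp (fP f k (((l k).am (l' k)).p1.π w))
        (scl La S k) i)) (fun i => by
          rw [abs_sub_comm, ← s3]
          exact b _ s1 i)
      have h4 : ∀ j ∈ (Finset.univ : Finset (Fin M')), eval (f.X.v k (((l k).am (l' k)).p1.π w)) (qrw f R k w j) ^ 2 ≤
          (K1 k + K2 k) ^ 2 := by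
        intro j _
        unfold qrw
        rw [eval_bind, e1, ← sq_abs]
        refine pow_le_pow_left₀ (abs_nonneg _) ?_ 2
        have h5 := h3 j
        have h6 := h2.1 j
        have h7 : K2 k * S.dl u k ≤ K2 k := mul_le_of_le_one_right hK0 ((S.dl_anti hu k).trans_eq (S.dl_zero k))
        have h8 := abs_sub_abs_le_abs_sub (eval (fun i => eval (f.X.v k (((l k).am (l' k)).p1.π w)) (chp
          (fP f k (((l k).am (l' k)).p1.π w)) (scl La S k) i)) (R.p k (((l k).am (l' k)).p2.π w) j))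
          (eval (Q.v k ((l' k).p.π (((l k).am (l' k)).p2.π w))) (R.p k (((l k).am (l' k)).p2.π w) j))
        linarith
      have h9 := Finset.sum_le_card_nsmul _ _ _ h4
      rw [Finset.card_univ, Fintype.card_fin, nsmul_eq_mul] at h9
      have hn : ((l.ovr e he).F k).n = e * (S.F k).n := l.n_over e he k
      rw [hn, ← mul_assoc]
      linarith) (2 * δ / e) (by positivity)
  refine squeeze_zero' (Eventually.of_forall fun k => FSp.pb_nonneg _ _) ?_ key
  filter_upwards [pct_ev R] with k e1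
  apply FSp.pb_mono
  intro (w : ((l k).am (l' k)).sp.Ω) hw h1 h2
  apply h1
  intro j a
  have hn : ((l.ovr e he).F k).n = e * (S.F k).n := l.n_over e he k
  have h3 := (qfm_coef f R hκ e he k w j a).trans h2
  rw [hn] at h3
  have h4 : (2 : ℝ) ^ (2 * δ / e * (e * (S.F k).n)) = (2 ^ (δ * (S.F k).n)) ^ 2 := by
    rw [← Real.rpow_natCast, ← Real.rpow_mul (by norm_num)]
    congr 1
    push_cast
    field_simp
  rw [h4] at h3
  have h5 := abs_le_of_sq_le_sq h3 (by positivity)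
  have h6 : coeff a (qrw f R k w j) = coeff a (bind₁ (chp (fP f k (((l k).am (l' k)).p1.π w)) (scl La S k))
      (R.p k (((l k).am (l' k)).p2.π w) j)) := by
    unfold qrw
    rw [e1]
  rw [← h6]
  exact h5

end

end Pool.Agent.Helper70.CPW
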