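import Pool.Agent.Helper70.CPW.Evz

/-! EXTENSIONS OF THE SPACE OF A ZOOM over a literal label are extensions of the space: events of extensions of the zoom
are zooms on events of extensions. -/

set_option autoImplicit false

namespace Pool.Agent.Helper70.CPW

open Finset Filter Topology Matrix Pool.Agent.Helper69.RK Pool.Agent.Helper31.EC Pool.Agent.Helper31.EC.Sp
open Pool.Agent.Helper40.EL Pool.Agent.Helper84.MT Pool.Agent.Helper89.LX
open Pool.Agent.Helper81.CPY
open Pool.Agent.Helper29.MX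

noncomputable section

variable {S T : Sp} {M : ℕ} {E E' : ℕ → ℕ} {ι κ : Type}

/-- an extension of the space of a zoom over a literal label as an extension of the space -/
def unz {W : Rsl S} {u : ℝ} {hu : 0 < u} (p : Pj T ((Lab.ofZ W).ovr u hu)) : Sp where
  F := fun k => { T.F k with
    Z := (Setoid.comap (p.π k : (T.F k).Ω → (S.F k).Ω) (S.F k).Z : Setoid (T.F k).Ω)
    n := (T.F k).n / u
    pos := div_pos (T.F k).pos hu }
  lim := T.lim.atTop_div_const hu

/-- the projection -/
def puz {W : Rsl S} {u : ℝ} {hu : 0 < u} (p : Pj T ((Lab.ofZ W).ovr u hu)) : Pj (unz p) S where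
  π := fun k ω => p.π k ω
  law := fun k => p.law k
  hZ := fun _ _ _ _ _ => Iff.rfl
  hn := fun k => by
    show (T.F k).n / u = (S.F k).n
    have h1 : (T.F k).n = u * (S.F k).n := p.hn k
    rw [h1, mul_div_cancel_left₀ _ hu.ne']

/-- EVENTS OF EXTENSIONS OF A ZOOM are zooms on events of extensions -/
theorem im_unz {W : Rsl S} {u : ℝ} {hu : 0 < u} (t : MSys ((Lab.ofZ W).ovr u hu) M E ι)
    (p : Pj T ((Lab.ofZ W).ovr u hu)) (A : ∀ k, (T.F k).Ω → Prop) (hA : 0 < ul (T.pr A)) :
    (⟨Sp.im p A, t.im p A hA⟩ : Σ S : Sp, MSys S M E ι) =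
      ⟨_, zim (puz p) (A : ∀ k, ((unz p).F k).Ω → Prop) hA t⟩ := rfl

end

end Pool.Agent.Helper70.CPW
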